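import Pool.Agent.Helper29.BL.Defs

/-!
# Project BL: the calculus of sums over places
-/

namespace Pool.Agent.Helper29.BL

open WeierstrassCurve Height Height.AdmissibleAbsValues Polynomial
open scoped Polynomial.Bivariate

noncomputable section

section basic

variable {K : Type} [Field K]

lemma one_le_Mv (v : AbsoluteValue K ℝ) (a : K) : 1 ≤ Mv v a := le_max_left _ _

lemma Mv_pos (v : AbsoluteValue K ℝ) (a : K) : 0 < Mv v a := lt_of_lt_of_le one_pos (one_le_Mv v a)

lemma log_Mv (v : AbsoluteValue K ℝ) (a : K) : Real.log (Mv v a) = Real.posLog (v a) := by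
  rw [Mv, Real.posLog_eq_log_max_one (v.nonneg a)]

lemma one_le_bet (W : Affine K) (v : AbsoluteValue K ℝ) : 1 ≤ bet W v := le_max_left _ _

lemma bet_pos (W : Affine K) (v : AbsoluteValue K ℝ) : 0 < bet W v :=
  lt_of_lt_of_le one_pos (one_le_bet W v)

lemma cst_of_nonarch {v : AbsoluteValue K ℝ} (hv : IsNonarchimedean v) (c : ℝ) : cst v c = 1 := by
  simp [cst, hv]

lemma cst_of_not_nonarch {v : AbsoluteValue K ℝ} (hv : ¬ IsNonarchimedean v) (c : ℝ) :
    cst v c = c := by
  simp [cst, hv]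

lemma one_le_cst (v : AbsoluteValue K ℝ) {c : ℝ} (hc : 1 ≤ c) : 1 ≤ cst v c := by
  unfold cst; split_ifs <;> simp [hc]

lemma cst_pos (v : AbsoluteValue K ℝ) {c : ℝ} (hc : 1 ≤ c) : 0 < cst v c :=
  lt_of_lt_of_le one_pos (one_le_cst v hc)

lemma cst_mono (v : AbsoluteValue K ℝ) {c c' : ℝ} (h : c ≤ c') : cst v c ≤ cst v c' := by
  unfold cst; split_ifs <;> simp [h]

lemma cst_mul (v : AbsoluteValue K ℝ) (c c' : ℝ) : cst v (c * c') = cst v c * cst v c' := by
  unfold cst; split_ifs <;> simp

lemma cst_pow (v : AbsoluteValue K ℝ) (c : ℝ) (n : ℕ) : cst v (c ^ n) = cst v c ^ n := by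
  unfold cst; split_ifs <;> simp

end basic

set_option linter.unusedSectionVars false

variable {K : Type} [Field K] [AdmissibleAbsValues K]

/-! ## finite support -/

lemma FS.zero : FS (K := K) (fun _ => 0) := by simp [FS]

lemma FS.mono {f g : AbsoluteValue K ℝ → ℝ} (hg : FS g)
    (h : ∀ v ∈ nonarchAbsVal (K := K), g v = 0 → f v = 0) : FS f := by
  refine Set.Finite.subset hg fun v hv hv' => hv (h v.val v.property hv')

lemma FS.add {f g : AbsoluteValue K ℝ → ℝ} (hf : FS f) (hg : FS g) : FS (fun v => f v + g v) := by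
  refine Set.Finite.subset (hf.union hg) fun v hv => ?_
  by_contra hc
  simp only [Set.mem_union, Function.mem_support, not_or, not_not] at hc
  exact hv (by simp [hc.1, hc.2])

lemma FS.neg {f : AbsoluteValue K ℝ → ℝ} (hf : FS f) : FS (fun v => - f v) :=
  hf.mono fun v _ h => by simp [h]

lemma FS.sub {f g : AbsoluteValue K ℝ → ℝ} (hf : FS f) (hg : FS g) : FS (fun v => f v - g v) := by
  simpa [sub_eq_add_neg] using hf.add hg.neg

lemma FS.const_mul {f : AbsoluteValue K ℝ → ℝ} (c : ℝ) (hf : FS f) : FS (fun v => c * f v) :=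
  hf.mono fun v _ h => by simp [h]

lemma FS.min {f g : AbsoluteValue K ℝ → ℝ} (hf : FS f) (hg : FS g) :
    FS (fun v => Min.min (f v) (g v)) := by
  refine Set.Finite.subset (hf.union hg) fun v hv => ?_
  by_contra hc
  simp only [Set.mem_union, Function.mem_support, not_or, not_not] at hc
  exact hv (by simp [hc.1, hc.2])

lemma FS.max {f g : AbsoluteValue K ℝ → ℝ} (hf : FS f) (hg : FS g) :
    FS (fun v => Max.max (f v) (g v)) := by
  refine Set.Finite.subset (hf.union hg) fun v hv => ?_
  by_contra hc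
  simp only [Set.mem_union, Function.mem_support, not_or, not_not] at hc
  exact hv (by simp [hc.1, hc.2])

lemma FS.sum {ι : Type*} (s : Finset ι) {f : ι → AbsoluteValue K ℝ → ℝ}
    (hf : ∀ i ∈ s, FS (f i)) : FS (fun v => ∑ i ∈ s, f i v) := by
  classical
  induction s using Finset.induction_on with
  | empty => simpa using FS.zero
  | insert i s hi ih =>
    have h1 := hf i (Finset.mem_insert_self i s)
    have h2 := ih fun j hj => hf j (Finset.mem_insert_of_mem hj)
    refine (h1.add h2).mono fun v _ h => ?_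
    rw [Finset.sum_insert hi]; exact h

lemma FS.sup' {ι : Type*} {s : Finset ι} (hs : s.Nonempty) {f : ι → AbsoluteValue K ℝ → ℝ}
    (hf : ∀ i ∈ s, FS (f i)) : FS (fun v => s.sup' hs (fun i => f i v)) := by
  have hfin : (⋃ i ∈ s, Function.support fun v : nonarchAbsVal (K := K) => f i v.val).Finite :=
    Set.Finite.biUnion s.finite_toSet hf
  refine hfin.subset fun v hv => ?_
  by_contra hc
  simp only [Set.mem_iUnion, Function.mem_support, not_exists, not_not] at hc
  refine hv ?_
  refine le_antisymm (Finset.sup'_le hs _ fun i hi => (hc i hi).le) ?_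
  obtain ⟨i, hi⟩ := hs
  exact (hc i hi).ge.trans (Finset.le_sup' (fun i => f i v.val) hi)

lemma FS_log {a : K} (ha : a ≠ 0) : FS (fun v => Real.log (v a)) := by
  have h := hasFiniteMulSupport (K := K) ha
  refine Set.Finite.subset h fun v hv => ?_
  simp only [Function.mem_support, ne_eq, Real.log_eq_zero, not_or] at hv
  simpa [Function.mulSupport] using hv.2.1

lemma FS_posLog (a : K) : FS (fun v => Real.posLog (v a)) := by
  rcases eq_or_ne a 0 with rfl | ha
  · simpa [Real.posLog] using FS.zero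
  · refine (FS_log ha).mono fun v _ h => ?_
    simp [Real.posLog, h]

lemma FS_log_Mv (a : K) : FS (fun v => Real.log (Mv v a)) := by
  simpa [log_Mv] using FS_posLog a

lemma FS_log_cst (c : ℝ) : FS (K := K) (fun v => Real.log (cst v c)) := by
  refine FS.zero.mono fun v hv _ => ?_
  simp [cst_of_nonarch (isNonarchimedean v hv)]

lemma log_max_one {t : ℝ} (ht : 0 ≤ t) : Real.log (max 1 t) = max 0 (Real.log t) := by
  rcases le_total t 1 with h | h
  · rw [max_eq_left h, Real.log_one, max_eq_left (Real.log_nonpos ht h)]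
  · rw [max_eq_right h, max_eq_right (Real.log_nonneg h)]

lemma FS_log_bet (W : Affine K) : FS (fun v => Real.log (bet W v)) := by
  have h : FS (fun v => Max.max (Real.posLog (v W.b₂)) (Max.max (Real.posLog (v W.b₄))
      (Max.max (Real.posLog (v W.b₆)) (Real.posLog (v W.b₈))))) :=
    (FS_posLog _).max ((FS_posLog _).max ((FS_posLog _).max (FS_posLog _)))
  refine h.mono fun v _ hv => ?_
  have hz : ∀ a : K, Real.posLog (v a) ≤ 0 → v a ≤ 1 := by
    intro a ha
    by_contra hc
    push Not at hc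
    have : 0 < Real.posLog (v a) := by
      rw [Real.posLog]
      exact lt_max_of_lt_right (Real.log_pos hc)
    linarith
  have h2 : v W.b₂ ≤ 1 := hz _ (by rw [← hv]; simp)
  have h4 : v W.b₄ ≤ 1 := hz _ (by rw [← hv]; simp)
  have h6 : v W.b₆ ≤ 1 := hz _ (by rw [← hv]; simp)
  have h8 : v W.b₈ ≤ 1 := hz _ (by rw [← hv]; simp)
  have : bet W v = 1 := by
    rw [bet]
    exact max_eq_left (max_le h2 (max_le h4 (max_le h6 h8)))
  simp [this]

lemma iSup_abv_pos {ι : Type*} [Finite ι] (v : AbsoluteValue K ℝ) {x : ι → K} (hx : x ≠ 0) :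
    0 < ⨆ i, v (x i) := by
  obtain ⟨i, hi⟩ := Function.ne_iff.mp hx
  exact lt_of_lt_of_le (v.pos hi) (le_ciSup (Set.finite_range fun i => v (x i)).bddAbove i)

lemma FS_log_iSup {ι : Type*} [Finite ι] {x : ι → K} (hx : x ≠ 0) :
    FS (fun v => Real.log (⨆ i, v (x i))) := by
  have hfin : (⋃ i ∈ {i | x i ≠ 0}, Function.support fun v : nonarchAbsVal (K := K) =>
      Real.log (v.val (x i))).Finite :=
    Set.Finite.biUnion (Set.toFinite _) fun i hi => FS_log hi
  refine hfin.subset fun v hv => ?_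
  by_contra hc
  simp only [Set.mem_iUnion, Set.mem_ofPred_eq, Function.mem_support, not_exists, not_not] at hc
  refine hv ?_
  have h1 : ∀ i, x i ≠ 0 → v.val (x i) = 1 := by
    intro i hi
    have := hc i hi
    rw [Real.log_eq_zero] at this
    have hp := v.val.pos hi
    rcases this with h | h | h <;> linarith
  obtain ⟨i, hi⟩ := Function.ne_iff.mp hx
  have : (⨆ i, v.val (x i)) = 1 := by
    have : Nonempty ι := ⟨i⟩
    refine le_antisymm (ciSup_le fun j => ?_) ?_
    · rcases eq_or_ne (x j) 0 with h | h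
      · simp [h]
      · exact (h1 j h).le
    · exact (h1 i hi).ge.trans (le_ciSup (Set.finite_range fun i => v.val (x i)).bddAbove i)
  simp [this]

/-! ## sums -/

lemma PS_zero : PS (K := K) (fun _ => 0) = 0 := by simp [PS]

lemma PS_add {f g : AbsoluteValue K ℝ → ℝ} (hf : FS f) (hg : FS g) :
    PS (fun v => f v + g v) = PS f + PS g := by
  unfold PS
  rw [finsum_add_distrib hf hg, Multiset.sum_map_add]
  ring

lemma PS_const_mul (c : ℝ) (f : AbsoluteValue K ℝ → ℝ) :
    PS (fun v => c * f v) = c * PS f := by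
  unfold PS
  rw [Multiset.sum_map_mul_left, ← mul_finsum, mul_add]

lemma PS_neg (f : AbsoluteValue K ℝ → ℝ) : PS (fun v => - f v) = - PS f := by
  simpa using PS_const_mul (-1) f

lemma PS_sub {f g : AbsoluteValue K ℝ → ℝ} (hf : FS f) (hg : FS g) :
    PS (fun v => f v - g v) = PS f - PS g := by
  have := PS_add hf hg.neg
  rw [PS_neg] at this
  simpa [sub_eq_add_neg] using this

lemma PS_sum {ι : Type*} (s : Finset ι) {f : ι → AbsoluteValue K ℝ → ℝ}
    (hf : ∀ i ∈ s, FS (f i)) : PS (fun v => ∑ i ∈ s, f i v) = ∑ i ∈ s, PS (f i) := by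
  classical
  induction s using Finset.induction_on with
  | empty => simpa using PS_zero
  | insert i s hi ih =>
    have h2 := ih fun j hj => hf j (Finset.mem_insert_of_mem hj)
    rw [Finset.sum_insert hi, ← h2, ← PS_add (hf i (Finset.mem_insert_self i s))
      (FS.sum s fun j hj => hf j (Finset.mem_insert_of_mem hj))]
    congr 1
    funext v
    rw [Finset.sum_insert hi]

/-- Monotonicity of `PS`. -/
lemma PS_mono {f g : AbsoluteValue K ℝ → ℝ} (hf : FS f) (hg : FS g) (h : ∀ v, f v ≤ g v) :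
    PS f ≤ PS g := by
  unfold PS
  refine add_le_add ?_ ?_
  · exact Multiset.sum_map_le_sum_map _ _ fun v _ => h v
  · exact finsum_le_finsum' hf hg fun v => h v.val

lemma PS_nonneg {f : AbsoluteValue K ℝ → ℝ} (hf : FS f) (h : ∀ v, 0 ≤ f v) : 0 ≤ PS f := by
  have := PS_mono FS.zero hf h
  rwa [PS_zero] at this

/-- The product formula. -/
lemma PS_log {a : K} (ha : a ≠ 0) : PS (fun v => Real.log (v a)) = 0 := by
  have hp := product_formula (K := K) ha
  have h1 : (archAbsVal.map (fun v : AbsoluteValue K ℝ => v a)).prod ≠ 0 := by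
    intro h
    rw [h, zero_mul] at hp
    exact zero_ne_one hp
  have h2 : (∏ᶠ v : nonarchAbsVal (K := K), v.val a) ≠ 0 := by
    intro h
    rw [h, mul_zero] at hp
    exact zero_ne_one hp
  have h3 := congrArg Real.log hp
  rw [Real.log_mul h1 h2, Real.log_one, Real.log_multiset_prod, Multiset.map_map,
    Real.log_finprod (fun v => v.val.pos ha)] at h3
  · exact h3
  · intro b hb
    obtain ⟨v, -, rfl⟩ := Multiset.mem_map.mp hb
    exact (v.pos ha).ne'

lemma PS_posLog (a : K) : PS (fun v => Real.posLog (v a)) = logHeight₁ a := by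
  rw [logHeight₁_eq]; rfl

lemma PS_log_Mv (a : K) : PS (fun v => Real.log (Mv v a)) = logHeight₁ a := by
  simpa [log_Mv] using PS_posLog a

lemma PS_log_iSup {ι : Type*} [Finite ι] {x : ι → K} (hx : x ≠ 0) :
    PS (fun v => Real.log (⨆ i, v (x i))) = logHeight x := by
  rw [logHeight_eq_log_mulHeight, mulHeight_eq hx]
  have H : mulHeight x ≠ 0 := mulHeight_ne_zero x
  rw [mulHeight_eq hx] at H
  rw [Real.log_mul (left_ne_zero_of_mul H) (right_ne_zero_of_mul H), Real.log_multiset_prod,
    Multiset.map_map, Real.log_finprod (f := fun v : nonarchAbsVal (K := K) => ⨆ i, v.val (x i))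
      (fun v => iSup_abv_pos v.val hx)]
  · rfl
  · intro b hb
    obtain ⟨v, -, rfl⟩ := Multiset.mem_map.mp hb
    exact (iSup_abv_pos v hx).ne'

lemma PS_log_cst {c : ℝ} (hc : 1 ≤ c) :
    PS (K := K) (fun v => Real.log (cst v c)) ≤ totalWeight K * Real.log c := by
  unfold PS
  have h1 : (∑ᶠ v : nonarchAbsVal (K := K), Real.log (cst v.val c)) = 0 := by
    refine finsum_eq_zero_of_forall_eq_zero fun v => ?_
    simp [cst_of_nonarch (isNonarchimedean v.val v.property)]
  rw [h1, add_zero]
  have h2 : ((archAbsVal (K := K)).map fun v => Real.log (cst v c)).sum ≤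
      ((archAbsVal (K := K)).map fun _ => Real.log c).sum := by
    refine Multiset.sum_map_le_sum_map _ _ fun v _ => ?_
    refine Real.log_le_log (cst_pos v hc) ?_
    unfold cst; split_ifs
    · exact hc
    · exact le_rfl
  refine h2.trans ?_
  simp [totalWeight]

/-! ## coefficients of polynomials -/

/-- the vector of coefficients -/
def cvec (k : ℕ) (F : K[X][Y]) : Fin (k + 1) × Fin (k + 1) → K :=
  fun ij => (F.coeff ij.2).coeff ij.1

lemma cvec_ne_zero {k : ℕ} {F : K[X][Y]} (hF : BD k F) (h0 : F ≠ 0) : cvec k F ≠ 0 := by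
  intro h
  apply h0
  ext j i
  by_cases hj : j ≤ k
  · by_cases hi : i ≤ k
    · have := congrFun h (⟨i, Nat.lt_succ_of_le hi⟩, ⟨j, Nat.lt_succ_of_le hj⟩)
      simpa [cvec] using this
    · have := hF.2 j
      rw [Polynomial.coeff_eq_zero_of_natDegree_lt (by omega)]
      simp
  · have := hF.1
    rw [Polynomial.coeff_eq_zero_of_natDegree_lt (p := F) (by omega)]
    simp

lemma cmax_pos {k : ℕ} {F : K[X][Y]} (hF : BD k F) (h0 : F ≠ 0) (v : AbsoluteValue K ℝ) :
    0 < cmax k F v := iSup_abv_pos v (cvec_ne_zero hF h0)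

lemma cmax_nonneg (k : ℕ) (F : K[X][Y]) (v : AbsoluteValue K ℝ) : 0 ≤ cmax k F v :=
  Real.iSup_nonneg fun _ => v.nonneg _

lemma FS_log_cmax {k : ℕ} {F : K[X][Y]} (hF : BD k F) (h0 : F ≠ 0) :
    FS (fun v => Real.log (cmax k F v)) := FS_log_iSup (cvec_ne_zero hF h0)

lemma PS_log_cmax {k : ℕ} {F : K[X][Y]} (hF : BD k F) (h0 : F ≠ 0) :
    PS (fun v => Real.log (cmax k F v)) = hp k F := PS_log_iSup (cvec_ne_zero hF h0)

/-! ## `gg` and `hx` -/

variable {W W₁ W₂ : Affine K}

lemma hx_nonneg (P : W.Point) : 0 ≤ hx P := zero_le_logHeight₁ _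

lemma hh_nonneg (z : W₁.Point × W₂.Point) : 0 ≤ hh z := add_nonneg (hx_nonneg _) (hx_nonneg _)

lemma lam_nonneg (v : AbsoluteValue K ℝ) (z : W₁.Point × W₂.Point) : 0 ≤ lam v z :=
  le_min Real.posLog_nonneg Real.posLog_nonneg

lemma FS_lam (z : W₁.Point × W₂.Point) : FS (fun v => lam v z) := (FS_posLog _).min (FS_posLog _)

lemma gg_nonneg (z : W₁.Point × W₂.Point) : 0 ≤ gg z := PS_nonneg (FS_lam z) fun v => lam_nonneg v z

lemma gg_le_left (z : W₁.Point × W₂.Point) : gg z ≤ hx z.1 := by
  rw [gg, hx, ← PS_posLog]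
  exact PS_mono (FS_lam z) (FS_posLog _) fun v => min_le_left _ _

lemma gg_le_right (z : W₁.Point × W₂.Point) : gg z ≤ hx z.2 := by
  rw [gg, hx, ← PS_posLog]
  exact PS_mono (FS_lam z) (FS_posLog _) fun v => min_le_right _ _

lemma log_min_Mv (v : AbsoluteValue K ℝ) (a b : K) :
    Real.log (Min.min (Mv v a) (Mv v b)) = Min.min (Real.posLog (v a)) (Real.posLog (v b)) := by
  rcases le_total (Mv v a) (Mv v b) with h | h
  · rw [min_eq_left h, min_eq_left, log_Mv]
    rw [← log_Mv, ← log_Mv]; exact Real.log_le_log (Mv_pos v a) h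
  · rw [min_eq_right h, min_eq_right, log_Mv]
    rw [← log_Mv, ← log_Mv]; exact Real.log_le_log (Mv_pos v b) h

end

end Pool.Agent.Helper29.BL
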