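import Pool.Agent.Helper29.BL.GoalsA
import Pool.Agent.Helper29.BL.PS
namespace Pool.Agent.Helper29.BL
open WeierstrassCurve Height Height.AdmissibleAbsValues Polynomial
open scoped Polynomial.Bivariate

section
variable {K : Type} [Field K]

/-- The triangle inequality, ultrametric if `v` is nonarchimedean. -/
lemma abv_sum_le (v : AbsoluteValue K ℝ) {ι : Type*} (s : Finset ι) (f : ι → K) {B : ℝ}
    (hB : 0 ≤ B) (h : ∀ i ∈ s, v (f i) ≤ B) {c : ℝ} (hc : (s.card : ℝ) ≤ c) :
    v (∑ i ∈ s, f i) ≤ cst v c * B := by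
  classical
  by_cases hv : IsNonarchimedean v
  · rw [cst_of_nonarch hv, one_mul]
    induction s using Finset.induction_on with
    | empty => simpa using hB
    | insert i s hi ih =>
      rw [Finset.sum_insert hi]
      refine (hv _ _).trans (max_le (h i (Finset.mem_insert_self i s)) (ih ?_ ?_))
      · exact fun j hj => h j (Finset.mem_insert_of_mem hj)
      · rw [Finset.card_insert_of_notMem hi] at hc
        push_cast at hc; linarith
  · rw [cst_of_not_nonarch hv]
    refine (v.sum_le s f).trans ((Finset.sum_le_card_nsmul s _ B h).trans ?_)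
    rw [nsmul_eq_mul]
    exact mul_le_mul_of_nonneg_right hc hB

lemma abv_add_le (v : AbsoluteValue K ℝ) (a b : K) {B : ℝ} (ha : v a ≤ B) (hb : v b ≤ B) :
    v (a + b) ≤ cst v 2 * B := by
  by_cases hv : IsNonarchimedean v
  · rw [cst_of_nonarch hv, one_mul]
    exact (hv _ _).trans (max_le ha hb)
  · rw [cst_of_not_nonarch hv]
    linarith [v.add_le a b]

lemma abv_neg (v : AbsoluteValue K ℝ) (a : K) : v (-a) = v a := v.map_neg a

lemma abv_sub_le (v : AbsoluteValue K ℝ) (a b : K) {B : ℝ} (ha : v a ≤ B) (hb : v b ≤ B) :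
    v (a - b) ≤ cst v 2 * B := by
  rw [sub_eq_add_neg]; exact abv_add_le v a (-b) ha (by rwa [abv_neg])

lemma le_Mv (v : AbsoluteValue K ℝ) (a : K) : v a ≤ Mv v a := le_max_right _ _

end

theorem rh : RH := by
  intro K _ _ d
  have hd1 : (1 : ℝ) ≤ d + 1 := by linarith [Nat.cast_nonneg (α := ℝ) d]
  refine ⟨totalWeight K * Real.log (d + 1), fun p η hp hdeg hη => ?_⟩
  set n := p.natDegree with hn
  set a := p.leadingCoeff with ha
  have ha0 : a ≠ 0 := leadingCoeff_ne_zero.mpr hp
  set x : Fin (d + 1) → K := fun j => p.coeff j with hxd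
  have hx0 : x ≠ 0 := by
    intro h
    have := congrFun h ⟨n, Nat.lt_succ_of_le hdeg⟩
    exact ha0 this
  have hle : ∀ (v : AbsoluteValue K ℝ) (j : ℕ), v (p.coeff j) ≤ ⨆ i, v (x i) := by
    intro v j
    by_cases hj : j ≤ d
    · exact le_ciSup (f := fun i => v (x i)) (Set.finite_range _).bddAbove
        (⟨j, Nat.lt_succ_of_le hj⟩ : Fin (d + 1))
    · rw [coeff_eq_zero_of_natDegree_lt (by omega), v.map_zero]
      exact (iSup_abv_pos v hx0).le
  have hloc : ∀ v : AbsoluteValue K ℝ, v a * Mv v η ≤ cst v (d + 1) * ⨆ i, v (x i) := by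
    intro v
    have hs := iSup_abv_pos v hx0
    have hc := one_le_cst v hd1
    rcases le_total (v η) 1 with h | h
    · have e : Mv v η = 1 := max_eq_left h
      rw [e, mul_one]
      have := hle v n
      have h2 : (⨆ i, v (x i)) ≤ cst v (d + 1) * ⨆ i, v (x i) := le_mul_of_one_le_left hs.le hc
      exact this.trans h2
    · have e : Mv v η = v η := max_eq_right h
      rw [e]
      have hn1 : n ≠ 0 := by
        intro h0
        rw [hn] at h0
        rw [eq_C_of_natDegree_eq_zero h0, eval_C] at hη
        rw [ha, leadingCoeff, h0] at ha0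
        exact ha0 hη
      obtain ⟨k, hk⟩ := Nat.exists_eq_succ_of_ne_zero hn1
      have hev : p.eval η = ∑ j ∈ Finset.range (n + 1), p.coeff j * η ^ j :=
        eval_eq_sum_range η
      rw [hη, Finset.sum_range_succ] at hev
      have e2 : p.coeff n * η ^ n = -∑ j ∈ Finset.range n, p.coeff j * η ^ j := by
        linear_combination -hev
      have h3 : v (∑ j ∈ Finset.range n, p.coeff j * η ^ j) ≤
          cst v (d + 1) * ((⨆ i, v (x i)) * v η ^ k) := by
        refine abv_sum_le v _ _ (by positivity) (fun j hj => ?_) ?_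
        · rw [v.map_mul, v.map_pow]
          have hj' : j ≤ k := by rw [Finset.mem_range] at hj; omega
          exact mul_le_mul (hle v j) (pow_le_pow_right₀ h hj') (by positivity) hs.le
        · rw [Finset.card_range]
          have : (n : ℝ) ≤ d := by exact_mod_cast hdeg
          linarith
      have h4 : v (p.coeff n * η ^ n) = v a * v η * v η ^ k := by
        rw [v.map_mul, v.map_pow, hk, Nat.succ_eq_add_one, pow_succ]
        have : v (p.coeff n) = v a := rfl
        rw [← this, hk]; ring
      rw [e2, abv_neg] at h4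
      rw [h4] at h3
      have hpos : 0 < v η ^ k := by positivity
      refine le_of_mul_le_mul_right ?_ hpos
      calc v a * v η * v η ^ k ≤ _ := h3
        _ = _ := by ring
  have hlog : ∀ v : AbsoluteValue K ℝ, Real.log (v a) + Real.posLog (v η) ≤
      Real.log (cst v (d + 1)) + Real.log (⨆ i, v (x i)) := by
    intro v
    rw [← log_Mv, ← Real.log_mul (v.pos ha0).ne' (Mv_pos v η).ne',
      ← Real.log_mul (cst_pos v hd1).ne' (iSup_abv_pos v hx0).ne']
    exact Real.log_le_log (mul_pos (v.pos ha0) (Mv_pos v η)) (hloc v)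
  have h := PS_mono ((FS_log ha0).add (FS_posLog η)) ((FS_log_cst (d + 1)).add (FS_log_iSup hx0))
    hlog
  rw [PS_add (FS_log ha0) (FS_posLog η), PS_log ha0, PS_posLog,
    PS_add (FS_log_cst (d + 1)) (FS_log_iSup hx0), PS_log_iSup hx0] at h
  have h4 := PS_log_cst (K := K) hd1
  linarith

end Pool.Agent.Helper29.BL
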