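import Pool.Agent.Helper29.BL.GoalsA
namespace Pool.Agent.Helper29.BL
open WeierstrassCurve Height Height.AdmissibleAbsValues Polynomial
open scoped Polynomial.Bivariate

theorem xeq : XEQ := by
  intro F _ _ W
  refine ⟨?_, ?_⟩
  · intro P Q hP hQ
    rcases P with _ | ⟨x₁, y₁, h₁⟩
    · exact absurd rfl hP
    rcases Q with _ | ⟨x₂, y₂, h₂⟩
    · exact absurd rfl hQ
    simpa [xc] using Affine.Point.X_eq_iff (h₁ := h₁) (h₂ := h₂)
  · intro P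
    rcases P with _ | ⟨x₁, y₁, h₁⟩
    · rfl
    · rw [Affine.Point.neg_some]; rfl

theorem add : ADD := by
  intro F _ _ W P Q hP hQ hPQ hPQ'
  have hx : xc P ≠ xc Q := by
    intro h
    rcases (xeq F W).1 P Q hP hQ |>.mp h with h | h
    · exact hPQ h
    · exact hPQ' h
  refine ⟨hx, ?_⟩
  rcases P with _ | ⟨x₁, y₁, h₁⟩
  · exact absurd rfl hP
  rcases Q with _ | ⟨x₂, y₂, h₂⟩
  · exact absurd rfl hQ
  simp only [xc] at hx
  have e₁ := (W.equation_iff x₁ y₁).mp h₁.1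
  have e₂ := (W.equation_iff x₂ y₂).mp h₂.1
  have hd : x₁ - x₂ ≠ 0 := sub_ne_zero.mpr hx
  rw [sub_eq_add_neg, Affine.Point.neg_some]
  rw [Affine.Point.add_of_X_ne hx, Affine.Point.add_of_X_ne hx]
  simp only [xc, Affine.slope_of_X_ne hx, Affine.addX, Uf, Tf, Sf, Affine.negY]
  set d := x₁ - x₂ with hdd
  constructor
  · have hxe : x₁ = d + x₂ := by rw [hdd]; ring
    field_simp
    simp only [WeierstrassCurve.b₂, WeierstrassCurve.b₄, WeierstrassCurve.b₆]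
    rw [hdd]
    linear_combination 2 * e₁ + 2 * e₂
  · have hN : ∀ s₁ s₂ : F, s₁ = y₁ ^ 2 + W.a₁ * x₁ * y₁ + W.a₃ * y₁ →
        s₂ = y₂ ^ 2 + W.a₁ * x₂ * y₂ + W.a₃ * y₂ →
        ((y₁ - y₂) * (y₁ - y₂ + d * W.a₁) - d ^ 2 * (W.a₂ + x₁ + x₂)) *
        ((y₁ - (-y₂ - W.a₁ * x₂ - W.a₃)) * (y₁ - (-y₂ - W.a₁ * x₂ - W.a₃) + d * W.a₁) -
          d ^ 2 * (W.a₂ + x₁ + x₂)) =
        (s₁ + s₂ - d ^ 2 * (W.a₂ + x₁ + x₂)) ^ 2 + (s₁ + s₂ - d ^ 2 * (W.a₂ + x₁ + x₂)) *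
          ((W.a₁ * x₁ + W.a₃) * (W.a₁ * x₂ + W.a₃)) - 4 * s₁ * s₂ - s₁ * (W.a₁ * x₂ + W.a₃) ^ 2 -
          s₂ * (W.a₁ * x₁ + W.a₃) ^ 2 := by
      rintro s₁ s₂ rfl rfl
      rw [hdd]; ring
    have hN' := hN _ _ e₁.symm e₂.symm
    have : ((y₁ - y₂) * (y₁ - y₂ + d * W.a₁) - d ^ 2 * (W.a₂ + x₁ + x₂)) *
        ((y₁ - (-y₂ - W.a₁ * x₂ - W.a₃)) * (y₁ - (-y₂ - W.a₁ * x₂ - W.a₃) + d * W.a₁) -
          d ^ 2 * (W.a₂ + x₁ + x₂)) = d ^ 2 * ((x₁ * x₂) ^ 2 - W.b₄ * (x₁ * x₂) -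
          W.b₆ * (x₁ + x₂) - W.b₈) := by
      rw [hN', hdd]
      simp only [WeierstrassCurve.b₄, WeierstrassCurve.b₆, WeierstrassCurve.b₈]
      ring
    have h4 : ((y₁ - y₂) / d) ^ 2 + W.a₁ * ((y₁ - y₂) / d) - W.a₂ - x₁ - x₂ =
        ((y₁ - y₂) * (y₁ - y₂ + d * W.a₁) - d ^ 2 * (W.a₂ + x₁ + x₂)) / d ^ 2 := by
      field_simp; ring
    have h5 : ((y₁ - (-y₂ - W.a₁ * x₂ - W.a₃)) / d) ^ 2 +
        W.a₁ * ((y₁ - (-y₂ - W.a₁ * x₂ - W.a₃)) / d) - W.a₂ - x₁ - x₂ =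
        ((y₁ - (-y₂ - W.a₁ * x₂ - W.a₃)) * (y₁ - (-y₂ - W.a₁ * x₂ - W.a₃) + d * W.a₁) -
          d ^ 2 * (W.a₂ + x₁ + x₂)) / d ^ 2 := by
      field_simp; ring
    rw [h4, h5, div_mul_div_comm, this]
    field_simp

theorem dbl : DBL := by
  intro F _ _ W P hP
  rcases P with _ | ⟨x, y, h⟩
  · exact absurd rfl hP
  have e := (W.equation_iff x y).mp h.1
  have hB : Bf W x = (2 * y + W.a₁ * x + W.a₃) ^ 2 := by
    simp only [Bf, WeierstrassCurve.b₂, WeierstrassCurve.b₄, WeierstrassCurve.b₆]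
    linear_combination (-4) * e
  by_cases hy : y = W.negY x y
  · have h0 : Affine.Point.some x y h + Affine.Point.some x y h = 0 :=
      Affine.Point.add_self_of_Y_eq hy
    have hB0 : Bf W x = 0 := by
      rw [hB]
      have : 2 * y + W.a₁ * x + W.a₃ = 0 := by
        rw [Affine.negY] at hy; linear_combination hy
      rw [this]; ring
    exact ⟨fun _ => hB0, fun h1 => absurd h0 h1⟩
  · have hη : 2 * y + W.a₁ * x + W.a₃ ≠ 0 := by
      intro h0; apply hy; rw [Affine.negY]; linear_combination h0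
    have hsum := Affine.Point.add_self_of_Y_ne (h₁ := h) hy
    have hne : Affine.Point.some x y h + Affine.Point.some x y h ≠ 0 := by
      rw [hsum]; exact Affine.Point.some_ne_zero _
    refine ⟨fun h1 => absurd h1 hne, fun _ => ⟨?_, ?_⟩⟩
    · change Bf W x ≠ 0
      rw [hB]; exact pow_ne_zero 2 hη
    · rw [hsum]
      change Bf W x * _ = Af W x
      simp only [xc, Affine.slope_of_Y_ne rfl hy, Affine.addX, Affine.negY]
      have hd : y - (-y - W.a₁ * x - W.a₃) = 2 * y + W.a₁ * x + W.a₃ := by ring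
      rw [hB, hd]
      set η := 2 * y + W.a₁ * x + W.a₃ with hηd
      have : η ^ 2 * (((3 * x ^ 2 + 2 * W.a₂ * x + W.a₄ - W.a₁ * y) / η) ^ 2 +
          W.a₁ * ((3 * x ^ 2 + 2 * W.a₂ * x + W.a₄ - W.a₁ * y) / η) - W.a₂ - x - x) =
          (3 * x ^ 2 + 2 * W.a₂ * x + W.a₄ - W.a₁ * y) ^ 2 +
          W.a₁ * (3 * x ^ 2 + 2 * W.a₂ * x + W.a₄ - W.a₁ * y) * η - (W.a₂ + 2 * x) * η ^ 2 := by
        field_simp; ring
      rw [this, hηd]
      simp only [Af, WeierstrassCurve.b₄, WeierstrassCurve.b₆, WeierstrassCurve.b₈]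
      linear_combination (-W.a₁ ^ 2 - 4 * W.a₂ - 8 * x) * e

theorem quadr : QUADR := by
  intro F _ _ W P Q hP hQ hPQ
  have hne : P ≠ -Q := by
    intro h; apply hPQ; rw [h]; simp
  by_cases h : P = Q
  · subst h
    obtain ⟨-, h2⟩ := dbl F W P hP
    obtain ⟨h3, h4⟩ := h2 hPQ
    have hU : Uf (xc P) (xc P) = 0 := by simp [Uf]
    have hT : Tf W (xc P) (xc P) = Bf W (xc P) := by simp only [Tf, Bf]; ring
    have hS : Sf W (xc P) (xc P) = Af W (xc P) := by simp only [Sf, Af]; ring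
    rw [hU, hT, hS]
    exact ⟨by linear_combination (-1 : F) * h4, fun _ => h3⟩
  · obtain ⟨h1, h2, h3⟩ := add F W P Q hP hQ h hne
    have hU : Uf (xc Q) (xc P) ≠ 0 := by
      simp only [Uf]; exact pow_ne_zero 2 (sub_ne_zero.mpr h1)
    refine ⟨?_, fun h0 => absurd h0 hU⟩
    linear_combination xc (P + Q) * h2 - h3

end Pool.Agent.Helper29.BL
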