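import Pool.Agent.Helper29.BL.GoalsA
namespace Pool.Agent.Helper29.BL
open WeierstrassCurve Height Height.AdmissibleAbsValues Polynomial
open scoped Polynomial.Bivariate

section
variable {G : Type} [AddCommGroup G] {H : G → ℝ}

lemma IsQuad.zero (h : IsQuad H) : H 0 = 0 := by
  have := h.par 0 0
  simp at this; linarith

lemma IsQuad.neg (h : IsQuad H) (x : G) : H (-x) = H x := by
  have := h.par 0 x
  rw [zero_add, zero_sub, h.zero] at this; linarith

/-- the polar form -/
def polar' (H : G → ℝ) (x y : G) : ℝ := H (x + y) - H x - H y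

lemma IsQuad.polar_add (h : IsQuad H) (x y z : G) :
    polar' H (x + y) z = polar' H x z + polar' H y z := by
  have h1 := h.par (x + z) y
  have h2 := h.par x (y - z)
  have h3 := h.par (x + y) z
  have h4 := h.par y z
  have e1 : x + z + y = x + y + z := by abel
  have e2 : x + z - y = x - (y - z) := by abel
  have e3 : x + (y - z) = x + y - z := by abel
  rw [e1, e2] at h1
  rw [e3] at h2
  simp only [polar']
  linarith

lemma IsQuad.polar_comm (x y : G) : polar' H x y = polar' H y x := by
  simp only [polar', add_comm]; ring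

/-- the polar form as a homomorphism in the first variable -/
def IsQuad.polarHom (h : IsQuad H) (z : G) : G →+ ℝ :=
  AddMonoidHom.mk' (fun x => polar' H x z) fun x y => h.polar_add x y z

lemma IsQuad.polar_zsmul (h : IsQuad H) (m n : ℤ) (x y : G) :
    polar' H (m • x) (n • y) = (m * n : ℝ) * polar' H x y := by
  have e1 : ∀ (m : ℤ) (x y : G), polar' H (m • x) y = (m : ℝ) * polar' H x y := by
    intro m x y
    have := map_zsmul (h.polarHom y) m x
    simpa [IsQuad.polarHom] using this
  rw [e1, IsQuad.polar_comm, e1, IsQuad.polar_comm]; ring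

lemma IsQuad.polar_self (h : IsQuad H) (x : G) : polar' H x x = 2 * H x := by
  have := h.par x x
  rw [sub_self, h.zero] at this
  simp only [polar']; linarith

lemma IsQuad.zsmul (h : IsQuad H) (n : ℤ) (x : G) : H (n • x) = (n : ℝ) ^ 2 * H x := by
  have h1 := h.polar_zsmul n n x x
  rw [h.polar_self, h.polar_self] at h1
  linarith

lemma IsQuad.nsmul (h : IsQuad H) (n : ℕ) (x : G) : H (n • x) = (n : ℝ) ^ 2 * H x := by
  have := h.zsmul n x
  simpa using this

lemma IsQuad.form (h : IsQuad H) (m n : ℤ) (x y : G) :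
    H (m • x + n • y) = (m : ℝ) ^ 2 * H x + (n : ℝ) ^ 2 * H y + (m * n : ℝ) * polar' H x y := by
  have h1 := h.polar_zsmul m n x y
  have h2 := h.zsmul m x
  have h3 := h.zsmul n y
  have : polar' H (m • x) (n • y) = H (m • x + n • y) - H (m • x) - H (n • y) := rfl
  linarith

lemma IsQuad.real_form (h : IsQuad H) (x y : G) (t : ℝ) :
    0 ≤ H x * (t * t) + polar' H x y * t + H y := by
  have hcl : IsClosed {t : ℝ | 0 ≤ H x * (t * t) + polar' H x y * t + H y} :=
    isClosed_le continuous_const (by fun_prop)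
  refine Rat.denseRange_cast.induction_on (p := fun t : ℝ =>
    0 ≤ H x * (t * t) + polar' H x y * t + H y) t hcl ?_
  intro q
  have h1 := h.nonneg (q.num • x + (q.den : ℤ) • y)
  rw [h.form] at h1
  have hd : (0 : ℝ) < q.den := by exact_mod_cast q.den_pos
  have hq : (q : ℝ) = q.num / q.den := by
    exact_mod_cast (Rat.num_div_den q).symm
  rw [hq]
  have : H x * ((q.num : ℝ) / q.den * (q.num / q.den)) + polar' H x y * (q.num / q.den) + H y =
      ((q.num : ℝ) ^ 2 * H x + ((q.den : ℤ) : ℝ) ^ 2 * H y +
        ((q.num : ℝ) * ((q.den : ℤ) : ℝ)) * polar' H x y) / (q.den : ℝ) ^ 2 := by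
    push_cast
    field_simp
    ring
  rw [this]
  positivity

lemma IsQuad.cauchy (h : IsQuad H) (x y : G) : polar' H x y ^ 2 ≤ 4 * H x * H y := by
  have := discrim_le_zero (h.real_form x y)
  rw [discrim] at this; linarith

lemma IsQuad.triangle (h : IsQuad H) (x y : G) : √(H (x + y)) ≤ √(H x) + √(H y) := by
  have hx := h.nonneg x
  have hy := h.nonneg y
  rw [Real.sqrt_le_left (by positivity)]
  have h1 : H (x + y) = H x + H y + polar' H x y := by simp only [polar']; ring
  have h2 : polar' H x y ≤ 2 * (√(H x) * √(H y)) := by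
    refine le_of_sq_le_sq ?_ (by positivity)
    have e : (2 * (√(H x) * √(H y))) ^ 2 = 4 * H x * H y := by
      rw [mul_pow, mul_pow, Real.sq_sqrt hx, Real.sq_sqrt hy]; ring
    rw [e]; exact h.cauchy x y
  have h3 : (√(H x) + √(H y)) ^ 2 = H x + H y + 2 * (√(H x) * √(H y)) := by
    rw [add_sq, Real.sq_sqrt hx, Real.sq_sqrt hy]; ring
  rw [h1, h3]; linarith

end

theorem qsn : QSN := fun G _ H h =>
  ⟨h.zero, h.neg, fun n x => h.zsmul n x, h.triangle⟩

end Pool.Agent.Helper29.BL
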