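import Pool.Agent.Helper29.BL.GoalsA
import Pool.Agent.Helper29.BL.PS
namespace Pool.Agent.Helper29.BL
open WeierstrassCurve Height Height.AdmissibleAbsValues Polynomial
open scoped Polynomial.Bivariate

open Filter Topology in
theorem can_of : PAR → CAN := by
  intro hpar K _ _ _ W _
  obtain ⟨C, hC⟩ := hpar K W
  have hC0 : 0 ≤ C := (abs_nonneg _).trans (hC 0 0)
  have h0 : hx (0 : W.Point) = 0 := by simp [hx]
  set a : W.Point → ℕ → ℝ := fun P n => hx (2 ^ n • P) / 4 ^ n with ha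
  have hstep : ∀ P n, dist (a P n) (a P (n + 1)) ≤ (C / 4) * (1 / 4) ^ n := by
    intro P n
    have h := hC (2 ^ n • P) (2 ^ n • P)
    rw [sub_self, h0, add_zero] at h
    have e : 2 ^ n • P + 2 ^ n • P = 2 ^ (n + 1) • P := by
      rw [pow_succ, mul_comm, mul_smul, two_nsmul]
    rw [e] at h
    rw [Real.dist_eq, abs_sub_comm]
    simp only [ha]
    have e2 : hx (2 ^ (n + 1) • P) / 4 ^ (n + 1) - hx (2 ^ n • P) / 4 ^ n =
        (hx (2 ^ (n + 1) • P) - 2 * hx (2 ^ n • P) - 2 * hx (2 ^ n • P)) / 4 ^ (n + 1) := by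
      rw [pow_succ]; field_simp; ring
    rw [e2, abs_div, abs_of_pos (show (0 : ℝ) < 4 ^ (n + 1) by positivity), div_le_iff₀ (by positivity)]
    refine h.trans (le_of_eq ?_)
    rw [one_div, inv_pow, pow_succ]
    field_simp
  have hcau : ∀ P, CauchySeq (a P) := fun P =>
    cauchySeq_of_le_geometric (1 / 4) (C / 4) (by norm_num) (hstep P)
  choose H hH using fun P => cauchySeq_tendsto_of_complete (hcau P)
  refine ⟨H, C / 4 / (1 - 1 / 4), ⟨⟨?_, ?_⟩, ?_⟩⟩
  · intro P
    refine ge_of_tendsto' (hH P) fun n => ?_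
    exact div_nonneg (hx_nonneg _) (by positivity)
  · intro P Q
    have h1 := ((hH (P + Q)).add (hH (P - Q))).sub (((hH P).const_mul 2).add ((hH Q).const_mul 2))
    have h2 : Tendsto (fun n : ℕ => C / 4 ^ n) atTop (𝓝 0) := by
      have := (tendsto_pow_atTop_nhds_zero_of_lt_one (r := (1 / 4 : ℝ)) (by norm_num)
        (by norm_num)).const_mul C
      simpa [div_eq_mul_inv] using this
    have h3 : Tendsto (fun n => a (P + Q) n + a (P - Q) n - (2 * a P n + 2 * a Q n)) atTop (𝓝 0) := by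
      refine squeeze_zero_norm (fun n => ?_) h2
      have h := hC (2 ^ n • P) (2 ^ n • Q)
      rw [← smul_add, ← smul_sub] at h
      simp only [ha, Real.norm_eq_abs]
      have e : hx (2 ^ n • (P + Q)) / 4 ^ n + hx (2 ^ n • (P - Q)) / 4 ^ n -
          (2 * (hx (2 ^ n • P) / 4 ^ n) + 2 * (hx (2 ^ n • Q) / 4 ^ n)) =
          (hx (2 ^ n • (P + Q)) + hx (2 ^ n • (P - Q)) - 2 * hx (2 ^ n • P) -
            2 * hx (2 ^ n • Q)) / 4 ^ n := by ring
      rw [e, abs_div, abs_of_pos (show (0 : ℝ) < 4 ^ n by positivity)]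
      gcongr
    have := tendsto_nhds_unique h1 h3
    linarith
  · intro P
    have h := dist_le_of_le_geometric_of_tendsto₀ (1 / 4) (C / 4) (by norm_num) (hstep P) (hH P)
    have e : a P 0 = hx P := by simp [ha]
    rw [e, Real.dist_eq, abs_sub_comm] at h
    exact h

end Pool.Agent.Helper29.BL
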