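import Pool.Agent.Helper29.BL.GoalsA
import Pool.Agent.Helper29.BL.PS
namespace Pool.Agent.Helper29.BL
open WeierstrassCurve Height Height.AdmissibleAbsValues Polynomial
open scoped Polynomial.Bivariate

lemma addSub_eval {R : Type} [CommRing R] (W : WeierstrassCurve R) (s t u : R) :
    (fun i => (addSubMap W i).eval ![s, t, u]) =
      ![s ^ 2 - W.b₄ * s * u - W.b₆ * t * u - W.b₈ * u ^ 2,
        2 * t * s + W.b₂ * s * u + W.b₄ * t * u + W.b₆ * u ^ 2, t ^ 2 - 4 * s * u] := by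
  ext i
  fin_cases i <;> simp [addSubMap]

lemma addSub_some {F : Type} [Field F] (W : WeierstrassCurve F) (x x' : F) :
    (fun i => (addSubMap W i).eval ![x * x', x + x', 1]) =
      ![Sf W x' x, Tf W x' x, Uf x' x] := by
  rw [addSub_eval]
  ext i
  fin_cases i <;> simp [Sf, Tf, Uf] <;> ring

lemma addSub_correct (ha : ADD) (hd : DBL) (hxe : XEQ) (F : Type) [Field F] [DecidableEq F]
    (W : Affine F) [W.IsElliptic] (P Q : W.Point) :
    ∃ c : F, c ≠ 0 ∧ (fun i => (addSubMap W i).eval (P.sym2x Q)) = c • (P + Q).sym2x (P - Q) := by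
  by_cases hP : P = 0
  · subst hP
    rcases Q with _ | ⟨x, y, h⟩
    · refine ⟨1, one_ne_zero, ?_⟩
      change (fun i => (addSubMap W i).eval ((0 : W.Point).sym2x 0)) =
        (1 : F) • (0 + 0 : W.Point).sym2x (0 - 0)
      rw [zero_add, sub_zero, Affine.Point.sym2x_zero_zero, addSub_eval]
      ext i; fin_cases i <;> simp
    · refine ⟨1, one_ne_zero, ?_⟩
      rw [zero_add, zero_sub, Affine.Point.sym2x_neg_right, Affine.Point.sym2x_zero_some,
        Affine.Point.sym2x_some_some, addSub_eval]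
      ext i; fin_cases i <;> simp <;> ring
  by_cases hQ : Q = 0
  · subst hQ
    rcases P with _ | ⟨x, y, h⟩
    · exact absurd rfl hP
    · refine ⟨1, one_ne_zero, ?_⟩
      rw [add_zero, sub_zero, Affine.Point.sym2x_some_zero,
        Affine.Point.sym2x_some_some, addSub_eval]
      ext i; fin_cases i <;> simp <;> ring
  have hsym : ∀ (P Q : W.Point), P ≠ 0 → Q ≠ 0 → P.sym2x Q = ![xc P * xc Q, xc P + xc Q, 1] := by
    intro P Q hP hQ
    rcases P with _ | ⟨x, y, h⟩
    · exact absurd rfl hP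
    rcases Q with _ | ⟨x', y', h'⟩
    · exact absurd rfl hQ
    exact Affine.Point.sym2x_some_some h h'
  have hsym0 : ∀ (P : W.Point), P ≠ 0 → (0 : W.Point).sym2x P = ![xc P, 1, 0] := by
    intro P hP
    rcases P with _ | ⟨x, y, h⟩
    · exact absurd rfl hP
    exact Affine.Point.sym2x_zero_some h
  have hU0 : ∀ x : F, Uf x x = 0 := fun x => by simp [Uf]
  have hT0 : ∀ x : F, Tf W x x = Bf W x := fun x => by simp only [Tf, Bf]; ring
  have hS0 : ∀ x : F, Sf W x x = Af W x := fun x => by simp only [Sf, Af]; ring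
  -- the common computation for `P = ± Q`
  have hdouble : ∀ (R : W.Point), R ≠ 0 → ∃ c : F, c ≠ 0 ∧
      ![Af W (xc R), Bf W (xc R), 0] = c • (0 : W.Point).sym2x (R + R) := by
    intro R hR
    obtain ⟨h1, h2⟩ := hd F W R hR
    by_cases h0 : R + R = 0
    · have hB := h1 h0
      refine ⟨Af W (xc R), ?_, ?_⟩
      · intro hA
        have hne := addSubMap_ne_zero W (x := ![xc R * xc R, xc R + xc R, 1]) (by
          intro h; simpa using congrFun h 2)
        rw [addSub_some, hU0, hT0, hS0, hA, hB] at hne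
        apply hne
        ext i; fin_cases i <;> rfl
      · rw [h0, Affine.Point.sym2x_zero_zero, hB]
        ext i; fin_cases i <;> simp
    · obtain ⟨h3, h4⟩ := h2 h0
      refine ⟨Bf W (xc R), h3, ?_⟩
      rw [hsym0 _ h0, ← h4]
      ext i; fin_cases i <;> simp
  by_cases hPQ : P = Q
  · subst hPQ
    obtain ⟨c, hc, e⟩ := hdouble P hP
    refine ⟨c, hc, ?_⟩
    rw [sub_self, Affine.Point.sym2x_comm (P + P) 0, ← e, hsym P P hP hP, addSub_some, hU0, hT0,
      hS0]
  by_cases hPQ' : P = -Q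
  · obtain ⟨c, hc, e⟩ := hdouble P hP
    have hQP : Q = -P := by rw [hPQ']; simp
    refine ⟨c, hc, ?_⟩
    have hxx : xc Q = xc P := by rw [hQP]; exact (hxe F W).2 P
    rw [hsym P Q hP hQ, hxx, addSub_some, hU0, hT0, hS0, e]
    congr 1
    rw [hQP]; simp
  obtain ⟨h1, h2, h3⟩ := ha F W P Q hP hQ hPQ hPQ'
  have hUne : Uf (xc Q) (xc P) ≠ 0 := by
    simp only [Uf]; exact pow_ne_zero 2 (sub_ne_zero.mpr h1)
  refine ⟨Uf (xc Q) (xc P), hUne, ?_⟩
  have hs : P + Q ≠ 0 := fun h => hPQ' (eq_neg_of_add_eq_zero_left h)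
  have hs' : P - Q ≠ 0 := fun h => hPQ (sub_eq_zero.mp h)
  rw [hsym P Q hP hQ, addSub_some, hsym _ _ hs hs', ← h2, ← h3]
  ext i; fin_cases i <;> simp

theorem par_of : ADD → DBL → XEQ → PAR := by
  intro ha hd hxe K _ _ _ W _
  obtain ⟨C₁, h₁⟩ := abs_logHeight_addSubMap_sub_two_mul_logHeight_le W
  obtain ⟨C₂, h₂⟩ := abs_logHeight_sym2_sub_le K
  have hrep : ∀ P : W.Point, logHeight P.xRep = hx P := by
    intro P
    rcases P with _ | ⟨x, y, h⟩
    · change logHeight ((0 : W.Point).xRep) = hx (0 : W.Point)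
      rw [Affine.Point.xRep_zero, logHeight_swap, ← logHeight₁_eq_logHeight]
      simp [hx]
    · rw [Affine.Point.xRep_some, ← logHeight₁_eq_logHeight]; rfl
  have hsym : ∀ P Q : W.Point, |logHeight (P.sym2x Q) - (hx P + hx Q)| ≤ C₂ := by
    intro P Q
    have e1 : ∀ P : W.Point, ![P.xRep 0, P.xRep 1] = P.xRep := by
      intro P; ext i; fin_cases i <;> rfl
    have := h₂ (a := P.xRep 0) (b := P.xRep 1) (c := Q.xRep 0) (d := Q.xRep 1)
      (by rw [e1]; exact Affine.Point.xRep_ne_zero P) (by rw [e1]; exact Affine.Point.xRep_ne_zero Q)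
    rw [e1, e1, hrep, hrep] at this
    exact this
  refine ⟨C₁ + 3 * C₂, fun P Q => ?_⟩
  obtain ⟨c, hc, e⟩ := addSub_correct ha hd hxe K W P Q
  have h3 := h₁ (P.sym2x Q)
  rw [e, logHeight_smul_eq_logHeight _ hc] at h3
  have h4 := hsym P Q
  have h5 := hsym (P + Q) (P - Q)
  rw [abs_le] at *
  constructor <;> linarith [h3.1, h3.2, h4.1, h4.2, h5.1, h5.2]

end Pool.Agent.Helper29.BL
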