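import Pool.Agent.Helper29.BL.Defs

/-!
# Project BL, goals B: plane algebra, translates, elimination heights
-/

namespace Pool.Agent.Helper29.BL

open WeierstrassCurve Height Height.AdmissibleAbsValues Polynomial
open scoped Polynomial.Bivariate

noncomputable section

/-! ## Plane algebra over a field -/

/-- BZ. Two polynomials of `BD(m)` without common factor have at most `2m³` common zeros.
Proof. (`m = 0`: constants.) If `F = 0` or `G = 0` the other one is a unit. Let `R ∈ k[X]` be the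
resultant with respect to `Y` (formal degrees the `natDegree`s, if one of them is positive;
otherwise `F, G ∈ k[X]` are coprime and have no common root): `deg R ≤ 2m²` (Sylvester matrix of
size `≤ 2m` with entries of degree `≤ m`), `R ≠ 0` (Gauss: `F, G` are coprime in `k(X)[Y]`;
`Polynomial.resultant_eq_zero_iff`, `resultant_map_map`), and `R(ξ) = 0` for every common zero
`(ξ,η)` (`exists_mul_add_mul_eq_C_resultant`). For each `ξ` one of `F(ξ,Y)`, `G(ξ,Y)` is not zero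
(otherwise `X - ξ` divides both), so at most `m` values of `η`. -/
def BZ : Prop := ∀ (k : Type) [Field k] (m : ℕ) (F G : k[X][Y]), BD m F → BD m G →
  IsRelPrime F G → ∀ s : Finset (k × k), (∀ p ∈ s, ev F p = 0 ∧ ev G p = 0) → s.card ≤ 2 * m ^ 3

/-- LS. The base locus of a linear system. `V ≠ 0` a subspace of `BD(m)`: there is `D ≠ 0` in `BD(m)`
(the gcd of `V`), dividing all elements of `V`, such that at most `2m³` common zeros of `V` are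
not zeros of `D`.
Proof. `V = D V'` (gcd in the UFD `k[X][Y]`, e.g. take `D` a common divisor of maximal total degree).
Take `0 ≠ G ∈ V'`, with irreducible factors `φ_1..φ_r`; for every `i` the subspace of the elements of
`V'` divisible by `φ_i` is proper (else `D φ_i` is a bigger common divisor); `k` is infinite, so some
`H ∈ V'` lies in none of these finitely many proper subspaces
(`Subspace.biUnion_ne_univ_of_top_nmem`); `G`, `H` are relatively prime: apply BZ. -/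
def LS : Prop := ∀ (k : Type) [Field k] [Infinite k] (m : ℕ) (V : Submodule k k[X][Y]), V ≠ ⊥ →
  (∀ F ∈ V, BD m F) → ∃ D : k[X][Y], D ≠ 0 ∧ BD m D ∧ (∀ F ∈ V, D ∣ F) ∧
    ∀ s : Finset (k × k), (∀ p ∈ s, (∀ F ∈ V, ev F p = 0) ∧ ev D p ≠ 0) → s.card ≤ 2 * m ^ 3

open Classical in
/-- SL. One curve through `w` contains a positive proportion of `Ξ`.
`m = ⌈8/τ⌉`, `M₀ = ⌈8m/τ⌉`, `c = τ/(8m)`, `n = |Ξ|` large.
(i) Choose greedily non-associated irreducible `Φ_1,..,Φ_a` in `BD(m)` with `Φ_j(w) ≠ 0`, each with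
`≥ M₀` zeros in `Ξ` which are not zeros of the earlier ones, `a` maximal; `a ≤ n/M₀`; `Ξ'` the
points of `Ξ` on none of them.
(ii) Choose greedily disjoint `U_1..U_b ⊂ Ξ'`, `|U_j| = m²`, with `G_j ∈ BD(m)`, `G_j|U_j = 0`,
`G_j(w) ≠ 0`, `b` maximal; `b ≤ n/m²`; `Ξ₁` the rest of `Ξ'`.
`F = ∏Φ_j ∏G_j ∏_{p∈Ξ₁}(X-p₁)` is in `BD(am+bm+|Ξ₁|)`, vanishes on `Ξ` and not at `w`: by `IP`
`τ n ≤ am+bm+|Ξ₁|+1 ≤ τn/8+τn/8+|Ξ₁|+1`, so `|Ξ₁| ≥ τn/2` for `n ≥ 4/τ`.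
(iii) For every `U ⊂ Ξ₁` with `m²` elements every `G ∈ BD(m)` vanishing on `U` vanishes at `w`, i.e.
the evaluation functional `e(w)` on `BD(m)` is in `span e(U)`. If `Ξ₁` contained `m²+1` points with
independent `e(p)`, then expressing `e(w)` in each of the `m²`-subsets shows that all coefficients
of `e(w)` vanish, but `e(w) ≠ 0` (constant polynomial `1`). So `V = {G ∈ BD(m) : G|Ξ₁ = 0}` has
dimension `≥ (m+1)² - m² > 0`, and all `G ∈ V` vanish at `w` (as `m² ≤ |Ξ₁|`). `D` of LS: if `D(w) ≠ 0`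
... `D` has at most `2m` irreducible factors (`deg_X + deg_Y ≤ 2m`), all in `BD(m)`; at most `2m³`
points of `Ξ₁` are not on `D = 0`; a factor not through `w` has `< M₀` zeros in `Ξ'` (maximality);
so the factors through `w` contain `≥ |Ξ₁| - 2m³ - 2mM₀ ≥ τn/4` points of `Ξ₁` (`n` large), one of
them `≥ τn/(8m)`. (In particular there is a factor through `w`.) Assume BZ, LS. -/
def SL : Prop := ∀ τ : ℝ, 0 < τ → τ ≤ 1 → ∃ (m : ℕ) (c : ℝ) (R : ℕ), 0 < c ∧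
  ∀ (k : Type) [Field k] [Infinite k] (w : k × k) (Ξ : Finset (k × k)),
    (∀ p ∈ Ξ, p.1 ≠ w.1) → IP τ w Ξ → R ≤ Ξ.card →
    ∃ Φ : k[X][Y], Irreducible Φ ∧ BD m Φ ∧ ev Φ w = 0 ∧
      c * (Ξ.card : ℝ) ≤ ((Ξ.filter (fun p => ev Φ p = 0)).card : ℝ)

open Classical in
/-- ST. All but a bounded number of points of `Ξ` lie on a bounded number of curves through `w`.
`t = ⌊2/c⌋+1`, `B = 2m³`, `M₂ > tB(1+ct/2)`, `M₂ ≥ R`, `R' = max(R, ⌈M₂/c⌉)`. Take the set `𝒫` of all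
(up to units) irreducible `Φ ∈ BD(m)` with `Φ(w)=0` and `≥ M₂` zeros in `Ξ`. If more than `R'` points
of `Ξ` are on none of them, SL for the set of these points (`IP` is inherited by subsets) gives
one more: contradiction. `|𝒫| < t`: otherwise take `t` of them and `M₂` zeros in `Ξ` on each, union
`Ξ''`, `|Ξ''| ≥ tM₂ - t²B/2` (BZ for the pairwise intersections), `≥ R`; by SL some irreducible
`Φ ∈ BD(m)` has `≥ c|Ξ''|` zeros in `Ξ''`, but every irreducible `Φ ∈ BD(m)` has `≤ M₂+tB` zeros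
there (BZ). So `ctM₂ - ct²B/2 ≤ M₂+tB`, and `ct ≥ 2` gives `M₂ ≤ tB+ct²B/2`: contradiction.
Assume BZ, SL. -/
def ST : Prop := ∀ τ : ℝ, 0 < τ → τ ≤ 1 → ∃ (m t₀ R' : ℕ),
  ∀ (k : Type) [Field k] [Infinite k] (w : k × k) (Ξ : Finset (k × k)),
    (∀ p ∈ Ξ, p.1 ≠ w.1) → IP τ w Ξ →
    ∃ P : Finset k[X][Y], P.card ≤ t₀ ∧ (∀ Φ ∈ P, Irreducible Φ ∧ BD m Φ ∧ ev Φ w = 0) ∧
      (Ξ.filter (fun p => ∀ Φ ∈ P, ev Φ p ≠ 0)).card ≤ R'

/-! ## The translate forms -/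

/-- TDEG. `Tr` has degree `≤ 8m` in `X` and `Y` (each entry of the `4 × 4` matrix has degree `≤ 2m`:
`U, T, S` have degree `≤ 2`). -/
def TDEG : Prop := ∀ (R : Type) [CommRing R] (W₁ W₂ : WeierstrassCurve R) (m : ℕ) (F : R[X][Y])
  (c₁ c₂ : R), BD m F → BD (8 * m) (Tr W₁ W₂ m F c₁ c₂)

/-- TMAP. Compatibility with ring homomorphisms, symmetry, and values of `Tr`
(also after base change `f : R → R'`). -/
def TMAP : Prop :=
  (∀ (R R' : Type) [CommRing R] [CommRing R'] (f : R →+* R') (W₁ W₂ : WeierstrassCurve R) (m : ℕ)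
    (F : R[X][Y]) (c₁ c₂ t₁ t₂ : R), TT (W₁.map f) (W₂.map f) m (F.map (mapRingHom f)) (f c₁) (f c₂)
      (f t₁) (f t₂) = f (TT W₁ W₂ m F c₁ c₂ t₁ t₂)) ∧
  (∀ (R : Type) [CommRing R] (W₁ W₂ : WeierstrassCurve R) (m : ℕ) (F : R[X][Y])
    (c₁ c₂ t₁ t₂ : R), TT W₁ W₂ m F c₁ c₂ t₁ t₂ = TT W₁ W₂ m F t₁ t₂ c₁ c₂) ∧
  (∀ (R R' : Type) [CommRing R] [CommRing R'] (f : R →+* R') (W₁ W₂ : WeierstrassCurve R) (m : ℕ)
    (F : R[X][Y]) (c₁ c₂ : R) (a b : R'), ev ((Tr W₁ W₂ m F c₁ c₂).map (mapRingHom f)) (a, b) =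
      TT (W₁.map f) (W₂.map f) m (F.map (mapRingHom f)) (f c₁) (f c₂) a b) ∧
  (∀ (R : Type) [CommRing R] (W₁ W₂ : WeierstrassCurve R) (m : ℕ)
    (F : R[X][Y]) (c₁ c₂ a b : R), ev (Tr W₁ W₂ m F c₁ c₂) (a, b) = TT W₁ W₂ m F c₁ c₂ a b)

/-- EIG. The eigenvectors: if `U_i z_i² - T_i z_i + S_i = 0` (`i = 1,2`) then
`(z₁,1) ⊗ (z₂,1)` is an eigenvector of the big matrix with eigenvalue `U₁^m U₂^m F(z₁,z₂)`.
(`M_i (z,1)ᵀ = (T z - S, U z)ᵀ = U z (z,1)ᵀ`.) -/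
def EIG : Prop := ∀ (R : Type) [CommRing R] (W₁ W₂ : WeierstrassCurve R) (m : ℕ) (F : R[X][Y])
  (c₁ c₂ t₁ t₂ z₁ z₂ : R), BD m F →
  Uf c₁ t₁ * z₁ ^ 2 - Tf W₁ c₁ t₁ * z₁ + Sf W₁ c₁ t₁ = 0 →
  Uf c₂ t₂ * z₂ ^ 2 - Tf W₂ c₂ t₂ * z₂ + Sf W₂ c₂ t₂ = 0 →
  (BM W₁ W₂ m F c₁ c₂ t₁ t₂).mulVec (fun p => ![z₁, 1] p.1 * ![z₂, 1] p.2) =
    (Uf c₁ t₁ ^ m * Uf c₂ t₂ ^ m * ev F (z₁, z₂)) • (fun p => ![z₁, 1] p.1 * ![z₂, 1] p.2)

/-- T1. Vanishing: QUADR gives the hypotheses of EIG for `z_i = x(y_i+v_i)`; a nonzero vector is in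
the kernel. Assume QUADR (GoalsA), EIG. -/
def T1 : Prop := ∀ (F : Type) [Field F] [DecidableEq F] (W₁ W₂ : Affine F) (m : ℕ) (P : F[X][Y])
  (y v : W₁.Point × W₂.Point), BD m P → Aff y → Aff v → Aff (y + v) → ev P (kap (y + v)) = 0 →
  TT W₁ W₂ m P (xc v.1) (xc v.2) (xc y.1) (xc y.2) = 0

/-- T2. Product formula, when `2v_i, 2y_i ≠ 0`, `y_i ≠ ±v_i`:
`TT = U₁^{4m} U₂^{4m} ∏_σ P(κ(y + σ v))`, `U_i = (x(y_i)-x(v_i))² ≠ 0`.
(ADD: `z_i^± = x(y_i ± v_i)` are the two different roots of `U z² - T z + S`; four linearly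
independent eigenvectors.) Assume ADD, XEQ, QUADR, EIG. -/
def T2 : Prop := ∀ (F : Type) [Field F] [DecidableEq F] (W₁ W₂ : Affine F) (m : ℕ) (P : F[X][Y])
  (y v : W₁.Point × W₂.Point), BD m P → Aff y → Aff v → Aff (y + y) → Aff (v + v) →
  Aff (y + v) → Aff (y - v) →
  Uf (xc v.1) (xc y.1) ≠ 0 ∧ Uf (xc v.2) (xc y.2) ≠ 0 ∧
  TT W₁ W₂ m P (xc v.1) (xc v.2) (xc y.1) (xc y.2) =
    Uf (xc v.1) (xc y.1) ^ (4 * m) * Uf (xc v.2) (xc y.2) ^ (4 * m) *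
      ∏ s : ℤˣ × ℤˣ, ev P (kap (y + sg s v))

/-- HT. Height of the translate. The entries of the big matrix are linear in
`x = (f_ij c₁^a c₂^b)_{i,j ≤ m; a,b ≤ 2m}` with coefficients in `K[X][Y]` depending only on `W₁, W₂`,
`m`; so the coefficients of `Tr` are forms of degree `4` in `x`: `logHeight_eval_le'`
(`Mathlib/NumberTheory/Height/MvPolynomial.lean`), and
`logHeight x ≤ hp m F + 2m h(c₁) + 2m h(c₂)`. Or estimate place by place. -/
def HT : Prop := ∀ (K : Type) [Field K] [NumberField K] (W₁ W₂ : WeierstrassCurve K) (m : ℕ),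
  ∃ C : ℝ, 0 ≤ C ∧ ∀ (F : K[X][Y]) (c₁ c₂ : K), BD m F → Tr W₁ W₂ m F c₁ c₂ ≠ 0 →
    hp (8 * m) (Tr W₁ W₂ m F c₁ c₂) ≤ C * (hp m F + logHeight₁ c₁ + logHeight₁ c₂ + 1)

/-! ## Elimination heights -/

/-- EL. Heights of common zeros. `R = Res_Y(F,G) ∈ K[X]` as in BZ, `R(ξ) = 0`, `R ≠ 0`; its coefficients
are homogeneous of degrees `deg_Y G`, `deg_Y F` in the coefficients of `F`, `G`:
`height ≤ C + m(hp m F + hp m G)`; RH (GoalsA) bounds `h(ξ)`. Exchange `X` and `Y` for `η`. If `F` or `G` has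
`deg_Y = 0`: `F ∈ K[X]`, `F(ξ) = 0`, `F ≠ 0`, RH directly. Assume RH. -/
def EL : Prop := ∀ (K : Type) [Field K] [NumberField K] (m : ℕ), ∃ C : ℝ, 0 ≤ C ∧
  ∀ (F G : K[X][Y]), BD m F → BD m G → IsRelPrime F G → ∀ p : K × K, ev F p = 0 → ev G p = 0 →
    logHeight₁ p.1 + logHeight₁ p.2 ≤ C * (hp m F + hp m G + 1)

/-- HD. Height of an irreducible curve with many zeros of small height: let
`a = deg_X Φ`, `b = deg_Y Φ`; a polynomial with `deg_X ≤ a`, `deg_Y ≤ b` which vanishes on `S` is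
divisible by `Φ` (BZ), hence a scalar multiple of `Φ`. Apply CR (GoalsA) with `J = Fin (a+1) × Fin (b+1)`,
`e_p = (p₁^i p₂^j)`, `f₀ = Φ`, `w` a coordinate vector at a nonzero coefficient of `Φ`: `f = cΦ`, `c ≠ 0`.
Assume CR, BZ. -/
def HDX : Prop := ∀ (K : Type) [Field K] [NumberField K] (m : ℕ), ∃ C : ℝ, 0 ≤ C ∧
  ∀ Φ : K[X][Y], Irreducible Φ → BD m Φ → ∀ (S : Finset (K × K)) (H : ℝ), 0 ≤ H →
    (∀ p ∈ S, logHeight₁ p.1 + logHeight₁ p.2 ≤ H ∧ ev Φ p = 0) → 2 * m ^ 3 < S.card →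
    hp m Φ ≤ C * (1 + H)

/-- GP. The gap principle on a curve: from T1, TMAP, TDEG, HT, EL (degree `8m`), HDX.
`Φ` is irreducible and does not divide `T_vΦ`, so they are relatively prime, with the common zero
`κ(u)`. (`hp (8m) Φ = hp m Φ` or `≤`: the same coefficients and zeros.) -/
def GP : Prop := ∀ (K : Type) [Field K] [NumberField K] [DecidableEq K] (W₁ W₂ : Affine K) (m : ℕ),
  ∃ C : ℝ, 0 ≤ C ∧ ∀ Φ : K[X][Y], Irreducible Φ → BD m Φ → ∀ (S : Finset (K × K)) (H : ℝ), 0 ≤ H →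
    (∀ p ∈ S, logHeight₁ p.1 + logHeight₁ p.2 ≤ H ∧ ev Φ p = 0) → 2 * m ^ 3 < S.card →
    ∀ u v : W₁.Point × W₂.Point, Aff u → Aff v → Aff (u + v) → ev Φ (kap u) = 0 →
      ev Φ (kap (u + v)) = 0 → ¬ Φ ∣ Tr W₁ W₂ m Φ (xc v.1) (xc v.2) →
      hh u ≤ C * (H + hh v + 1)

end

end Pool.Agent.Helper29.BL
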