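import Pool.Agent.Helper29.BL.GoalsA
import Pool.Agent.Helper29.BL.GoalsB
namespace Pool.Agent.Helper29.BL
open WeierstrassCurve Height Height.AdmissibleAbsValues Polynomial
open scoped Polynomial.Bivariate

lemma Mm_mulVec {R : Type} [CommRing R] (W : WeierstrassCurve R) (c t z : R)
    (h : Uf c t * z ^ 2 - Tf W c t * z + Sf W c t = 0) :
    (Mm W c t).mulVec ![z, 1] = (Uf c t * z) • ![z, 1] := by
  ext i
  fin_cases i
  · simp [Mm, Matrix.mulVec, dotProduct, Fin.sum_univ_two]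
    linear_combination (-1 : R) * h
  · simp [Mm, Matrix.mulVec, dotProduct, Fin.sum_univ_two]

lemma Mm_pow_mulVec {R : Type} [CommRing R] (W : WeierstrassCurve R) (c t z : R)
    (h : Uf c t * z ^ 2 - Tf W c t * z + Sf W c t = 0) (i : ℕ) :
    (Mm W c t ^ i).mulVec ![z, 1] = (Uf c t * z) ^ i • ![z, 1] := by
  induction i with
  | zero => simp
  | succ i ih =>
    rw [pow_succ', ← Matrix.mulVec_mulVec, ih, Matrix.mulVec_smul, Mm_mulVec W c t z h, smul_smul,
      pow_succ]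

lemma kron_mulVec {R : Type} [CommRing R] (A B : Matrix (Fin 2) (Fin 2) R) (a b : Fin 2 → R) :
    (Matrix.kroneckerMap (fun a b => a * b) A B).mulVec (fun p => a p.1 * b p.2) =
      fun p => A.mulVec a p.1 * B.mulVec b p.2 := by
  ext p
  simp only [Matrix.mulVec, dotProduct, Matrix.kroneckerMap_apply, Fintype.sum_prod_type]
  rw [Finset.sum_mul_sum]
  refine Finset.sum_congr rfl fun i _ => Finset.sum_congr rfl fun j _ => by ring

lemma BD.eq_sum {R : Type} [CommRing R] {m : ℕ} {F : R[X][Y]} (hF : BD m F) (a b : R) :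
    ev F (a, b) = ∑ i ∈ Finset.range (m + 1), ∑ j ∈ Finset.range (m + 1),
      (F.coeff j).coeff i * a ^ i * b ^ j := by
  rw [Finset.sum_comm]
  simp only [ev, evalEval]
  rw [Polynomial.eval_eq_sum_range' (Nat.lt_succ_of_le hF.1), Polynomial.eval_finsetSum]
  refine Finset.sum_congr rfl fun j _ => ?_
  rw [Polynomial.eval_mul, Polynomial.eval_pow, Polynomial.eval_C,
    Polynomial.eval_eq_sum_range' (Nat.lt_succ_of_le (hF.2 j)), Finset.sum_mul]

theorem eig : EIG := by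
  intro R _ W₁ W₂ m F c₁ c₂ t₁ t₂ z₁ z₂ hF h₁ h₂
  rw [BM]
  simp only [Matrix.sum_mulVec, Matrix.smul_mulVec, kron_mulVec, Mm_pow_mulVec W₁ _ _ _ h₁,
    Mm_pow_mulVec W₂ _ _ _ h₂]
  ext p
  simp only [Finset.sum_apply, Pi.smul_apply, smul_eq_mul]
  rw [hF.eq_sum, Finset.mul_sum, Finset.sum_mul]
  refine Finset.sum_congr rfl fun i hi => ?_
  rw [Finset.mul_sum, Finset.sum_mul]
  refine Finset.sum_congr rfl fun j hj => ?_
  have hi' : m - i + i = m := Nat.sub_add_cancel (Nat.le_of_lt_succ (Finset.mem_range.mp hi))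
  have hj' : m - j + j = m := Nat.sub_add_cancel (Nat.le_of_lt_succ (Finset.mem_range.mp hj))
  have e1 : Uf c₁ t₁ ^ m = Uf c₁ t₁ ^ (m - i) * Uf c₁ t₁ ^ i := by rw [← pow_add, hi']
  have e2 : Uf c₂ t₂ ^ m = Uf c₂ t₂ ^ (m - j) * Uf c₂ t₂ ^ j := by rw [← pow_add, hj']
  rw [e1, e2, mul_pow, mul_pow]
  ring

theorem t1_of : QUADR → EIG → T1 := by
  intro hq he F _ _ W₁ W₂ m P y v hP hy hv hyv h0
  obtain ⟨h1, -⟩ := hq F W₁ y.1 v.1 hy.1 hv.1 hyv.1
  obtain ⟨h2, -⟩ := hq F W₂ y.2 v.2 hy.2 hv.2 hyv.2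
  have := he F W₁ W₂ m P (xc v.1) (xc v.2) (xc y.1) (xc y.2) _ _ hP h1 h2
  have h0' : ev P (xc (y.1 + v.1), xc (y.2 + v.2)) = 0 := h0
  rw [h0', mul_zero, zero_smul] at this
  by_contra hne
  have hinj := Matrix.mulVec_injective_iff_isUnit.mpr ((Matrix.isUnit_iff_isUnit_det _).mpr
    (isUnit_iff_ne_zero.mpr hne))
  have h3 : (BM W₁ W₂ m P (xc v.1) (xc v.2) (xc y.1) (xc y.2)).mulVec 0 = 0 :=
    Matrix.mulVec_zero _
  have := hinj (this.trans h3.symm)
  have := congrFun this (1, 1)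
  simp at this

end Pool.Agent.Helper29.BL
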