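import Pool.Agent.Helper29.BL.RH
import Pool.Agent.Helper29.BL.EIG
namespace Pool.Agent.Helper29.BL
open WeierstrassCurve Height Height.AdmissibleAbsValues Polynomial
open scoped Polynomial.Bivariate

section
variable {K : Type} [Field K] (v : AbsoluteValue K ℝ)

lemma diff_mul {x x' y y' : K} {n m D : ℝ} (hx : v x ≤ 1) (hy' : v y' ≤ 1)
    (h1 : v (x - x') ≤ cst v n * D) (h2 : v (y - y') ≤ cst v m * D) :
    v (x * y - x' * y') ≤ cst v (n + m) * D := by
  have e : x * y - x' * y' = x * (y - y') + (x - x') * y' := by ring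
  have h3 : v (x * (y - y')) ≤ v (y - y') := by
    rw [v.map_mul]; exact mul_le_of_le_one_left (v.nonneg _) hx
  have h4 : v ((x - x') * y') ≤ v (x - x') := by
    rw [v.map_mul]; exact mul_le_of_le_one_right (v.nonneg _) hy'
  rw [e]
  by_cases hv : IsNonarchimedean v
  · rw [cst_of_nonarch hv] at *
    refine (hv _ _).trans (max_le ?_ ?_) <;> linarith
  · rw [cst_of_not_nonarch hv] at *
    refine (v.add_le _ _).trans ?_
    linarith

lemma diff_pow {x x' : K} {D : ℝ} (hD : 0 ≤ D) (hx : v x ≤ 1) (hx' : v x' ≤ 1)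
    (h1 : v (x - x') ≤ D) (i : ℕ) : v (x ^ i - x' ^ i) ≤ cst v i * D := by
  induction i with
  | zero =>
    simp only [pow_zero, sub_self, v.map_zero]
    refine mul_nonneg ?_ hD
    unfold cst; split_ifs <;> simp
  | succ i ih =>
    rw [pow_succ, pow_succ]
    have hxi : v (x ^ i) ≤ 1 := by rw [v.map_pow]; exact pow_le_one₀ (v.nonneg _) hx
    have h1' : v (x - x') ≤ cst v 1 * D := by
      unfold cst; split_ifs <;> simpa using h1
    have := diff_mul v hxi hx' ih h1'
    push_cast; exact this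

/-- normalised homogeneous coordinates -/
lemma exists_norm_coord (a : K) : ∃ u p q : K, u ≠ 0 ∧ a = u * p ∧ 1 = u * q ∧ v p ≤ 1 ∧ v q ≤ 1 ∧
    (p = 1 ∨ q = 1) ∧ v u = Mv v a := by
  rcases le_or_gt (v a) 1 with h | h
  · exact ⟨1, a, 1, one_ne_zero, by simp, by simp, h, by simp, Or.inr rfl, by
      rw [Mv, max_eq_left h]; simp⟩
  · have ha : a ≠ 0 := by
      rintro rfl; rw [v.map_zero] at h; linarith
    refine ⟨a, 1, a⁻¹, ha, by simp, by field_simp, by simp, ?_, Or.inl rfl, ?_⟩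
    · rw [map_inv₀]; exact inv_le_one_of_one_le₀ h.le
    · rw [Mv, max_eq_right h.le]

lemma exists_scaling {a a' : K} {D : ℝ} (hD : 0 ≤ D)
    (h : v (a - a') ≤ D * (Mv v a * Mv v a')) :
    ∃ u p q u' p' q' s : K, u ≠ 0 ∧ a = u * p ∧ 1 = u * q ∧ v p ≤ 1 ∧ v q ≤ 1 ∧ v u = Mv v a ∧
      u' ≠ 0 ∧ a' = u' * p' ∧ 1 = u' * q' ∧ v (s * p') ≤ 1 ∧ v (s * q') ≤ 1 ∧
      v (p - s * p') ≤ D ∧ v (q - s * q') ≤ D := by
  obtain ⟨u, p, q, hu, ha, h1, hp, hq, hpq, hvu⟩ := exists_norm_coord v a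
  obtain ⟨u', p', q', hu', ha', h1', hp', hq', hpq', hvu'⟩ := exists_norm_coord v a'
  have hdet : v (p * q' - q * p') ≤ D := by
    have e : a - a' = u * u' * (p * q' - q * p') := by
      calc a - a' = u * p * 1 - 1 * (u' * p') := by rw [ha, ha']; ring
        _ = u * p * (u' * q') - (u * q) * (u' * p') := by rw [← h1, ← h1']
        _ = _ := by ring
    rw [e, v.map_mul, v.map_mul, hvu, hvu'] at h
    have hpos : 0 < Mv v a * Mv v a' := mul_pos (Mv_pos _ _) (Mv_pos _ _)
    rw [mul_comm D] at h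
    exact le_of_mul_le_mul_left h hpos
  rcases hpq' with h2 | h2
  · refine ⟨u, p, q, u', p', q', p, hu, ha, h1, hp, hq, hvu, hu', ha', h1', ?_, ?_, ?_, ?_⟩
    · rw [h2, mul_one]; exact hp
    · rw [v.map_mul]; exact mul_le_one₀ hp (v.nonneg _) hq'
    · rw [h2, mul_one, sub_self, v.map_zero]; exact hD
    · have : q - p * q' = -(p * q' - q * p') := by rw [h2]; ring
      rw [this, abv_neg]; exact hdet
  · refine ⟨u, p, q, u', p', q', q, hu, ha, h1, hp, hq, hvu, hu', ha', h1', ?_, ?_, ?_, ?_⟩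
    · rw [v.map_mul]; exact mul_le_one₀ hq (v.nonneg _) hp'
    · rw [h2, mul_one]; exact hq
    · have : p - q * p' = p * q' - q * p' := by rw [h2]; ring
      rw [this]; exact hdet
    · rw [h2, mul_one, sub_self, v.map_zero]; exact hD
end

theorem ev_bound : EV := by
  refine ⟨fun k => (k + 1) ^ 2 * (2 * k) + 1, fun k => by
    have : (0 : ℝ) ≤ (k + 1) ^ 2 * (2 * k) := by positivity
    linarith, ?_⟩
  intro K _ v k F a b a' b' D hF h0 hD ha hb
  obtain ⟨u, p, q, u', p', q', s, hu, e1, e2, hp, hq, hvu, hu', e1', e2', hsp, hsq, d1, d2⟩ :=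
    exists_scaling v hD ha
  obtain ⟨w, r, t, w', r', t', s', hw, e3, e4, hr, ht, hvw, hw', e3', e4', hsr, hst, d3, d4⟩ :=
    exists_scaling v hD hb
  -- homogenisation
  have hom : ∀ (x y u p q w r t : K), x = u * p → 1 = u * q → y = w * r → 1 = w * t →
      ev F (x, y) = u ^ k * w ^ k * ∑ i ∈ Finset.range (k + 1), ∑ j ∈ Finset.range (k + 1),
        (F.coeff j).coeff i * (p ^ i * q ^ (k - i) * (r ^ j * t ^ (k - j))) := by
    intro x y u p q w r t hx h1 hy h1'
    rw [hF.eq_sum, Finset.mul_sum]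
    refine Finset.sum_congr rfl fun i hi => ?_
    rw [Finset.mul_sum]
    refine Finset.sum_congr rfl fun j hj => ?_
    have hi' : i + (k - i) = k := Nat.add_sub_cancel' (Nat.le_of_lt_succ (Finset.mem_range.mp hi))
    have hj' : j + (k - j) = k := Nat.add_sub_cancel' (Nat.le_of_lt_succ (Finset.mem_range.mp hj))
    have x1 : x ^ i = u ^ k * (p ^ i * q ^ (k - i)) := by
      have : x ^ i = x ^ i * 1 ^ (k - i) := by simp
      rw [this, hx]
      nth_rewrite 1 [h1]
      rw [mul_pow, mul_pow]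
      have : u ^ k = u ^ i * u ^ (k - i) := by rw [← pow_add, hi']
      rw [this]; ring
    have y1 : y ^ j = w ^ k * (r ^ j * t ^ (k - j)) := by
      have : y ^ j = y ^ j * 1 ^ (k - j) := by simp
      rw [this, hy]
      nth_rewrite 1 [h1']
      rw [mul_pow, mul_pow]
      have : w ^ k = w ^ j * w ^ (k - j) := by rw [← pow_add, hj']
      rw [this]; ring
    rw [x1, y1]; ring
  have E1 := hom a b u p q w r t e1 e2 e3 e4
  have E2 := hom a' b' u' p' q' w' r' t' e1' e2' e3' e4'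
  rw [h0] at E2
  have E3 : ∑ i ∈ Finset.range (k + 1), ∑ j ∈ Finset.range (k + 1),
        (F.coeff j).coeff i * ((s * p') ^ i * (s * q') ^ (k - i) *
          ((s' * r') ^ j * (s' * t') ^ (k - j))) = 0 := by
    have e : ∑ i ∈ Finset.range (k + 1), ∑ j ∈ Finset.range (k + 1),
        (F.coeff j).coeff i * ((s * p') ^ i * (s * q') ^ (k - i) *
          ((s' * r') ^ j * (s' * t') ^ (k - j))) = s ^ k * s' ^ k *
        ∑ i ∈ Finset.range (k + 1), ∑ j ∈ Finset.range (k + 1),
        (F.coeff j).coeff i * (p' ^ i * q' ^ (k - i) * (r' ^ j * t' ^ (k - j))) := by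
      rw [Finset.mul_sum]
      refine Finset.sum_congr rfl fun i hi => ?_
      rw [Finset.mul_sum]
      refine Finset.sum_congr rfl fun j hj => ?_
      have hi' : i + (k - i) = k := Nat.add_sub_cancel' (Nat.le_of_lt_succ (Finset.mem_range.mp hi))
      have hj' : j + (k - j) = k := Nat.add_sub_cancel' (Nat.le_of_lt_succ (Finset.mem_range.mp hj))
      have x1 : s ^ k = s ^ i * s ^ (k - i) := by rw [← pow_add, hi']
      have y1 : s' ^ k = s' ^ j * s' ^ (k - j) := by rw [← pow_add, hj']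
      rw [x1, y1, mul_pow, mul_pow, mul_pow, mul_pow]; ring
    rw [e]
    have : ∑ i ∈ Finset.range (k + 1), ∑ j ∈ Finset.range (k + 1),
        (F.coeff j).coeff i * (p' ^ i * q' ^ (k - i) * (r' ^ j * t' ^ (k - j))) = 0 := by
      rcases mul_eq_zero.mp E2.symm with h | h
      · rcases mul_eq_zero.mp h with h | h
        · exact absurd h (pow_ne_zero _ hu')
        · exact absurd h (pow_ne_zero _ hw')
      · exact h
    rw [this, mul_zero]
  -- the difference
  set c0 := cmax k F v with hc0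
  have hc00 : 0 ≤ c0 := Real.iSup_nonneg fun _ => v.nonneg _
  have hterm : ∀ i ∈ Finset.range (k + 1), ∀ j ∈ Finset.range (k + 1),
      v ((F.coeff j).coeff i * (p ^ i * q ^ (k - i) * (r ^ j * t ^ (k - j)) -
        (s * p') ^ i * (s * q') ^ (k - i) * ((s' * r') ^ j * (s' * t') ^ (k - j)))) ≤
        c0 * (cst v (2 * k) * D) := by
    intro i hi j hj
    have hi1 : i < k + 1 := Finset.mem_range.mp hi
    have hj1 : j < k + 1 := Finset.mem_range.mp hj
    have hi' : i + (k - i) = k := Nat.add_sub_cancel' (Nat.le_of_lt_succ hi1)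
    have hj' : j + (k - j) = k := Nat.add_sub_cancel' (Nat.le_of_lt_succ hj1)
    rw [v.map_mul]
    have hpow : ∀ {x : K}, v x ≤ 1 → ∀ i : ℕ, v (x ^ i) ≤ 1 := fun hx i => by
      rw [v.map_pow]; exact pow_le_one₀ (v.nonneg _) hx
    have hmul : ∀ {x y : K}, v x ≤ 1 → v y ≤ 1 → v (x * y) ≤ 1 := fun hx hy => by
      rw [v.map_mul]; exact mul_le_one₀ hx (v.nonneg _) hy
    have g1 := diff_mul v (hpow hp i) (hpow hsq (k - i)) (diff_pow v hD hp hsp d1 i)
      (diff_pow v hD hq hsq d2 (k - i))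
    have g2 := diff_mul v (hpow hr j) (hpow hst (k - j)) (diff_pow v hD hr hsr d3 j)
      (diff_pow v hD ht hst d4 (k - j))
    have g3 := diff_mul v (hmul (hpow hp i) (hpow hq (k - i)))
      (hmul (hpow hsr j) (hpow hst (k - j))) g1 g2
    have e5 : ((i : ℝ) + ((k - i : ℕ) : ℝ) + ((j : ℝ) + ((k - j : ℕ) : ℝ))) = 2 * k := by
      have h1 : (i : ℝ) + ((k - i : ℕ) : ℝ) = k := by exact_mod_cast hi'
      have h2 : (j : ℝ) + ((k - j : ℕ) : ℝ) = k := by exact_mod_cast hj'
      rw [h1, h2]; ring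
    rw [e5] at g3
    refine mul_le_mul ?_ g3 (v.nonneg _) hc00
    exact le_ciSup (f := fun ij : Fin (k + 1) × Fin (k + 1) => v ((F.coeff ij.2).coeff ij.1))
      (Set.finite_range _).bddAbove (⟨i, hi1⟩, ⟨j, hj1⟩)
  have E4 : ∑ i ∈ Finset.range (k + 1), ∑ j ∈ Finset.range (k + 1),
        (F.coeff j).coeff i * (p ^ i * q ^ (k - i) * (r ^ j * t ^ (k - j))) =
      ∑ x ∈ Finset.range (k + 1) ×ˢ Finset.range (k + 1),
        (F.coeff x.2).coeff x.1 * (p ^ x.1 * q ^ (k - x.1) * (r ^ x.2 * t ^ (k - x.2)) -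
        (s * p') ^ x.1 * (s * q') ^ (k - x.1) * ((s' * r') ^ x.2 * (s' * t') ^ (k - x.2))) := by
    rw [Finset.sum_product]
    simp only [mul_sub, Finset.sum_sub_distrib]
    rw [E3, sub_zero]
  have hDk : 0 ≤ cst v (2 * k) * D := by
    refine mul_nonneg ?_ hD
    unfold cst; split_ifs
    · norm_num
    · positivity
  have h5 : v (∑ i ∈ Finset.range (k + 1), ∑ j ∈ Finset.range (k + 1),
        (F.coeff j).coeff i * (p ^ i * q ^ (k - i) * (r ^ j * t ^ (k - j)))) ≤
      cst v ((k + 1) ^ 2) * (c0 * (cst v (2 * k) * D)) := by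
    rw [E4]
    refine abv_sum_le v _ _ (mul_nonneg hc00 hDk) (fun x hx => ?_) ?_
    · rw [Finset.mem_product] at hx
      exact hterm x.1 hx.1 x.2 hx.2
    · rw [Finset.card_product, Finset.card_range]
      push_cast; rw [pow_two]
  rw [E1, v.map_mul, v.map_mul, v.map_pow, v.map_pow, hvu, hvw]
  calc Mv v a ^ k * Mv v b ^ k * _ ≤ Mv v a ^ k * Mv v b ^ k *
        (cst v ((k + 1) ^ 2) * (c0 * (cst v (2 * k) * D))) := by
        refine mul_le_mul_of_nonneg_left h5 ?_
        have := Mv_pos v a; have := Mv_pos v b; positivity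
    _ = cst v ((k + 1) ^ 2 * (2 * k)) * (c0 * (Mv v a ^ k * Mv v b ^ k) * D) := by
        rw [cst_mul v ((k + 1) ^ 2) (2 * k)]; ring
    _ ≤ cst v ((k + 1) ^ 2 * (2 * k) + 1) * (c0 * (Mv v a ^ k * Mv v b ^ k) * D) := by
        refine mul_le_mul_of_nonneg_right (cst_mono v (by linarith)) ?_
        have := Mv_pos v a; have := Mv_pos v b; positivity
    _ = cst v ((k + 1) ^ 2 * (2 * k) + 1) * c0 * (Mv v a ^ k * Mv v b ^ k) * D := by ring

end Pool.Agent.Helper29.BL
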