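import Pool.Agent.Helper29.BL.GoalsC
namespace Pool.Agent.Helper29.BL
open WeierstrassCurve Height Height.AdmissibleAbsValues Polynomial
open scoped Polynomial.Bivariate

theorem pex : PEX := by
  intro Ω _ _ W _ a
  obtain ⟨y, hy⟩ := IsAlgClosed.exists_root
    (X ^ 2 + C (W.a₁ * a + W.a₃) * X - C (a ^ 3 + W.a₂ * a ^ 2 + W.a₄ * a + W.a₆) : Polynomial Ω) (by
      have : (X ^ 2 + C (W.a₁ * a + W.a₃) * X - C (a ^ 3 + W.a₂ * a ^ 2 + W.a₄ * a + W.a₆) : Polynomial Ω).degree = 2 := by
        compute_degree!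
      rw [this]; decide)
  have heq : W.Equation a y := by
    rw [Affine.equation_iff]
    simp only [IsRoot.def, eval_sub, eval_add, eval_pow, eval_X, eval_mul, eval_C] at hy
    linear_combination hy
  exact ⟨Affine.Point.some a y ((W.equation_iff_nonsingular).mp heq),
    Affine.Point.some_ne_zero _, rfl⟩
end Pool.Agent.Helper29.BL
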