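import Pool.Agent.Helper29.BL.Defs

/-!
# Project BL, goals C: the case `Φ ∣ T_v Φ`, degenerate points
-/

namespace Pool.Agent.Helper29.BL

open WeierstrassCurve Height Height.AdmissibleAbsValues Polynomial
open scoped Polynomial.Bivariate

noncomputable section

/-- The value of `F ∈ K[X][Y]` at a pair of elements of an extension field `Ω`. -/
def evO {K Ω : Type} [Field K] [Field Ω] [Algebra K Ω] (F : K[X][Y]) (p : Ω × Ω) : Ω :=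
  ev (F.map (mapRingHom (algebraMap K Ω))) p

/-- The base change of a Weierstrass curve. -/
abbrev bcW {K : Type} [Field K] (Ω : Type) [Field Ω] [Algebra K Ω] (W : Affine K) : Affine Ω :=
  W.map (algebraMap K Ω)

/-- `deg_X Φ ≥ 1` and `deg_Y Φ ≥ 1` -/
def PosDeg {K : Type} [Field K] (Φ : K[X][Y]) : Prop :=
  1 ≤ Φ.natDegree ∧ ∃ j, 1 ≤ (Φ.coeff j).natDegree

/-- `(a, b)` is a generic point of the curve `Φ = 0` in the algebraically closed field `Ω`,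
which is algebraic over `K(a)`. -/
structure Gen {K : Type} [Field K] (Φ : K[X][Y]) (Ω : Type) [Field Ω] [Algebra K Ω]
    (a b : Ω) : Prop where
  closed : IsAlgClosed Ω
  transa : Transcendental K a
  transb : Transcendental K b
  ker : ∀ G : K[X][Y], evO G (a, b) = 0 ↔ Φ ∣ G
  alg : ∀ x : Ω, IsAlgebraic (IntermediateField.adjoin K {a}) x

/-- GEN. Existence: `Ω` = algebraic closure of the fraction field of `K[X][Y]/(Φ)` (`(Φ)` is prime: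
`K[X][Y]` is a UFD), `a, b` the images of `X, Y`. `a` is transcendental: a relation `p(a) = 0`
gives `Φ ∣ C p`, impossible for `p ≠ 0` as `deg_Y Φ ≥ 1`; similarly `b`. `b` is algebraic over
`K(a)` (`Φ(a,Y) ≠ 0`), so `Ω` is. -/
def GEN : Prop := ∀ (K : Type) [Field K] (Φ : K[X][Y]), Irreducible Φ → PosDeg Φ →
  ∃ (Ω : Type) (_ : Field Ω) (_ : Algebra K Ω) (a b : Ω), Gen Φ Ω a b

/-- AUT. Extension of the substitution `(a,b) → (α,β)` to an automorphism. The kernel of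
`G ↦ G(α,β)` is `(Φ)`: if `G(α,β) = 0` and `Φ ∤ G` then `Φ, G` are coprime in `K(X)[Y]` (Gauss), so there
is `0 ≠ R ∈ K[X]` in the ideal `(Φ, G)` (`Polynomial.resultant`, or Bezout over `K(X)`), `R(α) = 0`,
contradiction. So `K(a,b) ≅ K(α,β)`; `Ω` is algebraic over `K(a,b)`, and algebraic over `K(α,β)` because
`a` is algebraic over `K(α)` and `Ω` over `K(a)`. Both make `Ω` an algebraic closure:
`IsAlgClosure.equivOfEquiv`. -/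
def AUT : Prop := ∀ (K : Type) [Field K] (Φ : K[X][Y]), Irreducible Φ → PosDeg Φ →
  ∀ (Ω : Type) [Field Ω] [Algebra K Ω] (a b α β : Ω), Gen Φ Ω a b → evO Φ (α, β) = 0 →
    Transcendental K α → IsAlgebraic (IntermediateField.adjoin K {α}) a →
    ∃ τ : Ω ≃ₐ[K] Ω, τ a = α ∧ τ b = β

/-- EMB. The embedding of `W(K)` into `W(Ω)` and the action of automorphisms.
(`Affine.Point.map`, `Affine.Point.baseChange` of Mathlib up to the identification of `W` with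
its base change to `K`; or a direct definition by cases.) -/
def EMB : Prop := ∀ (K : Type) [Field K] [DecidableEq K] (Ω : Type) [Field Ω] [DecidableEq Ω]
  [Algebra K Ω] (W : Affine K), ∃ ι : W.Point →+ (bcW Ω W).Point,
    (∀ P, ι P = 0 → P = 0) ∧ (∀ P, xc (ι P) = algebraMap K Ω (xc P)) ∧
    ∀ τ : Ω ≃ₐ[K] Ω, ∃ τ' : (bcW Ω W).Point →+ (bcW Ω W).Point,
      (∀ P, τ' P = 0 → P = 0) ∧ (∀ P, xc (τ' P) = τ (xc P)) ∧ ∀ P, τ' (ι P) = ι P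

/-- PEX. Over an algebraically closed field every `x` is the `x`-coordinate of a point `≠ 0`. -/
def PEX : Prop := ∀ (Ω : Type) [Field Ω] [IsAlgClosed Ω] (W : Affine Ω) [W.IsElliptic] (a : Ω),
  ∃ P : W.Point, P ≠ 0 ∧ xc P = a

/-- ALG. If `x(P)` and `x(Q)` are algebraic over the subfield `L` (which contains the coefficients
of `W`) then so is `x(P+Q)` (QUADR: root of a nonzero quadratic polynomial). Also `x(P)` is algebraic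
over `L` if `P + P = 0` (DBL: root of `B ≠ 0`; `W` is elliptic, characteristic zero). Assume QUADR, DBL. -/
def ALG : Prop := ∀ (K : Type) [Field K] [CharZero K] (Ω : Type) [Field Ω] [DecidableEq Ω]
  [Algebra K Ω] (L : IntermediateField K Ω) (W : Affine K) [W.IsElliptic],
  (∀ P Q : (bcW Ω W).Point, IsAlgebraic L (xc P) → IsAlgebraic L (xc Q) →
    IsAlgebraic L (xc (P + Q))) ∧
  (∀ P : (bcW Ω W).Point, P + P = 0 → IsAlgebraic L (xc P))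

/-- `w` belongs to `Z_u`: `Φ(κ(u + w)) = 0`. -/
def Zu {K Ω : Type} [Field K] [DecidableEq K] [Field Ω] [DecidableEq Ω] [Algebra K Ω]
    {W₁ W₂ : Affine K} (Φ : K[X][Y]) (ι₁ : W₁.Point →+ (bcW Ω W₁).Point)
    (ι₂ : W₂.Point →+ (bcW Ω W₂).Point) (u : (bcW Ω W₁).Point × (bcW Ω W₂).Point)
    (w : W₁.Point × W₂.Point) : Prop :=
  evO Φ (xc (u.1 + ι₁ w.1), xc (u.2 + ι₂ w.2)) = 0

/-- SP1. For `y` without torsion components: `Φ ∣ T_y Φ` iff `σ y ∈ Z_u` for some sign `σ`.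
`Φ ∣ T_yΦ` iff `T_yΦ(a,b) = 0` (Gen.ker); `T_yΦ(a,b) = TT(x(y₁),x(y₂),a,b)` (TMAP) `= U₁^{4m}U₂^{4m}∏_σ
Φ(κ(u+σy))` (T2 over `Ω`; `u_i` is not `0`, not `2`-torsion and not `± ι y_i` because its
`x`-coordinate is transcendental (ALG with `L = ⊥`); `2 ι y_i = ι(2 y_i) ≠ 0`), `U_i ≠ 0`.
Assume T2, TMAP (GoalsB), ALG. -/
def SP1 : Prop := ∀ (K : Type) [Field K] [CharZero K] [DecidableEq K] (W₁ W₂ : Affine K)
  [W₁.IsElliptic] [W₂.IsElliptic] (m : ℕ) (Φ : K[X][Y]), BD m Φ → Irreducible Φ → PosDeg Φ →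
  ∀ (Ω : Type) [Field Ω] [DecidableEq Ω] [Algebra K Ω] (a b : Ω), Gen Φ Ω a b →
  ∀ (ι₁ : W₁.Point →+ (bcW Ω W₁).Point) (ι₂ : W₂.Point →+ (bcW Ω W₂).Point),
  (∀ P, ι₁ P = 0 → P = 0) → (∀ P, xc (ι₁ P) = algebraMap K Ω (xc P)) →
  (∀ P, ι₂ P = 0 → P = 0) → (∀ P, xc (ι₂ P) = algebraMap K Ω (xc P)) →
  ∀ u : (bcW Ω W₁).Point × (bcW Ω W₂).Point, Aff u → kap u = (a, b) →
  ∀ y : W₁.Point × W₂.Point, NT y →
    (Φ ∣ Tr W₁ W₂ m Φ (xc y.1) (xc y.2) ↔ ∃ s : ℤˣ × ℤˣ, Zu Φ ι₁ ι₂ u (sg s y))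

/-- SP2. The structure of `Z_u`. `w ∈ Z_u`: `(α,β) = κ(u+w)`, `Φ(α,β) = 0`; `α` is transcendental over
`K` (else `x(u₁) = x((u₁+w₁)-w₁)` is algebraic over `K` by ALG), `a` is algebraic over `K(α)` (ALG with
`L = K(α)`). AUT: `τ` with `τ a = α`, `τ b = β`; `τ'` (EMB) acts on the points: `κ(τ'u) = κ(u+w)`, so
`τ' u = s(u+w)` (XEQ). (i) `w' ∈ Z_u`: apply `τ` to `Φ(κ(u+w')) = 0`: `Φ(κ(s(u+w)+w')) = 0`, and
`κ(s(u+w)+w') = κ(u+w+s w')`. (ii) apply `τ⁻¹`: from `τ' u = s(u+w)`, `τ'⁻¹ u = s u - w`, so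
`Φ(κ(s u - w + w')) = 0`, `κ(s u - w + w') = κ(u + s(w'-w))`. (For (ii) one can also use that `τ`
applied to `Φ(κ(u + s(w'-w)))` is `Φ(κ(s(u+w) + s(w'-w))) = Φ(κ(s(u+w')))= Φ(κ(u+w')) = 0`.)
Assume AUT, EMB, ALG, XEQ. -/
def SP2 : Prop := ∀ (K : Type) [Field K] [CharZero K] [DecidableEq K] (W₁ W₂ : Affine K)
  [W₁.IsElliptic] [W₂.IsElliptic] (m : ℕ) (Φ : K[X][Y]), BD m Φ → Irreducible Φ → PosDeg Φ →
  ∀ (Ω : Type) [Field Ω] [DecidableEq Ω] [Algebra K Ω] (a b : Ω), Gen Φ Ω a b →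
  ∀ (ι₁ : W₁.Point →+ (bcW Ω W₁).Point) (ι₂ : W₂.Point →+ (bcW Ω W₂).Point),
  (∀ P, ι₁ P = 0 → P = 0) → (∀ P, xc (ι₁ P) = algebraMap K Ω (xc P)) →
  (∀ P, ι₂ P = 0 → P = 0) → (∀ P, xc (ι₂ P) = algebraMap K Ω (xc P)) →
  (∀ τ : Ω ≃ₐ[K] Ω, ∃ τ' : (bcW Ω W₁).Point →+ (bcW Ω W₁).Point,
      (∀ P, τ' P = 0 → P = 0) ∧ (∀ P, xc (τ' P) = τ (xc P)) ∧ ∀ P, τ' (ι₁ P) = ι₁ P) →
  (∀ τ : Ω ≃ₐ[K] Ω, ∃ τ' : (bcW Ω W₂).Point →+ (bcW Ω W₂).Point,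
      (∀ P, τ' P = 0 → P = 0) ∧ (∀ P, xc (τ' P) = τ (xc P)) ∧ ∀ P, τ' (ι₂ P) = ι₂ P) →
  ∀ u : (bcW Ω W₁).Point × (bcW Ω W₂).Point, Aff u → kap u = (a, b) →
  ∀ w : W₁.Point × W₂.Point, Zu Φ ι₁ ι₂ u w → ∃ s : ℤˣ × ℤˣ,
    (∀ w', Zu Φ ι₁ ι₂ u w' → Zu Φ ι₁ ι₂ u (w + sg s w')) ∧
    (∀ w', Zu Φ ι₁ ι₂ u w' → Zu Φ ι₁ ι₂ u (sg s (w' - w)))

/-- SPEC. Stabilisers: sixteen classes. Take `u` with `κ(u) = (a,b)` (GEN, PEX), `0 ∈ Z_u`. For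
`w ∈ Z_u` choose `s_w` by SP2. If `w₁, w₂ ∈ Z_u`, `s_{w₁} = s_{w₂} = s`: `w' ∈ Z_u ⇒ s(w'-w₂) ∈ Z_u ⇒
w₁ + s s(w'-w₂) = w' + (w₁-w₂) ∈ Z_u`; so `n(w₁-w₂) ∈ Z_u` for all `n ≥ 0`. For `y` with
`Φ ∣ T_yΦ` choose `σ` with `σ y ∈ Z_u` (SP1) and put `cl(y) = (σ, s_{σ y})` (16 values). If
`cl(y) = cl(y')`: `n(σy - σy') = σ(n(y-y')) ∈ Z_u`, so `Φ ∣ T_{n(y-y')}Φ` by SP1 (`n(y-y')` is NT).
Assume GEN, PEX, EMB, SP1, SP2. -/
def SPEC : Prop := ∀ (K : Type) [Field K] [CharZero K] [DecidableEq K] (W₁ W₂ : Affine K)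
  [W₁.IsElliptic] [W₂.IsElliptic] (m : ℕ) (Φ : K[X][Y]), BD m Φ → Irreducible Φ → PosDeg Φ →
  ∃ cl : W₁.Point × W₂.Point → Fin 16, ∀ y y' : W₁.Point × W₂.Point, NT y → NT y' → NT (y - y') →
    Φ ∣ Tr W₁ W₂ m Φ (xc y.1) (xc y.2) → Φ ∣ Tr W₁ W₂ m Φ (xc y'.1) (xc y'.2) → cl y = cl y' →
    ∀ n : ℕ, 1 ≤ n →
      Φ ∣ Tr W₁ W₂ m Φ (xc (n • (y - y')).1) (xc (n • (y - y')).2)

/-- KP. The condition `Φ ∣ T_{(a,b)}Φ` is given by polynomials in `(a,b)`.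
`TT_mΦ(s,t,X,Y)` is a polynomial in `s,t` of degree `≤ 8m` in both (by symmetry TMAP it is
`Tr(X,Y)(s,t)`, TDEG over the ring `K[X][Y]`); let `q_ij ∈ Q = K[X][Y]/(Φ)` be its coefficients modulo
`Φ`. `FF = {Σ l(q_ij) s^i t^j : l ∈ Q* (K-linear)}`. For `a,b ∈ K`: all of `FF` vanish at `(a,b)` iff
`Σ q_ij a^i b^j = 0` in `Q` iff `Φ ∣ Tr(a,b)`. Some `q_ij ≠ 0`: otherwise, with `u` over `Ω` (GEN, PEX),
`TT(x(y₁),x(y₂),a,b) = 0` for all `y ∈ A(Ω)` (`(a,b)` generic point, `Q ⊂ Ω`); but T2 shows that it is not `0`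
for suitable `y`: choose `y₁` with `2y₁ ≠ 0`, `y₁ ≠ ±u₁`, `Φ(x(u₁±y₁),Y) ≠ 0`, then `y₂` with `2y₂ ≠ 0`,
`y₂ ≠ ±u₂`, `Φ(x(u₁±y₁),x(u₂±y₂)) ≠ 0` for all four signs (finitely many bad `x`-values each time, `Ω` is
infinite). Assume GEN, PEX, T2, TMAP, TDEG, XEQ, ALG. -/
def KP : Prop := ∀ (K : Type) [Field K] [CharZero K] [DecidableEq K] (W₁ W₂ : Affine K)
  [W₁.IsElliptic] [W₂.IsElliptic] (m : ℕ) (Φ : K[X][Y]), BD m Φ → Irreducible Φ → PosDeg Φ →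
  ∃ FF : Set K[X][Y], (∀ F ∈ FF, BD (8 * m) F) ∧ (∃ F ∈ FF, F ≠ 0) ∧
    ∀ a b : K, (∀ F ∈ FF, ev F (a, b) = 0) ↔ Φ ∣ Tr W₁ W₂ m Φ a b

/-- MUL. `x(nP)` is a rational function of `x(P)`, with denominator not vanishing at points of
infinite order. Induction: `x((n+1)P) = T/U - x((n-1)P)` at `(x(P), x(nP))` (ADD, `n ≥ 2`), DBL for
`n = 2`. Assume ADD, DBL. -/
def MUL : Prop := ∀ (K : Type) [Field K] [DecidableEq K] (W : Affine K) (n : ℕ), 1 ≤ n →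
  ∃ A B : K[X], ∀ P : W.Point, (∀ k : ℕ, 0 < k → k • P ≠ 0) →
    B.eval (xc P) ≠ 0 ∧ xc (n • P) * B.eval (xc P) = A.eval (xc P)

/-- SUB. Substitution of the multiplication map: `H = Σ f_ij A₁^i B₁^{d-i}(X) A₂^j B₂^{d-j}(Y)`,
`β = B₁(x(y₁))^d B₂(x(y₂))^d`. Assume MUL. -/
def SUB : Prop := ∀ (K : Type) [Field K] [DecidableEq K] (W₁ W₂ : Affine K) (n : ℕ), 1 ≤ n →
  ∃ D : ℕ, ∀ (d : ℕ) (F : K[X][Y]), BD d F → ∃ H : K[X][Y], BD (d * D) H ∧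
    ∀ y : W₁.Point × W₂.Point, NT y → ∃ β : K, β ≠ 0 ∧ ev H (kap y) = β * ev F (kap (n • y))

/-- ND. Nondegenerate points exist: `z₀ = (P₀, b Q₀)` with `b² H₂(Q₀) > d H₁(P₀)`. Suppose
`F(κ(n k z₀)) = 0` for all `n ≥ 1`, `0 ≠ F ∈ BD(d)`. For `n` large `F(x(nkP₀),Y) ≠ 0` (finitely many bad
values of `x`, each taken at most twice), so by RH `h(x(nkbQ₀)) ≤ d h(x(nkP₀)) + C_F`; with
canonical heights: `n²k²b²H₂(Q₀) ≤ d n²k² H₁(P₀) + C'`, so `b²H₂(Q₀) ≤ dH₁(P₀)`. (`H₂(Q₀) > 0` by NOR.)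
Assume CAN, QSN, NOR, RH, XEQ (GoalsA). -/
def ND : Prop := ∀ (K : Type) [Field K] [NumberField K] [DecidableEq K] (W₁ W₂ : Affine K)
  [W₁.IsElliptic] [W₂.IsElliptic] (d : ℕ) (z : W₁.Point × W₂.Point), NT z →
  ∃ b : ℕ, 1 ≤ b ∧ ¬ Deg d (z.1, b • z.2)

/-- ZP. The exceptional curve. Let `z₀` be NT and not `Deg d`. For each `k ≤ 16` the vectors
`e(κ(n k z₀))`, `n ≥ 1` (`e` = all monomials of `BD(d)`) span `K^M`, `M = (d+1)²` (no nonzero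
`F ∈ BD(d)` vanishes at all `κ(nkz₀)`); choose `n_1..n_M` with `det[e(κ(n_i k z₀))] ≠ 0`. By MUL
`det[e(κ(n_i k z))] · (nonzero) = Z_k(κ(z))` for NT `z`, with `Z_k ∈ K[X][Y]`; so `Z_k ≠ 0`, and `Z_k(κ(z)) = 0`
if `Deg` holds for `z` with this `k` (the vectors are linearly dependent). `Z` = product of the `Z_k`
and of `X - x(t)`, `Y - x(t')` over the finitely many torsion points `t ≠ 0` of `W₁(K)`, `t' ≠ 0` of `W₂(K)`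
(NOR, CAN). Assume MUL, NOR, CAN. -/
def ZP : Prop := ∀ (K : Type) [Field K] [NumberField K] [DecidableEq K] (W₁ W₂ : Affine K)
  [W₁.IsElliptic] [W₂.IsElliptic] (d : ℕ) (z₀ : W₁.Point × W₂.Point), NT z₀ → ¬ Deg d z₀ →
  ∃ Z : K[X][Y], Z ≠ 0 ∧ ∀ z : W₁.Point × W₂.Point, Aff z → ev Z (kap z) ≠ 0 →
    NT z ∧ ¬ Deg d z

end

end Pool.Agent.Helper29.BL
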