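import Pool.Agent.Helper29.BL.GoalsA
import Pool.Agent.Helper29.BL.GoalsC
namespace Pool.Agent.Helper29.BL
open WeierstrassCurve Height Height.AdmissibleAbsValues Polynomial
open scoped Polynomial.Bivariate

/-- a root of a nonzero quadratic polynomial with algebraic coefficients is algebraic -/
lemma alg_of_quad {L Ω : Type} [Field L] [Field Ω] [Algebra L Ω] {U T S z : Ω}
    (hU : IsAlgebraic L U) (hT : IsAlgebraic L T) (hS : IsAlgebraic L S)
    (h0 : U * z ^ 2 - T * z + S = 0) (h1 : U = 0 → T ≠ 0) : IsAlgebraic L z := by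
  let A := algebraicClosure L Ω
  have hU' : U ∈ A := mem_algebraicClosure_iff.mpr hU
  have hT' : T ∈ A := mem_algebraicClosure_iff.mpr hT
  have hS' : S ∈ A := mem_algebraicClosure_iff.mpr hS
  have hz : IsAlgebraic A z := by
    refine ⟨C ⟨U, hU'⟩ * X ^ 2 - C ⟨T, hT'⟩ * X + C ⟨S, hS'⟩, ?_, ?_⟩
    · intro hp
      have c2 := congrArg (fun p => Polynomial.coeff p 2) hp
      have c1 := congrArg (fun p => Polynomial.coeff p 1) hp
      simp [coeff_X, coeff_C] at c2 c1
      have c2' : U = 0 := by simpa using congrArg Subtype.val c2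
      have c1' : T = 0 := by simpa using congrArg Subtype.val c1
      exact h1 c2' c1'
    · simpa using h0
  exact hz.restrictScalars L

theorem alg_of : QUADR → DBL → ALG := by
  intro hq hd K _ _ Ω _ _ _ L W _
  have hK : ∀ a : K, IsAlgebraic L (algebraMap K Ω a) := fun a => by
    have : algebraMap K Ω a = algebraMap L Ω (algebraMap K L a) :=
      IsScalarTower.algebraMap_apply K L Ω a
    rw [this]; exact isAlgebraic_algebraMap _
  have hb2 : IsAlgebraic L (bcW Ω W).b₂ := by rw [bcW, WeierstrassCurve.map_b₂]; exact hK _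
  have hb4 : IsAlgebraic L (bcW Ω W).b₄ := by rw [bcW, WeierstrassCurve.map_b₄]; exact hK _
  have hb6 : IsAlgebraic L (bcW Ω W).b₆ := by rw [bcW, WeierstrassCurve.map_b₆]; exact hK _
  have hb8 : IsAlgebraic L (bcW Ω W).b₈ := by rw [bcW, WeierstrassCurve.map_b₈]; exact hK _
  have h2 : IsAlgebraic L (2 : Ω) := by
    have := hK 2
    rwa [map_ofNat] at this
  refine ⟨?_, ?_⟩
  · intro P Q hP hQ
    by_cases hP0 : P = 0
    · rw [hP0, zero_add]; exact hQ
    by_cases hQ0 : Q = 0
    · rw [hQ0, add_zero]; exact hP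
    by_cases hPQ : P + Q = 0
    · rw [hPQ]; exact isAlgebraic_zero
    obtain ⟨h0, h1⟩ := hq Ω (bcW Ω W) P Q hP0 hQ0 hPQ
    refine alg_of_quad ?_ ?_ ?_ h0 h1
    · rw [Uf]; exact (hP.sub hQ).pow 2
    · rw [Tf]
      exact ((((h2.mul (hP.add hQ)).mul (hP.mul hQ)).add (hb2.mul (hP.mul hQ))).add
        (hb4.mul (hP.add hQ))).add hb6
    · rw [Sf]
      exact ((((hP.mul hQ).pow 2).sub (hb4.mul (hP.mul hQ))).sub (hb6.mul (hP.add hQ))).sub hb8
  · intro P hPP
    by_cases hP0 : P = 0
    · rw [hP0]; exact isAlgebraic_zero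
    have hB := (hd Ω (bcW Ω W) P hP0).1 hPP
    have hKa : IsAlgebraic K (xc P) := by
      refine ⟨4 * X ^ 3 + C W.b₂ * X ^ 2 + 2 * C W.b₄ * X + C W.b₆, ?_, ?_⟩
      · intro hp
        have c3 := congrArg (fun p => Polynomial.coeff p 3) hp
        have e4 : (4 : K[X]) = C 4 := rfl
        have e2 : (2 : K[X]) = C 2 := rfl
        simp only [e4, e2, ← C_mul] at c3
        simp [coeff_X, coeff_C] at c3
      · simp only [Bf, bcW, WeierstrassCurve.map_b₂, WeierstrassCurve.map_b₄,
          WeierstrassCurve.map_b₆] at hB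
        have e4 : (4 : K[X]) = C 4 := rfl
        have e2 : (2 : K[X]) = C 2 := rfl
        have f4 : algebraMap K Ω 4 = 4 := map_ofNat _ 4
        have f2 : algebraMap K Ω 2 = 2 := map_ofNat _ 2
        rw [e4, e2]
        simp only [map_add, map_mul, map_pow, aeval_C, aeval_X, f4, f2]
        exact hB
    exact hKa.extendScalars (algebraMap K L).injective

end Pool.Agent.Helper29.BL
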