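import Pool.Agent.Helper29.BL.Defs
import Pool.Agent.Helper29.BL.GoalsC

/-!
# Project BL, goals D: chains, one ball, the theorem
-/

namespace Pool.Agent.Helper29.BL

open WeierstrassCurve Height Height.AdmissibleAbsValues Polynomial
open scoped Polynomial.Bivariate

noncomputable section

/-- CHAIN. A set without `t`-chain is logarithmically small. `nrm = √H`.
Proof by induction on `t`; `t = 0`: `B` is empty. Let `ρ₁ = 16 Kc K0`; a set of diameter `≤ ρ₁` in `G`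
has `≤ N₁` elements (translate to the finite set `{H ≤ ρ₁²}`). Let `N` be the number of PACK for
`κ = 16 Kc²`. Let `ρ > ρ₁`: cut `B` into `N` cells of diameter `≤ ρ/(16Kc²)`. Heavy cells: `≥ R1`
elements; the light cells contain together `≤ N R1` points.
Case A: some `x ∈ B` is at distance `< ρ/8` from some point of every heavy cell. Then the union of the
heavy cells has diameter `≤ 2(ρ/8+ρ/16) ≤ ρ/2`: `|B| ≤ N R1 + f_t(ρ/2)`.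
Case B: for every `x ∈ B` some heavy cell `H_x` has `nrm(x-z) ≥ ρ/8` for all `z ∈ H_x`. Then each cell
`c` has no `(t-1)`-chain: let `x₀ ∈ c`, `H = H_{x₀}`; for all `x ∈ c`, `z ∈ H`: `nrm(x-z) ≥ ρ/16 ≥ Kc K0`;
append to a `(t-1)`-chain `(x, T)` in `c` as last set `R1` points of `H` (`Kc nrm(x-z') ≤ ρ/(16Kc) ≤ ρ/16`
for `z' ∈ T_j ⊂ c`, `Kc nrm(z-z') ≤ ρ/16` for `z,z' ∈ H`). So `|B| ≤ N f_{t-1}(ρ)`.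
Hence, for `ρ ≤ 2^n` (induction on `n`), `f_t(ρ) ≤ N₁ + N f_{t-1}(ρ) + N R1 n`. Assume PACK, QSN. -/
def CHAIN : Prop := ∀ (G : Type) [AddCommGroup G] [DecidableEq G] (Γ : AddSubgroup G), Γ.FG →
  ∀ (H : G → ℝ), IsQuad H → (∀ B : ℝ, {x : G | H x ≤ B}.Finite) →
  ∀ (t : ℕ) (Kc K0 : ℝ) (R1 : ℕ), 1 ≤ Kc → 1 ≤ K0 → 1 ≤ R1 → ∃ C : ℝ, 0 ≤ C ∧
  ∀ B : Finset G, (∀ z ∈ B, z ∈ Γ) → (∀ (x : G) (T : Fin t → Finset G),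
    ¬ Chain (fun z => √(H z)) B t Kc K0 R1 x T) →
  ∀ ρ : ℝ, 1 ≤ ρ → (∀ z ∈ B, ∀ z' ∈ B, √(H (z - z')) ≤ ρ) →
    (B.card : ℝ) ≤ C * (1 + Real.log ρ)

open Classical in
/-- GRD. Greedy selection. (`1 ≤ D` because of reflexivity if `T` is nonempty.) -/
def GRD : Prop := ∀ (α : Type) (r : α → α → Prop), (∀ a, r a a) → (∀ a b, r a b → r b a) →
  ∀ (T : Finset α) (D R : ℕ), (∀ a ∈ T, (T.filter (fun b => r a b)).card ≤ D) → R * D ≤ T.card →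
  1 ≤ D → ∃ S ⊆ T, S.card = R ∧ ∀ a ∈ S, ∀ b ∈ S, a ≠ b → ¬ r a b

/-- The hypotheses on a set of bad points in a small ball. -/
structure BallH {K : Type} [Field K] [AdmissibleAbsValues K] [DecidableEq K] {W₁ W₂ : Affine K}
    (H₁ : W₁.Point → ℝ) (H₂ : W₂.Point → ℝ) (d ε T : ℝ) (B : Finset (W₁.Point × W₂.Point)) :
    Prop where
  nt : ∀ z ∈ B, NT z
  bad : ∀ z ∈ B, d * T ≤ gg z
  size : ∀ z ∈ B, H₁ z.1 + H₂ z.2 ≤ 3 * T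
  diam : ∀ z ∈ B, ∀ z' ∈ B, H₁ (z.1 - z'.1) + H₂ (z.2 - z'.2) ≤ ε * T

/-- `P` is a torsion point. -/
def Tor {G : Type} [AddCommGroup G] (P : G) : Prop := ∃ n : ℕ, 0 < n ∧ n • P = 0

open Classical in
/-- TOR. Few points of `B` differ from a given one by torsion in a coordinate: the torsion points of
`W₁(K)` are finitely many (`H₁ = 0`, NOR), and VF bounds the number of points of `B` with a given first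
coordinate (`hh z ≤ H₁+H₂+2c₀ ≤ 3T + 2c₀ ≤ 5T`, `hh(z-z') ≤ εT+2c₀ ≤ 2εT`; a point with `NT` is `Aff`).
Assume VF, NOR, QSN. -/
def TOR : Prop := ∀ (K : Type) [Field K] [NumberField K] [DecidableEq K] (W₁ W₂ : Affine K)
  [W₁.IsElliptic] [W₂.IsElliptic] (H₁ : W₁.Point → ℝ) (H₂ : W₂.Point → ℝ) (c₀ : ℝ),
  CanH W₁ H₁ c₀ → CanH W₂ H₂ c₀ → ∀ d : ℝ, 0 < d →
  ∃ ε : ℝ, 0 < ε ∧ ∃ (T₀ : ℝ) (N : ℕ), ∀ T : ℝ, T₀ ≤ T → ∀ B : Finset (W₁.Point × W₂.Point),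
    BallH H₁ H₂ d ε T B → ∀ y : W₁.Point × W₂.Point,
    (B.filter (fun z => Tor (y.1 - z.1))).card ≤ N ∧ (B.filter (fun z => Tor (y.2 - z.2))).card ≤ N

/-- THIN. Thinning. From TOR and GRD: remove from `T'` the `z` with `x_i - z_i` torsion (`≤ 2N`), then
apply GRD to the relation that `z_1-z'_1` is torsion or `z_2-z'_2` is torsion or `κ(x-z) = κ(x-z')` (each class
`≤ 2N + 4`: `κ(x-z) = κ(x-z')` iff `x-z' = σ(x-z)` by XEQ). Assume TOR, GRD, XEQ. -/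
def THIN : Prop := ∀ (K : Type) [Field K] [NumberField K] [DecidableEq K] (W₁ W₂ : Affine K)
  [W₁.IsElliptic] [W₂.IsElliptic] (H₁ : W₁.Point → ℝ) (H₂ : W₂.Point → ℝ) (c₀ : ℝ),
  CanH W₁ H₁ c₀ → CanH W₂ H₂ c₀ → ∀ d : ℝ, 0 < d → ∀ R2 : ℕ,
  ∃ ε : ℝ, 0 < ε ∧ ∃ (T₀ : ℝ) (R1 : ℕ), 1 ≤ R1 ∧ ∀ T : ℝ, T₀ ≤ T →
    ∀ B : Finset (W₁.Point × W₂.Point), BallH H₁ H₂ d ε T B → ∀ x ∈ B, ∀ T' ⊆ B, T'.card = R1 →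
    ∃ T'' ⊆ T', T''.card = R2 ∧ (∀ z ∈ T'', NT (x - z)) ∧
      ∀ z ∈ T'', ∀ z' ∈ T'', z ≠ z' → NT (z - z') ∧ kap (x - z) ≠ kap (x - z')

/-- GEO. From a long chain to two levels on one curve.
`τ = min(1, d/12)`; `m, t₀, R'` from ST; `t = t₀+1`; `R2 = R' + t₀ M₃ + 1`, `R1` from THIN.
Let `x, T_j` be the chain, `T''_j ⊂ T_j` from THIN, `w = κ(x)`, `Ξ` = all `κ(x-z)`, `z ∈ ∪T''_j`.
These are pairwise different: within a level by THIN; for `i < j`, `z ∈ T_i`, `z' ∈ T_j`: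
`Kc nrm(x-z) ≤ nrm(x-z')`, `nrm(x-z) ≥ K0 > 0`, `Kc ≥ 2`, so `nrm(x-z) < nrm(x-z')`, while `κ(x-z) = κ(x-z')`
implies equal canonical heights (XEQ, QSN). `p₁ ≠ w₁` for `p ∈ Ξ`: `x(x₁-z₁) = x(x₁)` implies `x₁-z₁ = ±x₁`,
so `z₁ = 0` (no, NT) or `x₁ - z₁ = -x₁`, `H₁(x₁) = H₁(x₁-z₁) ≤ εT`, but `H₁(x₁) ≥ hx(x₁)-c₀ ≥ gg(x)-c₀ ≥ dT-c₀`.
`IP τ w Ξ`: for `Ξ' ⊂ Ξ`, `F ∈ BD(k)` with `F|Ξ' = 0`, `F(w) ≠ 0`, `S = {z : κ(x-z) ∈ Ξ'}`: MI (`smax = t R2`,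
`kmax = ⌈τ t R2⌉`; `x` affine, `hh x ≤ 3T+2c₀ ≤ 5T`, `hh(x-z) ≤ εT+2c₀`) gives `|S| d ≤ 12(k+1)` if
`k ≤ kmax`; trivial if `k > kmax`. ST: the set `P` of `≤ t₀` curves; each `T''_j` has `≥ R2 - R' > t₀M₃` points
on the curves of `P`, so (`P` is nonempty and) some `Φ_j ∈ P` contains `κ(x-z)` for `≥ M₃` points `z ∈ T''_j`;
two of the `t₀+1` levels have the same curve. Assume MI, ST, THIN, XEQ, QSN. -/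
def GEO : Prop := ∀ (K : Type) [Field K] [NumberField K] [DecidableEq K] (W₁ W₂ : Affine K)
  [W₁.IsElliptic] [W₂.IsElliptic] (H₁ : W₁.Point → ℝ) (H₂ : W₂.Point → ℝ) (c₀ : ℝ),
  CanH W₁ H₁ c₀ → CanH W₂ H₂ c₀ → ∀ d : ℝ, 0 < d → ∃ m t : ℕ, ∀ M₃ : ℕ,
  ∃ ε : ℝ, 0 < ε ∧ ∃ (T₀ : ℝ) (R1 : ℕ), 1 ≤ R1 ∧ ∀ T : ℝ, T₀ ≤ T →
    ∀ B : Finset (W₁.Point × W₂.Point), BallH H₁ H₂ d ε T B →
    ∀ (Kc K0 : ℝ), 2 ≤ Kc → 1 ≤ K0 → ∀ (x : W₁.Point × W₂.Point)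
      (Tc : Fin t → Finset (W₁.Point × W₂.Point)),
      Chain (fun z => √(H₁ z.1 + H₂ z.2)) B t Kc K0 R1 x Tc →
    ∃ (i j : Fin t) (S S' : Finset (W₁.Point × W₂.Point)) (Φ : K[X][Y]), i < j ∧ S ⊆ Tc i ∧
      S' ⊆ Tc j ∧ M₃ ≤ S.card ∧ M₃ ≤ S'.card ∧ Irreducible Φ ∧ BD m Φ ∧
      (∀ z ∈ S, NT (x - z) ∧ ev Φ (kap (x - z)) = 0) ∧
      (∀ z ∈ S', NT (x - z) ∧ ev Φ (kap (x - z)) = 0) ∧
      (∀ z ∈ S, ∀ z' ∈ S, z ≠ z' → NT (z - z') ∧ kap (x - z) ≠ kap (x - z')) ∧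
      (∀ z ∈ S', ∀ z' ∈ S', z ≠ z' → NT (z - z') ∧ kap (x - z) ≠ kap (x - z'))

/-- CRV. The curve of GEO is stable: `Φ ∣ T_{z-z'}Φ` for `z ≠ z' ∈ S'`, and both degrees are positive.
`M₃ = max(2m³+1, q, 3)`. GP with the points `κ(x-z)`, `z ∈ S`, of height `≤ L²+2c₀`, `L = max_{z∈S} nrm(x-z)`;
`u = x-z`, `v = z-z'`, `u+v = x-z'`. If `Φ ∤ T_vΦ`: `hh u ≤ C(L²+2c₀+hh v+1)`, so `nrm(u)² ≤ C'(L²+nrm(v)²+1)`;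
but `Kc L ≤ nrm u` (sep), `Kc nrm v ≤ nrm u` (clust), `K0 ≤ nrm u`: contradiction if `Kc = K0`, `Kc² > 3C'`.
Degrees: if `deg_Y Φ = 0` then `Φ ~ X - ξ` with `ξ = x(x₁-z₁)` for all `z ∈ S'`, so `x₁-z₁ ∈ {±R}`: at most two
values of `z₁`; but the `z₁` are pairwise different and `|S'| ≥ 3`. Same for `X`. Assume GEO, GP, XEQ, QSN. -/
def CRV : Prop := ∀ (K : Type) [Field K] [NumberField K] [DecidableEq K] (W₁ W₂ : Affine K)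
  [W₁.IsElliptic] [W₂.IsElliptic] (H₁ : W₁.Point → ℝ) (H₂ : W₂.Point → ℝ) (c₀ : ℝ),
  CanH W₁ H₁ c₀ → CanH W₂ H₂ c₀ → ∀ d : ℝ, 0 < d → ∃ m t : ℕ, ∀ q : ℕ,
  ∃ ε : ℝ, 0 < ε ∧ ∃ (T₀ : ℝ) (R1 : ℕ) (Kc K0 : ℝ), 1 ≤ R1 ∧ 1 ≤ Kc ∧ 1 ≤ K0 ∧ ∀ T : ℝ, T₀ ≤ T →
    ∀ B : Finset (W₁.Point × W₂.Point), BallH H₁ H₂ d ε T B →
    ∀ (x : W₁.Point × W₂.Point) (Tc : Fin t → Finset (W₁.Point × W₂.Point)),
      Chain (fun z => √(H₁ z.1 + H₂ z.2)) B t Kc K0 R1 x Tc →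
    ∃ (S : Finset (W₁.Point × W₂.Point)) (Φ : K[X][Y]), S ⊆ B ∧ q ≤ S.card ∧
      Irreducible Φ ∧ BD m Φ ∧ PosDeg Φ ∧
      ∀ z ∈ S, ∀ z' ∈ S, z ≠ z' → NT (z - z') ∧
        Φ ∣ Tr W₁ W₂ m Φ (xc (z - z').1) (xc (z - z').2)

/-- STB. A stable curve forces degenerate points.
Fix `z⁰ ∈ S`. SPEC: `≥ (|S|-1)/16` of the `z ∈ S∖z⁰` have the same `cl(z-z⁰)`: set `S₁`, and
`Φ ∣ T_{n(z-z')}Φ` for `z ≠ z' ∈ S₁`, `n ≥ 1`. Take `z* ∈ S₁`. If `Φ ∣ T_{nz*}Φ` for `n = 1..17`, two of the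
`nz*` have the same class, so for some `1 ≤ k ≤ 16` `Φ ∣ T_{nkz*}Φ` for all `n ≥ 1`, and the nonzero `F ∈ FF` of
KP vanishes at all `κ(nkz*)`: `Deg (8m) z*`, contradiction. So for some `n ≤ 17` and `F ∈ FF`:
`F(κ(nz*)) ≠ 0`, and `F(κ(n(z*-z))) = 0` for `z ∈ S₁∖z*`. SUB: `H ∈ BD(8mD_n)`, `H(κ(z*)) ≠ 0`,
`H(κ(z*-z)) = 0`. MI with base point `z*` and the points `S₁∖z*` (a subset of the size needed; heights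
`hh(z*-z) ≤ εT+2c₀`): `(|S₁|-1) d ≤ 12(8mD_n+1)`; `q` is chosen to contradict this. Assume SPEC, KP, SUB, MI. -/
def STB : Prop := ∀ (K : Type) [Field K] [NumberField K] [DecidableEq K] (W₁ W₂ : Affine K)
  [W₁.IsElliptic] [W₂.IsElliptic] (H₁ : W₁.Point → ℝ) (H₂ : W₂.Point → ℝ) (c₀ : ℝ),
  CanH W₁ H₁ c₀ → CanH W₂ H₂ c₀ → ∀ (d : ℝ) (m : ℕ), 0 < d →
  ∃ (q : ℕ) (ε : ℝ), 0 < ε ∧ ∃ T₀ : ℝ, ∀ T : ℝ, T₀ ≤ T →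
    ∀ B : Finset (W₁.Point × W₂.Point), BallH H₁ H₂ d ε T B → (∀ z ∈ B, ¬ Deg (8 * m) z) →
    ∀ (S : Finset (W₁.Point × W₂.Point)) (Φ : K[X][Y]), S ⊆ B → q ≤ S.card →
      Irreducible Φ → BD m Φ → PosDeg Φ →
      (∀ z ∈ S, ∀ z' ∈ S, z ≠ z' → NT (z - z') ∧
        Φ ∣ Tr W₁ W₂ m Φ (xc (z - z').1) (xc (z - z').2)) → False

/-- BALL. One small ball: CRV and STB show that `B` has no chain; CHAIN (for `G = W₁(K) × W₂(K)`,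
`H z = H₁ z.1 + H₂ z.2`, finite balls by NOR, `ρ = max(1, √(εT))`). Assume CRV, STB, CHAIN, NOR. -/
def BALL : Prop := ∀ (K : Type) [Field K] [NumberField K] [DecidableEq K] (W₁ W₂ : Affine K)
  [W₁.IsElliptic] [W₂.IsElliptic] (H₁ : W₁.Point → ℝ) (H₂ : W₂.Point → ℝ) (c₀ : ℝ),
  CanH W₁ H₁ c₀ → CanH W₂ H₂ c₀ → ∀ (Γ₁ : AddSubgroup W₁.Point) (Γ₂ : AddSubgroup W₂.Point),
  Γ₁.FG → Γ₂.FG → ∀ d : ℝ, 0 < d → ∃ (D : ℕ) (ε : ℝ), 0 < ε ∧ ∃ T₀ C : ℝ, 0 ≤ C ∧ 1 ≤ T₀ ∧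
    ∀ T : ℝ, T₀ ≤ T → ∀ B : Finset (W₁.Point × W₂.Point), (∀ z ∈ B, z.1 ∈ Γ₁ ∧ z.2 ∈ Γ₂) →
    BallH H₁ H₂ d ε T B → (∀ z ∈ B, ¬ Deg D z) → (B.card : ℝ) ≤ C * (1 + Real.log T)

/-- MAIN (Theorem P). If all points of `W₁(K)` (or of `W₂(K)`) are torsion: `hx z.1` is bounded (NOR),
`gg z ≤ hx z.1`, so `δ max ≤ C`, finitely many bad points: `Z = 1`. Otherwise `D` from BALL for
`d = δ/2`, ND and ZP give `Z`. For `T' = 2^j ≥ T₁` the bad points with `T'/2 < max(hx z.1, hx z.2) ≤ T'` have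
`gg z ≥ (δ/2)T'`, `H₁+H₂ ≤ 2T'+2c₀ ≤ 3T'`; PACK splits them into a bounded number of sets with
`H(z-z') ≤ εT'`, each `≤ C(1+log T')`. Sum over `j ≤ 1+log₂ T`; the points with `max ≤ T₁` are
finitely many. Assume CAN, QSN, NOR, PACK, BALL, ND, ZP. -/
def MAIN : Prop := ∀ (K : Type) [Field K] [NumberField K] [DecidableEq K] (W₁ W₂ : Affine K)
  [W₁.IsElliptic] [W₂.IsElliptic] (Γ₁ : AddSubgroup W₁.Point) (Γ₂ : AddSubgroup W₂.Point),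
  Γ₁.FG → Γ₂.FG → ∀ δ : ℝ, 0 < δ → ∃ (Z : K[X][Y]) (C : ℝ), Z ≠ 0 ∧ ∀ T : ℝ, 2 ≤ T →
    ∀ B : Finset (W₁.Point × W₂.Point),
    (∀ z ∈ B, z.1 ∈ Γ₁ ∧ z.2 ∈ Γ₂ ∧ Aff z ∧ ev Z (kap z) ≠ 0 ∧ hx z.1 ≤ T ∧ hx z.2 ≤ T ∧
      δ * max (hx z.1) (hx z.2) ≤ gg z) → (B.card : ℝ) ≤ C * Real.log T ^ 2

/-- COR. Finitely many centres, with multiplicities: weights `μ(a) ≥ 0` for the points `a` of a finite
set `S`. If `Σ μ(a) ½ gg(z-a) > δ hh z`: some `a` has `½ μ gg(z-a) ≥ (δ/|S|) hh z`, `μ = max μ(a)`; and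
`hx(z_i - a_i) ≤ 2 hx(z_i) + c` (PAR), so with `M = max(hx(z-a)_1, hx(z-a)_2) ≤ 2 hh z + c`:
`gg(z-a) ≥ (2δ/(μ|S|)) hh z ≥ (δ/(μ|S|))(M - c) ≥ (δ/(2μ|S|)) M` if `M ≥ 2c`. Apply MAIN to the points
`z-a`, with `T' = 4T+c+2`; finitely many points with `M < 2c` (NOR). Assume MAIN, PAR, NOR. -/
def COR : Prop := ∀ (K : Type) [Field K] [NumberField K] [DecidableEq K] (W₁ W₂ : Affine K)
  [W₁.IsElliptic] [W₂.IsElliptic] (Γ₁ : AddSubgroup W₁.Point) (Γ₂ : AddSubgroup W₂.Point),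
  Γ₁.FG → Γ₂.FG → ∀ (S : Finset (W₁.Point × W₂.Point)), (∀ a ∈ S, a.1 ∈ Γ₁ ∧ a.2 ∈ Γ₂) →
  ∀ μ : W₁.Point × W₂.Point → ℝ, ∀ δ : ℝ, 0 < δ → ∃ (Z : K[X][Y]) (C : ℝ), Z ≠ 0 ∧
    ∀ T : ℝ, 2 ≤ T → ∀ B : Finset (W₁.Point × W₂.Point),
    (∀ z ∈ B, z.1 ∈ Γ₁ ∧ z.2 ∈ Γ₂ ∧ hx z.1 ≤ T ∧ hx z.2 ≤ T ∧
      (∀ a ∈ S, Aff (z - a) ∧ ev Z (kap (z - a)) ≠ 0) ∧
      δ * hh z < ∑ a ∈ S, μ a * (gg (z - a) / 2)) → (B.card : ℝ) ≤ C * Real.log T ^ 2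

end

end Pool.Agent.Helper29.BL
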