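import Pool.Agent.Helper29.BL.Defs

/-!
# Project BL, goals E: products of `n ≥ 2` elliptic curves, general heights
-/

namespace Pool.Agent.Helper29.BL

open WeierstrassCurve Height Height.AdmissibleAbsValues Polynomial
open scoped Polynomial.Bivariate

noncomputable section

variable {K : Type} [Field K] [AdmissibleAbsValues K] {n : ℕ} {W : Fin n → Affine K}

/-- The height of the exceptional curve over the origin: `½ Σ_v min_i log⁺|x(z_i)|_v`. -/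
def hE (z : ∀ i, (W i).Point) : ℝ := PS (fun v => ⨅ i, Real.posLog (v (xc (z i)))) / 2

/-- `Σ_i h(x(z_i))` -/
def hL (z : ∀ i, (W i).Point) : ℝ := ∑ i, hx (z i)

/-- NDIM. The `n`-dimensional form, `n ≥ 2`.
Some `a ∈ S` has `|μ(a)| hE(z-a) ≥ (δ/|S|) hL z` (`S` is nonempty if there is a bad point). With `y = z-a`:
`hx(y_i) ≤ 2 hx(z_i)+c` (PAR), so if `M = max_i hx(y_i) ≥ 2c'` then `PS(min_i log⁺|x(y_i)|) ≥ δ' M`, and for
every pair `i ≠ j`: `δ' max(hx y_i, hx y_j) ≤ PS(min_i ..) ≤ gg(y_i,y_j)`. MAIN for `W_i, W_j`, `Γ_i, Γ_j`, `δ'`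
gives `Z_ij ≠ 0`, `C_ij`; `Z = ∏ Z_ij(X_i,X_j)` (over the pairs `(0,1),(2,3),..`, and `(n-2,n-1)` if `n` is
odd): the number of `(y_i,y_j)` is `≤ C_ij (log T')²`, `T' = 2T+c+2`, so the number of `y` is at most the
product over the `⌈n/2⌉` pairs. The points with `M < 2c'` are finitely many (NOR).
(`gg` of a pair of coordinates: `MAIN` is stated for `W₁.Point × W₂.Point`.) Assume MAIN, PAR, NOR. -/
def NDIM : Prop := ∀ (K : Type) [Field K] [NumberField K] [DecidableEq K] (n : ℕ), 2 ≤ n →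
  ∀ (W : Fin n → Affine K) [∀ i, (W i).IsElliptic] (Γ : ∀ i, AddSubgroup (W i).Point),
  (∀ i, (Γ i).FG) → ∀ (S : Finset (∀ i, (W i).Point)), (∀ a ∈ S, ∀ i, a i ∈ Γ i) →
  ∀ μ : (∀ i, (W i).Point) → ℝ, ∀ δ : ℝ, 0 < δ →
  ∃ (Z : MvPolynomial (Fin n) K) (C : ℝ), Z ≠ 0 ∧ ∀ T : ℝ, 2 ≤ T →
    ∀ B : Finset (∀ i, (W i).Point),
    (∀ z ∈ B, (∀ i, z i ∈ Γ i) ∧ hL z ≤ T ∧
      (∀ a ∈ S, (∀ i, z i ≠ a i) ∧ MvPolynomial.eval (fun i => xc (z i - a i)) Z ≠ 0) ∧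
      δ * hL z < ∑ a ∈ S, μ a * hE (z - a)) →
    (B.card : ℝ) ≤ C * Real.log T ^ (2 * ((n + 1) / 2))

/-- FIN. Vojta's inequality for heights with the standard properties: `hK` (the height of
`K_X(D)`) is bounded by a multiple of the sum of the `hE(z-a)`; `hN ≥ 0`; `hH` (a big height) is bounded
below by a positive multiple of `hL` outside `Z₀ = 0`.
Bad points: `C + δ hH z + hN z < hK z ≤ C₀ Σ hE(z-a) + C₀`. Take `C = C₀ + δ C₀`: then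
`δ c₀ hL z < C₀ Σ hE(z-a)`, and NDIM with `μ = C₀` (or `|C₀|`), `δ c₀`. `Z = Z₀ Z₁`, and `insert 0 S` as set
of centres for the excluded set. Assume NDIM. -/
def FIN : Prop := ∀ (K : Type) [Field K] [NumberField K] [DecidableEq K] (n : ℕ), 2 ≤ n →
  ∀ (W : Fin n → Affine K) [∀ i, (W i).IsElliptic] (Γ : ∀ i, AddSubgroup (W i).Point),
  (∀ i, (Γ i).FG) → ∀ (S : Finset (∀ i, (W i).Point)), (∀ a ∈ S, ∀ i, a i ∈ Γ i) →
  ∀ (Z₀ : MvPolynomial (Fin n) K) (hK hN hH : (∀ i, (W i).Point) → ℝ) (c₀ C₀ : ℝ), Z₀ ≠ 0 →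
  0 < c₀ → (∀ z, z ∉ S → hK z ≤ C₀ * ∑ a ∈ S, hE (z - a) + C₀) → (∀ z, 0 ≤ hN z) →
  (∀ z, MvPolynomial.eval (fun i => xc (z i)) Z₀ ≠ 0 → c₀ * hL z - C₀ ≤ hH z) →
  ∀ δ : ℝ, 0 < δ →
  ∃ (Z : MvPolynomial (Fin n) K) (C : ℝ), Z ≠ 0 ∧ ∀ T : ℝ, 2 ≤ T →
    ∀ B : Finset (∀ i, (W i).Point),
    (∀ z ∈ B, (∀ i, z i ∈ Γ i) ∧ hL z ≤ T ∧
      (∀ a, a = 0 ∨ a ∈ S → (∀ i, z i ≠ a i) ∧
        MvPolynomial.eval (fun i => xc (z i - a i)) Z ≠ 0) ∧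
      hN z + δ * hH z + C < hK z) →
    (B.card : ℝ) ≤ C * Real.log T ^ (2 * ((n + 1) / 2))

end

end Pool.Agent.Helper29.BL
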