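import Pool.Agent.Helper29.BL.Defs
import Pool.Agent.Helper29.BL.GoalsC
import Pool.Agent.Helper29.BL.GoalsD
import Pool.Agent.Helper29.BL.GoalsE

/-!
# Project BL, second round (goals F): elliptic curves and multiplicative groups

The same theorem for products of one-dimensional groups `W_i(K)` (nonsingular points of Weierstrass
cubics) which carry a height function with the properties `GH` and the packing property `Pk`: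
elliptic curves and the nodal cubic `y² + xy = x³`, whose group of nonsingular points is `Kˣ`.
The names are those of goals C, D, E with a final `g`; the proofs are the same (see the docstrings
there and the landed files), with `IsElliptic` removed and `CanH` replaced by `GH`.
-/

namespace Pool.Agent.Helper29.BL

open WeierstrassCurve Height Height.AdmissibleAbsValues Polynomial
open scoped Polynomial.Bivariate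

noncomputable section

/-- A height function on `W(K)` with growth exponent `e`. -/
structure GH {K : Type} [Field K] [AdmissibleAbsValues K] [DecidableEq K] (W : Affine K)
    (H : W.Point → ℝ) (c₀ : ℝ) (e : ℕ) : Prop where
  exp_pos : 1 ≤ e
  nonneg : ∀ P, 0 ≤ H P
  neg : ∀ P, H (-P) = H P
  tri : ∀ P Q, √(H (P + Q)) ≤ √(H P) + √(H Q)
  mul : ∀ (n : ℕ) P, H (n • P) = (n : ℝ) ^ e * H P
  near : ∀ P, |H P - hx P| ≤ c₀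

/-- The packing property of a subgroup with respect to `√H`. -/
def Pk {G : Type} [AddCommGroup G] (Γ : AddSubgroup G) (H : G → ℝ) : Prop :=
  ∀ κ : ℝ, 1 ≤ κ → ∃ N : ℕ, ∀ (B : Finset G), (∀ z ∈ B, z ∈ Γ) →
    ∀ ρ : ℝ, 0 < ρ → (∀ z ∈ B, ∀ z' ∈ B, √(H (z - z')) ≤ κ * ρ) →
    ∃ f : G → Fin N, ∀ z ∈ B, ∀ z' ∈ B, f z = f z' → √(H (z - z')) ≤ ρ

/-- The nodal cubic `y² + xy = x³`. -/
def nodal (K : Type) [Field K] : Affine K := ⟨1, 0, 0, 0, 0⟩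

/-! ## The two kinds of groups -/

/-- GHE. Elliptic curves: `e = 2` (CAN, QSN). -/
def GHE : Prop := ∀ (K : Type) [Field K] [NumberField K] [DecidableEq K] (W : Affine K)
  [W.IsElliptic] (Γ : AddSubgroup W.Point), Γ.FG → ∃ (H : W.Point → ℝ) (c₀ : ℝ),
    GH W H c₀ 2 ∧ Pk Γ H

/-- NISO. The group of the nodal cubic. `ψ(0) = 1`, `ψ(x,y) = (x+y)/y`; conversely
`u ↦ (u/(u-1)², u/(u-1)³)` for `u ≠ 1`. (Nonsingular points `≠ 0` have `x ≠ 0`, `y ≠ 0`, `x + y ≠ 0`; with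
`t = y/x`, `x = t²+t`, `u = (t+1)/t`.) Multiplicativity: chord and tangent computation; it may be
easier to prove that the inverse map is additive, or to use `x(P+Q)`, `y(P+Q)` formulas for
`P = P(u)`, `Q = P(v)`: the cases `u = v`, `uv = 1`, general. -/
def NISO : Prop := ∀ (K : Type) [Field K] [DecidableEq K],
  ∃ ψ : (nodal K).Point ≃+ Additive Kˣ, ∀ P, P ≠ 0 →
    ((ψ P).toMul : K) ≠ 1 ∧ xc P = ((ψ P).toMul : K) / (((ψ P).toMul : K) - 1) ^ 2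

/-- GHN. The nodal cubic: `H(P) = 2 h(u)`, `u = ψ(P)`, `e = 1`. `logHeight₁_inv`, `logHeight₁_mul_le`,
`logHeight₁_pow`. `near`: `1/x = u + 1/u - 2`, so `h(x) = h(1/x) ≤ h(u+1/u) + c ≤ 2h(u) + c'`
(`logHeight₁_add_le`), and `2h(u) = h(u)+h(1/u) ≤ logHeight ![1, u+1/u, 1] + c` (`abs_logHeight_sym2_sub_le`
for `![u,1]`, `![1/u,1]`) `= h(u+1/u) + c ≤ h(1/x) + c'`. Packing: let `Γ` be generated by finitely many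
`u_i`, `M` the number of archimedean places (with multiplicity) plus the number of nonarchimedean
places at which some `|u_i| ≠ 1`. For `w ∈ Γ`: `|log|w|_v| ≤ h(w)` at these places, and
`h(w) ≤ Σ |log|w|_v|` over these places. Cells: `⌊log|u|_v 2M/ρ²⌋` relative to a base point:
at most `(κ²M+3)^M` cells; in a cell `2h(u/u') ≤ 2 M ρ²/(2M) = ρ²`. Assume NISO. -/
def GHN : Prop := ∀ (K : Type) [Field K] [NumberField K] [DecidableEq K]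
  (Γ : AddSubgroup (nodal K).Point), Γ.FG → ∃ (H : (nodal K).Point → ℝ) (c₀ : ℝ),
    GH (nodal K) H c₀ 1 ∧ Pk Γ H

/-! ## Round C without `IsElliptic` -/

/-- PEXg. A transcendental `a` is the `x`-coordinate of a nonsingular point: solve the equation for
`y`; a singular point satisfies `2y+a₁a+a₃ = 0` and `3a²+2a₂a+a₄-a₁y = 0`, so
`6a²+4a₂a+2a₄+a₁(a₁a+a₃) = 0`, a nonzero polynomial relation over `K` (characteristic `0`). -/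
def PEXg : Prop := ∀ (K : Type) [Field K] [CharZero K] (Ω : Type) [Field Ω] [Algebra K Ω]
  [IsAlgClosed Ω] (W : Affine K) (a : Ω), Transcendental K a →
  ∃ P : (bcW Ω W).Point, P ≠ 0 ∧ xc P = a

/-- ALGg. ALG without `IsElliptic` (not needed in the proof, see ALG.lean). -/
def ALGg : Prop := ∀ (K : Type) [Field K] [CharZero K] (Ω : Type) [Field Ω] [DecidableEq Ω]
  [Algebra K Ω] (L : IntermediateField K Ω) (W : Affine K),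
  (∀ P Q : (bcW Ω W).Point, IsAlgebraic L (xc P) → IsAlgebraic L (xc Q) →
    IsAlgebraic L (xc (P + Q))) ∧
  (∀ P : (bcW Ω W).Point, P + P = 0 → IsAlgebraic L (xc P))

/-- SPECg. SPEC without `IsElliptic`. From GEN, AUT, PEXg, EMB, ALGg, T2, TMAP, XEQ. -/
def SPECg : Prop := ∀ (K : Type) [Field K] [CharZero K] [DecidableEq K] (W₁ W₂ : Affine K)
  (m : ℕ) (Φ : K[X][Y]), BD m Φ → Irreducible Φ → PosDeg Φ →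
  ∃ cl : W₁.Point × W₂.Point → Fin 16, ∀ y y' : W₁.Point × W₂.Point, NT y → NT y' → NT (y - y') →
    Φ ∣ Tr W₁ W₂ m Φ (xc y.1) (xc y.2) → Φ ∣ Tr W₁ W₂ m Φ (xc y'.1) (xc y'.2) → cl y = cl y' →
    ∀ n : ℕ, 1 ≤ n →
      Φ ∣ Tr W₁ W₂ m Φ (xc (n • (y - y')).1) (xc (n • (y - y')).2)

/-- KPg. KP without `IsElliptic`. From GEN, PEXg, ALGg, T2, TMAP, TDEG, XEQ. -/
def KPg : Prop := ∀ (K : Type) [Field K] [CharZero K] [DecidableEq K] (W₁ W₂ : Affine K)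
  (m : ℕ) (Φ : K[X][Y]), BD m Φ → Irreducible Φ → PosDeg Φ →
  ∃ FF : Set K[X][Y], (∀ F ∈ FF, BD (8 * m) F) ∧ (∃ F ∈ FF, F ≠ 0) ∧
    ∀ a b : K, (∀ F ∈ FF, ev F (a, b) = 0) ↔ Φ ∣ Tr W₁ W₂ m Φ a b

/-- NORg. Finitely many points with bounded `H`; `H P = 0` iff `P` is torsion (`mul`). -/
def NORg : Prop := ∀ (K : Type) [Field K] [NumberField K] [DecidableEq K] (W : Affine K)
  (H : W.Point → ℝ) (c₀ : ℝ) (e : ℕ), GH W H c₀ e →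
    (∀ B : ℝ, {P : W.Point | H P ≤ B}.Finite) ∧ (∀ P, H P = 0 ↔ Tor P)

/-- NDg. Nondegenerate points. As ND: `F(κ(nkz)) = 0` for all `n`, `z = (P₀, bQ₀)`. RH for `F` (and for `F` with
`X, Y` exchanged) gives for large `n`, with `G_i(n) = H_i` of the multiples:
`(nkb)^{e₂}H₂(Q₀) ≤ d (nk)^{e₁}H₁(P₀) + C` and `(nk)^{e₁}H₁(P₀) ≤ d (nkb)^{e₂} H₂(Q₀) + C`. If `e₁ = e₂` choose `b`
with `b^{e₂}H₂(Q₀) > dH₁(P₀)`; if `e₂ > e₁` the first, if `e₁ > e₂` the second inequality is false for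
large `n` (any `b`, `b = 1`). Assume NORg, RH, XEQ. -/
def NDg : Prop := ∀ (K : Type) [Field K] [NumberField K] [DecidableEq K] (W₁ W₂ : Affine K)
  (H₁ : W₁.Point → ℝ) (H₂ : W₂.Point → ℝ) (c₀ : ℝ) (e₁ e₂ : ℕ), GH W₁ H₁ c₀ e₁ → GH W₂ H₂ c₀ e₂ →
  ∀ (d : ℕ) (z : W₁.Point × W₂.Point), NT z → ∃ b : ℕ, 1 ≤ b ∧ ¬ Deg d (z.1, b • z.2)

/-- ZPg. ZP: only the finiteness of the torsion points is needed (NORg). Assume MUL, NORg. -/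
def ZPg : Prop := ∀ (K : Type) [Field K] [NumberField K] [DecidableEq K] (W₁ W₂ : Affine K)
  (H₁ : W₁.Point → ℝ) (H₂ : W₂.Point → ℝ) (c₀ : ℝ) (e₁ e₂ : ℕ), GH W₁ H₁ c₀ e₁ → GH W₂ H₂ c₀ e₂ →
  ∀ (d : ℕ) (z₀ : W₁.Point × W₂.Point), NT z₀ → ¬ Deg d z₀ →
  ∃ Z : K[X][Y], Z ≠ 0 ∧ ∀ z : W₁.Point × W₂.Point, Aff z → ev Z (kap z) ≠ 0 →
    NT z ∧ ¬ Deg d z

/-! ## Round D -/

/-- CHAINg. CHAIN for a function `H` such that `√H` satisfies the triangle inequality, `H(-x) = H(x)`,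
with packing property for `Γ`. Same proof as CHAIN. -/
def CHAINg : Prop := ∀ (G : Type) [AddCommGroup G] [DecidableEq G] (Γ : AddSubgroup G)
  (H : G → ℝ), (∀ x, 0 ≤ H x) → (∀ x, H (-x) = H x) → (∀ x y, √(H (x + y)) ≤ √(H x) + √(H y)) →
  (∀ B : ℝ, {x : G | H x ≤ B}.Finite) → Pk Γ H →
  ∀ (t : ℕ) (Kc K0 : ℝ) (R1 : ℕ), 1 ≤ Kc → 1 ≤ K0 → 1 ≤ R1 → ∃ C : ℝ, 0 ≤ C ∧
  ∀ B : Finset G, (∀ z ∈ B, z ∈ Γ) → (∀ (x : G) (T : Fin t → Finset G),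
    ¬ Chain (fun z => √(H z)) B t Kc K0 R1 x T) →
  ∀ ρ : ℝ, 1 ≤ ρ → (∀ z ∈ B, ∀ z' ∈ B, √(H (z - z')) ≤ ρ) →
    (B.card : ℝ) ≤ C * (1 + Real.log ρ)

/-- THINg (with TOR). As TOR and THIN. Assume VF, NORg, GRD, XEQ. -/
def THINg : Prop := ∀ (K : Type) [Field K] [NumberField K] [DecidableEq K] (W₁ W₂ : Affine K)
  (H₁ : W₁.Point → ℝ) (H₂ : W₂.Point → ℝ) (c₀ : ℝ) (e₁ e₂ : ℕ), GH W₁ H₁ c₀ e₁ → GH W₂ H₂ c₀ e₂ →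
  ∀ d : ℝ, 0 < d → ∀ R2 : ℕ,
  ∃ ε : ℝ, 0 < ε ∧ ∃ (T₀ : ℝ) (R1 : ℕ), 1 ≤ R1 ∧ ∀ T : ℝ, T₀ ≤ T →
    ∀ B : Finset (W₁.Point × W₂.Point), BallH H₁ H₂ d ε T B → ∀ x ∈ B, ∀ T' ⊆ B, T'.card = R1 →
    ∃ T'' ⊆ T', T''.card = R2 ∧ (∀ z ∈ T'', NT (x - z)) ∧
      ∀ z ∈ T'', ∀ z' ∈ T'', z ≠ z' → NT (z - z') ∧ kap (x - z) ≠ kap (x - z')

/-- CRVg (with GEO). As GEO and CRV. Assume MI, ST, THINg, GP, XEQ. -/
def CRVg : Prop := ∀ (K : Type) [Field K] [NumberField K] [DecidableEq K] (W₁ W₂ : Affine K)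
  (H₁ : W₁.Point → ℝ) (H₂ : W₂.Point → ℝ) (c₀ : ℝ) (e₁ e₂ : ℕ), GH W₁ H₁ c₀ e₁ → GH W₂ H₂ c₀ e₂ →
  ∀ d : ℝ, 0 < d → ∃ m t : ℕ, ∀ q : ℕ,
  ∃ ε : ℝ, 0 < ε ∧ ∃ (T₀ : ℝ) (R1 : ℕ) (Kc K0 : ℝ), 1 ≤ R1 ∧ 1 ≤ Kc ∧ 1 ≤ K0 ∧ ∀ T : ℝ, T₀ ≤ T →
    ∀ B : Finset (W₁.Point × W₂.Point), BallH H₁ H₂ d ε T B →
    ∀ (x : W₁.Point × W₂.Point) (Tc : Fin t → Finset (W₁.Point × W₂.Point)),
      Chain (fun z => √(H₁ z.1 + H₂ z.2)) B t Kc K0 R1 x Tc →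
    ∃ (S : Finset (W₁.Point × W₂.Point)) (Φ : K[X][Y]), S ⊆ B ∧ q ≤ S.card ∧
      Irreducible Φ ∧ BD m Φ ∧ PosDeg Φ ∧
      ∀ z ∈ S, ∀ z' ∈ S, z ≠ z' → NT (z - z') ∧
        Φ ∣ Tr W₁ W₂ m Φ (xc (z - z').1) (xc (z - z').2)

/-- STBg. As STB. Assume SPECg, KPg, SUB, MI. -/
def STBg : Prop := ∀ (K : Type) [Field K] [NumberField K] [DecidableEq K] (W₁ W₂ : Affine K)
  (H₁ : W₁.Point → ℝ) (H₂ : W₂.Point → ℝ) (c₀ : ℝ) (e₁ e₂ : ℕ), GH W₁ H₁ c₀ e₁ → GH W₂ H₂ c₀ e₂ →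
  ∀ (d : ℝ) (m : ℕ), 0 < d →
  ∃ (q : ℕ) (ε : ℝ), 0 < ε ∧ ∃ T₀ : ℝ, ∀ T : ℝ, T₀ ≤ T →
    ∀ B : Finset (W₁.Point × W₂.Point), BallH H₁ H₂ d ε T B → (∀ z ∈ B, ¬ Deg (8 * m) z) →
    ∀ (S : Finset (W₁.Point × W₂.Point)) (Φ : K[X][Y]), S ⊆ B → q ≤ S.card →
      Irreducible Φ → BD m Φ → PosDeg Φ →
      (∀ z ∈ S, ∀ z' ∈ S, z ≠ z' → NT (z - z') ∧
        Φ ∣ Tr W₁ W₂ m Φ (xc (z - z').1) (xc (z - z').2)) → False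

/-- BALLg. As BALL: CHAINg for `W₁(K) × W₂(K)`, `H z = H₁ z.1 + H₂ z.2` (triangle inequality: Minkowski in
`ℝ²`; `Pk` for the product: cells for `κ√2` and `ρ/√2` in both factors). Assume CRVg, STBg, CHAINg, NORg. -/
def BALLg : Prop := ∀ (K : Type) [Field K] [NumberField K] [DecidableEq K] (W₁ W₂ : Affine K)
  (H₁ : W₁.Point → ℝ) (H₂ : W₂.Point → ℝ) (c₀ : ℝ) (e₁ e₂ : ℕ), GH W₁ H₁ c₀ e₁ → GH W₂ H₂ c₀ e₂ →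
  ∀ (Γ₁ : AddSubgroup W₁.Point) (Γ₂ : AddSubgroup W₂.Point), Pk Γ₁ H₁ → Pk Γ₂ H₂ →
  ∀ d : ℝ, 0 < d → ∃ (D : ℕ) (ε : ℝ), 0 < ε ∧ ∃ T₀ C : ℝ, 0 ≤ C ∧ 1 ≤ T₀ ∧
    ∀ T : ℝ, T₀ ≤ T → ∀ B : Finset (W₁.Point × W₂.Point), (∀ z ∈ B, z.1 ∈ Γ₁ ∧ z.2 ∈ Γ₂) →
    BallH H₁ H₂ d ε T B → (∀ z ∈ B, ¬ Deg D z) → (B.card : ℝ) ≤ C * (1 + Real.log T)

/-- MAINg. As MAIN. Assume NORg, BALLg, NDg, ZPg, NOR (naive part). -/
def MAINg : Prop := ∀ (K : Type) [Field K] [NumberField K] [DecidableEq K] (W₁ W₂ : Affine K)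
  (H₁ : W₁.Point → ℝ) (H₂ : W₂.Point → ℝ) (c₀ : ℝ) (e₁ e₂ : ℕ), GH W₁ H₁ c₀ e₁ → GH W₂ H₂ c₀ e₂ →
  ∀ (Γ₁ : AddSubgroup W₁.Point) (Γ₂ : AddSubgroup W₂.Point), Pk Γ₁ H₁ → Pk Γ₂ H₂ →
  ∀ δ : ℝ, 0 < δ → ∃ (Z : K[X][Y]) (C : ℝ), Z ≠ 0 ∧ ∀ T : ℝ, 2 ≤ T →
    ∀ B : Finset (W₁.Point × W₂.Point),
    (∀ z ∈ B, z.1 ∈ Γ₁ ∧ z.2 ∈ Γ₂ ∧ Aff z ∧ ev Z (kap z) ≠ 0 ∧ hx z.1 ≤ T ∧ hx z.2 ≤ T ∧
      δ * max (hx z.1) (hx z.2) ≤ gg z) → (B.card : ℝ) ≤ C * Real.log T ^ 2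

/-! ## Round E -/

/-- NDIMg. As NDIM (`H(z-a) ≤ 2H(z)+2H(a)` from `tri` replaces PAR). Assume MAINg, NORg, XEQ. -/
def NDIMg : Prop := ∀ (K : Type) [Field K] [NumberField K] [DecidableEq K] (n : ℕ), 2 ≤ n →
  ∀ (W : Fin n → Affine K) (Γ : ∀ i, AddSubgroup (W i).Point),
  (∀ i, ∃ (H : (W i).Point → ℝ) (c₀ : ℝ) (e : ℕ), GH (W i) H c₀ e ∧ Pk (Γ i) H) →
  ∀ (S : Finset (∀ i, (W i).Point)), (∀ a ∈ S, ∀ i, a i ∈ Γ i) →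
  ∀ μ : (∀ i, (W i).Point) → ℝ, ∀ δ : ℝ, 0 < δ →
  ∃ (Z : MvPolynomial (Fin n) K) (C : ℝ), Z ≠ 0 ∧ ∀ T : ℝ, 2 ≤ T →
    ∀ B : Finset (∀ i, (W i).Point),
    (∀ z ∈ B, (∀ i, z i ∈ Γ i) ∧ hL z ≤ T ∧
      (∀ a ∈ S, (∀ i, z i ≠ a i) ∧ MvPolynomial.eval (fun i => xc (z i - a i)) Z ≠ 0) ∧
      δ * hL z < ∑ a ∈ S, μ a * hE (z - a)) →
    (B.card : ℝ) ≤ C * Real.log T ^ (2 * ((n + 1) / 2))

/-- FINg. As FIN, for factors which are elliptic curves or the multiplicative group.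
Assume NDIMg, GHE, GHN. -/
def FINg : Prop := ∀ (K : Type) [Field K] [NumberField K] [DecidableEq K] (n : ℕ), 2 ≤ n →
  ∀ (W : Fin n → Affine K), (∀ i, (W i).IsElliptic ∨ W i = nodal K) →
  ∀ (Γ : ∀ i, AddSubgroup (W i).Point), (∀ i, (Γ i).FG) →
  ∀ (S : Finset (∀ i, (W i).Point)), (∀ a ∈ S, ∀ i, a i ∈ Γ i) →
  ∀ (Z₀ : MvPolynomial (Fin n) K) (hK hN hH : (∀ i, (W i).Point) → ℝ) (c₀ C₀ : ℝ), Z₀ ≠ 0 →
  0 < c₀ → (∀ z, z ∉ S → hK z ≤ C₀ * ∑ a ∈ S, hE (z - a) + C₀) → (∀ z, 0 ≤ hN z) →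
  (∀ z, MvPolynomial.eval (fun i => xc (z i)) Z₀ ≠ 0 → c₀ * hL z - C₀ ≤ hH z) →
  ∀ δ : ℝ, 0 < δ →
  ∃ (Z : MvPolynomial (Fin n) K) (C : ℝ), Z ≠ 0 ∧ ∀ T : ℝ, 2 ≤ T →
    ∀ B : Finset (∀ i, (W i).Point),
    (∀ z ∈ B, (∀ i, z i ∈ Γ i) ∧ hL z ≤ T ∧
      (∀ a, a = 0 ∨ a ∈ S → (∀ i, z i ≠ a i) ∧
        MvPolynomial.eval (fun i => xc (z i - a i)) Z ≠ 0) ∧
      hN z + δ * hH z + C < hK z) →
    (B.card : ℝ) ≤ C * Real.log T ^ (2 * ((n + 1) / 2))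

end

end Pool.Agent.Helper29.BL
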