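import Pool.Agent.Helper29.BL.RH
namespace Pool.Agent.Helper29.BL
open WeierstrassCurve Height Height.AdmissibleAbsValues Polynomial
open scoped Polynomial.Bivariate

section
variable {K : Type} [Field K] {J : Type} [Fintype J] [DecidableEq J]

/-- The matrix used in CR. -/
lemma exists_matrix {ι : Type} (e : ι → J → K) (w f₀ : J → K)
    (h0 : ∀ i, ∑ j, f₀ j * e i j = 0) (hw : ∑ j, f₀ j * w j ≠ 0) :
    ∃ (A : Matrix J J K) (j₀ : J), A.det ≠ 0 ∧ A j₀ = w ∧
      (∀ r, r ≠ j₀ → (∃ i, A r = e i) ∨ ∃ j, A r = Pi.single j 1) ∧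
      ∀ i, e i ∈ Submodule.span K (A '' {r | r ≠ j₀}) := by
  classical
  obtain ⟨b₀, hb₀, -, hspan₀, hli₀⟩ := exists_linearIndepOn_id_extension
    (K := K) (s := (∅ : Set (J → K))) (t := Set.range e) (linearIndepOn_empty K id)
    (Set.empty_subset _)
  let φ : (J → K) →ₗ[K] K := ∑ j, f₀ j • LinearMap.proj j
  have hφ : ∀ x, φ x = ∑ j, f₀ j * x j := fun x => by simp [φ]
  have hle : Submodule.span K b₀ ≤ LinearMap.ker φ := by
    rw [Submodule.span_le]
    intro x hx
    obtain ⟨i, rfl⟩ := hb₀ hx
    rw [SetLike.mem_coe, LinearMap.mem_ker, hφ]; exact h0 i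
  have hwb : w ∉ Submodule.span K b₀ := by
    intro h
    have := hle h
    rw [LinearMap.mem_ker, hφ] at this
    exact hw this
  have hwb' : w ∉ b₀ := fun h => hwb (Submodule.subset_span h)
  have hli₁ : LinearIndepOn K id (insert w b₀) := hli₀.id_insert hwb
  let E : Set (J → K) := Set.range fun j : J => (Pi.single j 1 : J → K)
  obtain ⟨B, hBt, hsB, htB, hliB⟩ := exists_linearIndepOn_id_extension
    (K := K) hli₁ (t := insert w b₀ ∪ E) Set.subset_union_left
  have hspB : Submodule.span K B = ⊤ := by
    rw [eq_top_iff]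
    intro x _
    have hx : x = ∑ j, x j • (Pi.single j (1 : K) : J → K) := by
      ext k; simp [Finset.sum_apply, Pi.single_apply]
    rw [hx]
    refine Submodule.sum_mem _ fun j _ => Submodule.smul_mem _ _ ?_
    exact htB (Or.inr ⟨j, rfl⟩)
  have hliB' : LinearIndependent K (Subtype.val : B → (J → K)) := hliB
  let bas : Module.Basis B K (J → K) := Module.Basis.mk hliB' (by
    rw [Subtype.range_coe]; exact hspB.ge)
  have : Finite B := Module.Finite.finite_basis bas
  have := Fintype.ofFinite B
  have hcard : Fintype.card J = Fintype.card B := by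
    rw [← Module.finrank_eq_card_basis bas, Module.finrank_fintype_fun_eq_card]
  let eq : J ≃ B := Fintype.equivOfCardEq hcard
  let A : Matrix J J K := Matrix.of fun r => (eq r : J → K)
  have hAr : ∀ r, A r = (eq r : J → K) := fun r => rfl
  have hwB : w ∈ B := hsB (Set.mem_insert _ _)
  let j₀ : J := eq.symm ⟨w, hwB⟩
  have hj₀ : A j₀ = w := by rw [hAr]; simp [j₀]
  refine ⟨A, j₀, ?_, hj₀, ?_, ?_⟩
  · have hli : LinearIndependent K A.row := by
      have : A.row = fun r => ((eq r : B) : J → K) := rfl
      rw [this]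
      exact hliB'.comp eq eq.injective
    have := Matrix.linearIndependent_rows_iff_isUnit.mp hli
    rw [Matrix.isUnit_iff_isUnit_det] at this
    exact this.ne_zero
  · intro r hr
    have hne : (eq r : J → K) ≠ w := by
      intro h
      apply hr
      have h5 : eq r = ⟨w, hwB⟩ := Subtype.ext h
      have h6 : r = eq.symm ⟨w, hwB⟩ := by rw [← h5]; simp
      exact h6
    rcases hBt (eq r).2 with (h | h) | h
    · exact absurd h hne
    · obtain ⟨i, hi⟩ := hb₀ h
      exact Or.inl ⟨i, by rw [hAr]; exact hi.symm⟩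
    · obtain ⟨j, hj⟩ := h
      exact Or.inr ⟨j, by rw [hAr]; exact hj.symm⟩
  · intro i
    have h1 : e i ∈ Submodule.span K b₀ := hspan₀ ⟨i, rfl⟩
    refine Submodule.span_mono ?_ h1
    intro x hx
    have hxB : x ∈ B := hsB (Set.mem_insert_of_mem _ hx)
    refine ⟨eq.symm ⟨x, hxB⟩, ?_, by rw [hAr]; simp⟩
    intro h
    have : (⟨x, hxB⟩ : B) = ⟨w, hwB⟩ := eq.symm.injective h
    have : x = w := congrArg Subtype.val this
    exact hwb' (this ▸ hx)

end

theorem cr : CR := by
  classical
  intro K _ _ J _
  set n := Fintype.card J with hn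
  have hfac : (1 : ℝ) ≤ (n.factorial : ℝ) := by
    have := Nat.factorial_pos n
    exact_mod_cast this
  have htw : (0 : ℝ) ≤ totalWeight K * Real.log (n.factorial) :=
    mul_nonneg (Nat.cast_nonneg _) (Real.log_nonneg hfac)
  refine ⟨totalWeight K * Real.log (n.factorial) + n, by positivity, ?_⟩
  intro ι e H hH he w f₀ h0 hw
  obtain ⟨A, j₀, hdet, hAw, hrows, hspan⟩ := exists_matrix e w f₀ h0 hw
  set f : J → K := fun j => A.adjugate j j₀ with hf
  have hmul : ∀ r, ∑ j, f j * A r j = if r = j₀ then A.det else 0 := by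
    intro r
    have := congrFun (congrFun (Matrix.mul_adjugate A) r) j₀
    rw [Matrix.mul_apply, Matrix.smul_apply, Matrix.one_apply, smul_eq_mul] at this
    calc ∑ j, f j * A r j = ∑ j, A r j * A.adjugate j j₀ :=
          Finset.sum_congr rfl fun j _ => mul_comm _ _
      _ = _ := by rw [this]; split_ifs <;> simp
  have hfw : ∑ j, f j * w j ≠ 0 := by
    have := hmul j₀
    rw [if_pos rfl, hAw] at this
    rw [this]; exact hdet
  have hf0 : f ≠ 0 := by
    intro h; apply hfw; rw [h]; simp
  refine ⟨f, ?_, hfw, ?_⟩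
  · intro i
    let φ : (J → K) →ₗ[K] K := ∑ j, f j • LinearMap.proj j
    have hφ : ∀ x, φ x = ∑ j, f j * x j := fun x => by simp [φ]
    have hle : Submodule.span K (A '' {r | r ≠ j₀}) ≤ LinearMap.ker φ := by
      rw [Submodule.span_le]
      rintro _ ⟨r, hr, rfl⟩
      rw [SetLike.mem_coe, LinearMap.mem_ker, hφ, hmul r, if_neg hr]
    have := hle (hspan i)
    rwa [LinearMap.mem_ker, hφ] at this
  · -- height
    have hrow0 : ∀ r, A r ≠ 0 := by
      intro r hr
      exact hdet (Matrix.det_eq_zero_of_row_eq_zero r fun j => congrFun hr j)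
    set ρ : J → AbsoluteValue K ℝ → ℝ := fun r v => if r = j₀ then 1 else ⨆ j, v (A r j) with hρ
    have hρpos : ∀ r v, 0 < ρ r v := by
      intro r v
      simp only [hρ]; split_ifs
      · exact one_pos
      · exact iSup_abv_pos v (hrow0 r)
    have hloc : ∀ v : AbsoluteValue K ℝ, (⨆ j, v (f j)) ≤ cst v (n.factorial) * ∏ r, ρ r v := by
      intro v
      have : Nonempty J := ⟨j₀⟩
      refine ciSup_le fun j => ?_
      simp only [hf]
      rw [Matrix.adjugate_apply, Matrix.det_apply]
      refine abv_sum_le v _ _ (Finset.prod_nonneg fun r _ => (hρpos r v).le) (fun σ _ => ?_) ?_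
      · have hsign : v (Equiv.Perm.sign σ • ∏ i, (A.updateRow j₀ (Pi.single j 1)) (σ i) i) =
            v (∏ i, (A.updateRow j₀ (Pi.single j 1)) (σ i) i) := by
          rcases Int.units_eq_one_or (Equiv.Perm.sign σ) with h | h
          · rw [h, one_smul]
          · rw [h]; simp
        rw [hsign, map_prod]
        rw [← Equiv.prod_comp σ fun r => ρ r v]
        refine Finset.prod_le_prod (fun i _ => v.nonneg _) fun i _ => ?_
        by_cases hσ : σ i = j₀
        · rw [hσ, Matrix.updateRow_self]
          simp only [hρ, if_true]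
          rw [Pi.single_apply]; split_ifs <;> simp
        · rw [Matrix.updateRow_ne hσ]
          simp only [hρ, if_neg hσ]
          exact le_ciSup (f := fun j => v (A (σ i) j)) (Set.finite_range _).bddAbove i
      · rw [Finset.card_univ, Fintype.card_perm]
    have hFS : ∀ r, FS fun v => Real.log (ρ r v) := by
      intro r
      simp only [hρ]
      by_cases hr : r = j₀
      · simp only [if_pos hr, Real.log_one]; exact FS.zero
      · simp only [if_neg hr]; exact FS_log_iSup (hrow0 r)
    have hPS : ∀ r, PS (fun v => Real.log (ρ r v)) ≤ H := by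
      intro r
      simp only [hρ]
      by_cases hr : r = j₀
      · simp only [if_pos hr, Real.log_one]; rw [PS_zero]; exact hH
      · simp only [if_neg hr]
        rw [PS_log_iSup (hrow0 r)]
        rcases hrows r hr with ⟨i, hi⟩ | ⟨j, hj⟩
        · rw [hi]; exact he i
        · rw [hj, ← PS_log_iSup (by rw [← hj]; exact hrow0 r)]
          have : ∀ v : AbsoluteValue K ℝ, (⨆ k, v ((Pi.single j 1 : J → K) k)) = 1 := by
            intro v
            have : Nonempty J := ⟨j₀⟩
            refine le_antisymm (ciSup_le fun k => ?_) ?_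
            · rw [Pi.single_apply]; split_ifs <;> simp
            · have := le_ciSup (f := fun k => v ((Pi.single j 1 : J → K) k))
                (Set.finite_range _).bddAbove j
              simpa using this
          simp only [this, Real.log_one]
          rw [PS_zero]; exact hH
    have hlog : ∀ v : AbsoluteValue K ℝ, Real.log (⨆ j, v (f j)) ≤
        Real.log (cst v (n.factorial)) + ∑ r, Real.log (ρ r v) := by
      intro v
      rw [← Real.log_prod (fun r _ => (hρpos r v).ne'),
        ← Real.log_mul (cst_pos v hfac).ne' (Finset.prod_pos fun r _ => hρpos r v).ne']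
      exact Real.log_le_log (iSup_abv_pos v hf0) (hloc v)
    have h := PS_mono (FS_log_iSup hf0) ((FS_log_cst _).add (FS.sum Finset.univ fun r _ => hFS r))
      hlog
    rw [PS_log_iSup hf0, PS_add (FS_log_cst _) (FS.sum Finset.univ fun r _ => hFS r),
      PS_sum Finset.univ fun r _ => hFS r] at h
    have h1 := PS_log_cst (K := K) hfac
    have h2 : ∑ r, PS (fun v => Real.log (ρ r v)) ≤ n * H := by
      refine (Finset.sum_le_card_nsmul _ _ H fun r _ => hPS r).trans ?_
      rw [nsmul_eq_mul, Finset.card_univ]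
    nlinarith [Nat.cast_nonneg (α := ℝ) n]

end Pool.Agent.Helper29.BL
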