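import Pool.Agent.Helper29.BL.RH
import Pool.Agent.Helper29.BL.EIG
namespace Pool.Agent.Helper29.BL
open WeierstrassCurve Height Height.AdmissibleAbsValues Polynomial
open scoped Polynomial.Bivariate

section
variable {K : Type} [Field K]

/-- the polynomial with given coefficients -/
noncomputable def polyOf (k : ℕ) (f : Fin (k + 1) × Fin (k + 1) → K) : K[X][Y] :=
  ∑ ij, monomial (ij.2 : ℕ) (monomial (ij.1 : ℕ) (f ij))

lemma coeff_polyOf (k : ℕ) (f : Fin (k + 1) × Fin (k + 1) → K) (i j : ℕ) :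
    ((polyOf k f).coeff j).coeff i =
      if h : i ≤ k ∧ j ≤ k then f (⟨i, Nat.lt_succ_of_le h.1⟩, ⟨j, Nat.lt_succ_of_le h.2⟩)
      else 0 := by
  simp only [polyOf, finsetSum_coeff, coeff_monomial]
  have : ∀ ij : Fin (k + 1) × Fin (k + 1),
      (if (ij.2 : ℕ) = j then (monomial (ij.1 : ℕ)) (f ij) else 0).coeff i =
        if (ij.1 : ℕ) = i ∧ (ij.2 : ℕ) = j then f ij else 0 := by
    intro ij
    by_cases h2 : (ij.2 : ℕ) = j
    · rw [if_pos h2, coeff_monomial]; simp [h2]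
    · rw [if_neg h2]; simp [h2]
  simp only [this]
  split_ifs with h
  · rw [Finset.sum_eq_single
      ((⟨i, Nat.lt_succ_of_le h.1⟩, ⟨j, Nat.lt_succ_of_le h.2⟩) : Fin (k + 1) × Fin (k + 1))]
    · simp
    · intro b _ hb
      rw [if_neg]
      rintro ⟨h1, h2⟩
      exact hb (Prod.ext (Fin.ext h1) (Fin.ext h2))
    · intro h'; exact absurd (Finset.mem_univ _) h'
  · refine Finset.sum_eq_zero fun b _ => ?_
    rw [if_neg]
    rintro ⟨h1, h2⟩
    apply h
    constructor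
    · rw [← h1]; exact Nat.le_of_lt_succ b.1.2
    · rw [← h2]; exact Nat.le_of_lt_succ b.2.2

lemma BD_polyOf (k : ℕ) (f : Fin (k + 1) × Fin (k + 1) → K) : BD k (polyOf k f) := by
  constructor
  · rw [natDegree_le_iff_coeff_eq_zero]
    intro j hj
    ext i
    rw [coeff_polyOf, dif_neg (by omega)]; simp
  · intro j
    rw [natDegree_le_iff_coeff_eq_zero]
    intro i hi
    rw [coeff_polyOf, dif_neg (by omega)]

lemma coeff_polyOf' (k : ℕ) (f : Fin (k + 1) × Fin (k + 1) → K) (ij : Fin (k + 1) × Fin (k + 1)) :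
    ((polyOf k f).coeff ij.2).coeff ij.1 = f ij := by
  rw [coeff_polyOf, dif_pos ⟨Nat.le_of_lt_succ ij.1.2, Nat.le_of_lt_succ ij.2.2⟩]

lemma BD.ev_eq_sum_fin {k : ℕ} {F : K[X][Y]} (hF : BD k F) (p : K × K) :
    ev F p = ∑ ij : Fin (k + 1) × Fin (k + 1),
      (F.coeff ij.2).coeff ij.1 * (p.1 ^ (ij.1 : ℕ) * p.2 ^ (ij.2 : ℕ)) := by
  have : ev F p = ev F (p.1, p.2) := rfl
  rw [this, hF.eq_sum, Fintype.sum_prod_type, Finset.sum_range]
  refine Finset.sum_congr rfl fun i _ => ?_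
  rw [Finset.sum_range]
  exact Finset.sum_congr rfl fun j _ => by ring

/-- the monomial vector of a point -/
def mvec (k : ℕ) (p : K × K) : Fin (k + 1) × Fin (k + 1) → K :=
  fun ij => p.1 ^ (ij.1 : ℕ) * p.2 ^ (ij.2 : ℕ)

lemma mvec_ne_zero (k : ℕ) (p : K × K) : mvec k p ≠ 0 := by
  intro h
  have := congrFun h (0, 0)
  simp [mvec] at this

variable [AdmissibleAbsValues K]

lemma logHeight_mvec_le (k : ℕ) (p : K × K) :
    logHeight (mvec k p) ≤ k * (logHeight₁ p.1 + logHeight₁ p.2) := by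
  rw [← PS_log_iSup (mvec_ne_zero k p)]
  have hloc : ∀ v : AbsoluteValue K ℝ, Real.log (⨆ ij, v (mvec k p ij)) ≤
      k * (Real.log (Mv v p.1) + Real.log (Mv v p.2)) := by
    intro v
    have hM1 := Mv_pos v p.1
    have hM2 := Mv_pos v p.2
    rw [← Real.log_mul hM1.ne' hM2.ne', ← Real.log_pow]
    refine Real.log_le_log (iSup_abv_pos v (mvec_ne_zero k p)) (ciSup_le fun ij => ?_)
    simp only [mvec]
    rw [v.map_mul, v.map_pow, v.map_pow, mul_pow]
    have aux : ∀ (a : K) (i : Fin (k + 1)), v a ^ (i : ℕ) ≤ Mv v a ^ k := by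
      intro a i
      calc v a ^ (i : ℕ) ≤ Mv v a ^ (i : ℕ) :=
            pow_le_pow_left₀ (v.nonneg _) (le_Mv v a) _
        _ ≤ Mv v a ^ k := pow_le_pow_right₀ (one_le_Mv v a) (Nat.le_of_lt_succ i.2)
    exact mul_le_mul (aux _ _) (aux _ _) (by positivity) (by positivity)
  have hF1 := FS_log_Mv (K := K) p.1
  have hF2 := FS_log_Mv (K := K) p.2
  have h := PS_mono (FS_log_iSup (mvec_ne_zero k p)) ((hF1.add hF2).const_mul (k : ℝ)) hloc
  rwa [PS_const_mul, PS_add hF1 hF2, PS_log_Mv, PS_log_Mv] at h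
end

theorem det_of : CR → DET := by
  intro hcr K _ _ k
  obtain ⟨C, hC, h⟩ := hcr K (Fin (k + 1) × Fin (k + 1))
  refine ⟨C * (1 + k), by positivity, ?_⟩
  intro S H hH hS w F hF hFS hFw
  obtain ⟨f, hf1, hf2, hf3⟩ := h S (fun p => mvec k p.1) (k * H) (by positivity)
    (fun p => (logHeight_mvec_le k p.1).trans
      (mul_le_mul_of_nonneg_left (hS p.1 p.2) (Nat.cast_nonneg k)))
    (mvec k w) (fun ij => (F.coeff ij.2).coeff ij.1)
    (fun p => by
      have := hFS p.1 p.2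
      rw [hF.ev_eq_sum_fin] at this
      exact this)
    (by
      rw [hF.ev_eq_sum_fin] at hFw
      exact hFw)
  have hBD := BD_polyOf k f
  have hev : ∀ p : K × K, ev (polyOf k f) p = ∑ ij, f ij * mvec k p ij := by
    intro p
    rw [hBD.ev_eq_sum_fin]
    refine Finset.sum_congr rfl fun ij _ => ?_
    rw [coeff_polyOf']; rfl
  refine ⟨polyOf k f, hBD, ?_, ?_, ?_⟩
  · intro p hp
    rw [hev]; exact hf1 ⟨p, hp⟩
  · rw [hev]; exact hf2
  · have : hp k (polyOf k f) = logHeight f := by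
      rw [hp]; congr 1; funext ij; exact coeff_polyOf' k f ij
    rw [this]
    refine hf3.trans ?_
    have hk : (0 : ℝ) ≤ k := Nat.cast_nonneg k
    have : 1 + (k : ℝ) * H ≤ (1 + k) * (1 + H) := by nlinarith
    calc C * (1 + k * H) ≤ C * ((1 + k) * (1 + H)) := mul_le_mul_of_nonneg_left this hC
      _ = _ := by ring

end Pool.Agent.Helper29.BL
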