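import Pool.Agent.Helper29.BL.GoalsC
namespace Pool.Agent.Helper29.BL
open WeierstrassCurve Height Height.AdmissibleAbsValues Polynomial
open scoped Polynomial.Bivariate

section
variable {F G : Type} [Field F] [Field G]

/-- transport of points along an injective ring homomorphism, up to an equality of curves -/
noncomputable def mapPt (f : F →+* G) {W : Affine F} {W' : Affine G} (h : W' = W.map f) :
    W.Point → W'.Point
  | .zero => .zero
  | .some x y hxy => .some (f x) (f y) (by
      subst h; exact (W.map_nonsingular f.injective x y).mpr hxy)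

lemma mapPt_zero (f : F →+* G) {W : Affine F} {W' : Affine G} (h : W' = W.map f) :
    mapPt f h (0 : W.Point) = 0 := rfl

lemma mapPt_some (f : F →+* G) {W : Affine F} {W' : Affine G} (h : W' = W.map f) {x y : F}
    (hxy : W.Nonsingular x y) : mapPt f h (.some x y hxy) = .some (f x) (f y) (by
      subst h; exact (W.map_nonsingular f.injective x y).mpr hxy) := rfl

lemma xc_mapPt (f : F →+* G) {W : Affine F} {W' : Affine G} (h : W' = W.map f) (P : W.Point) :
    xc (mapPt f h P) = f (xc P) := by
  cases P with
  | zero => simp [mapPt, xc]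
  | some x y hxy => rfl

lemma mapPt_eq_zero (f : F →+* G) {W : Affine F} {W' : Affine G} (h : W' = W.map f) (P : W.Point)
    (hP : mapPt f h P = 0) : P = 0 := by
  cases P with
  | zero => rfl
  | some x y hxy => exact absurd hP (Affine.Point.some_ne_zero _)

variable [DecidableEq F] [DecidableEq G]

lemma mapPt_add (f : F →+* G) {W : Affine F} {W' : Affine G} (h : W' = W.map f) (P Q : W.Point) :
    mapPt f h (P + Q) = mapPt f h P + mapPt f h Q := by
  subst h
  rcases P with _ | ⟨x₁, y₁, h₁⟩
  · change mapPt f rfl (0 + Q) = 0 + mapPt f rfl Q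
    rw [zero_add, zero_add]
  rcases Q with _ | ⟨x₂, y₂, h₂⟩
  · change mapPt f rfl (_ + 0) = mapPt f rfl _ + 0
    rw [add_zero, add_zero]
  by_cases hxy : x₁ = x₂ ∧ y₁ = W.negY x₂ y₂
  · rw [Affine.Point.add_of_Y_eq hxy.left hxy.right, mapPt_some, mapPt_some,
      Affine.Point.add_of_Y_eq (congrArg f hxy.left) (by rw [hxy.right, W.map_negY])]
    rfl
  · have hxy' : ¬ (f x₁ = f x₂ ∧ f y₁ = (W.map f).toAffine.negY (f x₂) (f y₂)) := by
      rintro ⟨h3, h4⟩
      refine hxy ⟨f.injective h3, f.injective ?_⟩
      rw [h4, W.map_negY]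
    rw [Affine.Point.add_some hxy, mapPt_some, mapPt_some, mapPt_some,
      Affine.Point.add_some hxy']
    simp only [Affine.Point.some.injEq]
    constructor
    · rw [W.map_slope, W.map_addX]
    · rw [W.map_slope, W.map_addY]

/-- `mapPt` as a homomorphism -/
noncomputable def mapPtHom (f : F →+* G) {W : Affine F} {W' : Affine G} (h : W' = W.map f) :
    W.Point →+ W'.Point where
  toFun := mapPt f h
  map_zero' := mapPt_zero f h
  map_add' := mapPt_add f h

lemma mapPtHom_apply (f : F →+* G) {W : Affine F} {W' : Affine G} (h : W' = W.map f) (P : W.Point) :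
    mapPtHom f h P = mapPt f h P := rfl
end

theorem emb : EMB := by
  intro K _ _ Ω _ _ _ W
  have h0 : bcW Ω W = W.map (algebraMap K Ω) := rfl
  refine ⟨mapPtHom (algebraMap K Ω) h0, ?_, ?_, ?_⟩
  · intro P hP; exact mapPt_eq_zero _ h0 _ hP
  · intro P; exact xc_mapPt _ h0 _
  · intro τ
    have hW : bcW Ω W = (bcW Ω W).map (τ : Ω →+* Ω) := by
      simp only [bcW, WeierstrassCurve.map_map]
      congr 1
      ext x
      simp
    refine ⟨mapPtHom (τ : Ω →+* Ω) hW, ?_, ?_, ?_⟩
    · intro P hP; exact mapPt_eq_zero _ hW _ hP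
    · intro P; exact xc_mapPt _ hW _
    · intro P
      cases P with
      | zero => rfl
      | some x y hxy =>
        rw [mapPtHom_apply, mapPtHom_apply, mapPt_some, mapPt_some]
        simp
end Pool.Agent.Helper29.BL
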