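import Pool.Agent.Helper29.BL.RH
namespace Pool.Agent.Helper29.BL
open WeierstrassCurve Height Height.AdmissibleAbsValues Polynomial
open scoped Polynomial.Bivariate

theorem loc_of : CL → EV → LOC := by
  rintro ⟨C₀, n, hC₀, hCL⟩ ⟨C, hC, hEV⟩
  refine ⟨fun k => C₀ * C k ^ 2, n, fun k => one_le_mul_of_one_le_of_one_le hC₀
    (one_le_pow₀ (hC k)), ?_⟩
  intro K _ _ v W₁ W₂ k F x z hF hx hz h1 h2 h0
  set m := min (Mv v (xc z.1)) (Mv v (xc z.2)) with hm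
  have hm0 : 0 < m := lt_min (Mv_pos _ _) (Mv_pos _ _)
  set κ := cst v C₀ * (bet W₁ v * bet W₂ v) ^ n with hκ
  have hcst := cst_pos v hC₀
  have hb₁ := one_le_bet W₁ v
  have hb₂ := one_le_bet W₂ v
  have hb₁' := bet_pos W₁ v
  have hb₂' := bet_pos W₂ v
  have hκ0 : 0 < κ := by positivity
  have hcoord : ∀ (a a' c : K) (β : ℝ), 0 ≤ β → β ≤ (bet W₁ v * bet W₂ v) ^ n → m ≤ Mv v c →
      v (a - a') ^ 2 * Mv v c ≤ cst v C₀ * β * (Mv v a ^ 2 * Mv v a' ^ 2) →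
      v (a - a') ≤ √(κ / m) * (Mv v a * Mv v a') := by
    intro a a' c β hβ0 hβ hmc h
    have hMM : 0 < Mv v a * Mv v a' := mul_pos (Mv_pos _ _) (Mv_pos _ _)
    refine le_of_sq_le_sq ?_ (by positivity)
    rw [mul_pow, Real.sq_sqrt (by positivity), div_mul_eq_mul_div, le_div_iff₀ hm0]
    calc v (a - a') ^ 2 * m ≤ v (a - a') ^ 2 * Mv v c := by gcongr
      _ ≤ cst v C₀ * β * (Mv v a ^ 2 * Mv v a' ^ 2) := h
      _ ≤ cst v C₀ * (bet W₁ v * bet W₂ v) ^ n * (Mv v a ^ 2 * Mv v a' ^ 2) := by gcongr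
      _ = κ * (Mv v a * Mv v a') ^ 2 := by rw [hκ]; ring
  have e1 := hcoord (xc x.1) (xc (x.1 - z.1)) (xc z.1) (bet W₁ v ^ n) (by positivity)
    (by rw [mul_pow]; exact le_mul_of_one_le_right (by positivity) (one_le_pow₀ hb₂))
    (min_le_left _ _) (hCL K v W₁ x.1 z.1 hx.1 hz.1 h1)
  have e2 := hcoord (xc x.2) (xc (x.2 - z.2)) (xc z.2) (bet W₂ v ^ n) (by positivity)
    (by rw [mul_pow]; exact le_mul_of_one_le_left (by positivity) (one_le_pow₀ hb₁))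
    (min_le_right _ _) (hCL K v W₂ x.2 z.2 hx.2 hz.2 h2)
  have h := hEV K v k F (xc x.1) (xc x.2) (xc (x.1 - z.1)) (xc (x.2 - z.2)) _ hF h0
    (Real.sqrt_nonneg _) e1 e2
  have hsq : v (ev F (kap x)) ^ 2 ≤ (cst v (C k) * cmax k F v *
      (Mv v (xc x.1) ^ k * Mv v (xc x.2) ^ k) * √(κ / m)) ^ 2 :=
    pow_le_pow_left₀ (v.nonneg _) h 2
  rw [mul_pow _ (√(κ / m)), Real.sq_sqrt (by positivity)] at hsq
  calc v (ev F (kap x)) ^ 2 * m ≤ ((cst v (C k) * cmax k F v *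
      (Mv v (xc x.1) ^ k * Mv v (xc x.2) ^ k)) ^ 2 * (κ / m)) * m := by gcongr
    _ = (cst v (C k) * cmax k F v * (Mv v (xc x.1) ^ k * Mv v (xc x.2) ^ k)) ^ 2 * κ := by
      field_simp
    _ = _ := by
      rw [hκ, cst_mul, cst_pow, mul_pow (Mv v (xc x.1)), mul_comm 2 k, pow_mul, pow_mul]
      ring

end Pool.Agent.Helper29.BL
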