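import Pool.Agent.Helper29.BL.TRIG
namespace Pool.Agent.Helper29.BL
open WeierstrassCurve Height Height.AdmissibleAbsValues Polynomial
open scoped Polynomial.Bivariate

theorem mi_of : LOC → TRIG → DET → MM → MI := by
  classical
  rintro ⟨CL, n, hCL, hloc⟩ ht hdet hmm K _ _ _ W₁ W₂ kmax smax d hd
  obtain ⟨C₁, h₁⟩ := ht K W₁
  obtain ⟨C₂, h₂⟩ := ht K W₂
  set C := max (max C₁ C₂) 0 with hC
  have hC0 : 0 ≤ C := le_max_right _ _
  have hpair : ∀ z z' : W₁.Point × W₂.Point, Aff z → Aff z' → z ≠ z' →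
      PS (fun v => min (lam v z) (lam v z')) ≤ hh (z - z') + C := fun z z' hz hz' hne =>
    (pair_bound h₁ h₂ z z' hz hz' hne).trans (by linarith [le_max_left (max C₁ C₂) (0 : ℝ)])
  choose CD hCD hD using fun k => hdet K k
  set B : ℝ := PS (fun v : AbsoluteValue K ℝ => Real.log (bet W₁ v)) +
    PS (fun v : AbsoluteValue K ℝ => Real.log (bet W₂ v)) with hB
  have hB0 : 0 ≤ B := add_nonneg
    (PS_nonneg (FS_log_bet W₁) fun v => Real.log_nonneg (one_le_bet W₁ v))
    (PS_nonneg (FS_log_bet W₂) fun v => Real.log_nonneg (one_le_bet W₂ v))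
  set D : ℝ := ∑ k ∈ Finset.range (kmax + 1), CD k with hDdef
  have hD0 : 0 ≤ D := Finset.sum_nonneg fun k _ => hCD k
  have hDle : ∀ k ≤ kmax, CD k ≤ D := fun k hk =>
    Finset.single_le_sum (f := CD) (fun k _ => hCD k) (Finset.mem_range.mpr (Nat.lt_succ_of_le hk))
  set A : ℝ := ∑ k ∈ Finset.range (kmax + 1), (totalWeight K * Real.log (CL k)) with hAdef
  have hA1 : ∀ k, 0 ≤ totalWeight K * Real.log (CL k) := fun k =>
    mul_nonneg (Nat.cast_nonneg _) (Real.log_nonneg (hCL k))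
  have hAle : ∀ k ≤ kmax, totalWeight K * Real.log (CL k) ≤ A := fun k hk =>
    Finset.single_le_sum (f := fun k => (totalWeight K * Real.log (CL k) : ℝ)) (fun k _ => hA1 k)
      (Finset.mem_range.mpr (Nat.lt_succ_of_le hk))
  have hA0 : 0 ≤ A := Finset.sum_nonneg fun k _ => hA1 k
  set E : ℝ := (smax : ℝ) ^ 2 + 2 * D + 1 with hE
  have hE1 : 0 < E := by positivity
  refine ⟨1 / E, by positivity, (smax : ℝ) ^ 2 * C + A + n * B + 2 * D + 1, ?_⟩
  intro T hT x S hx hhx hcard hS hdiam k hk F hF hFz hFx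
  have hT0 : 0 < T := by
    have : 0 ≤ (smax : ℝ) ^ 2 * C + A + n * B + 2 * D := by positivity
    linarith
  have hk0 : (0 : ℝ) ≤ k := Nat.cast_nonneg k
  rcases S.eq_empty_or_nonempty with rfl | hne
  · simp; positivity
  obtain ⟨F', hF', hF'z, hF'x, hF'h⟩ := hD k (S.image fun z => kap (x - z)) (1 / E * T)
    (by positivity) (by
      intro p hpm
      obtain ⟨z, hz, rfl⟩ := Finset.mem_image.mp hpm
      exact (hS z hz).2.2.1) (kap x) F hF (by
      intro p hpm
      obtain ⟨z, hz, rfl⟩ := Finset.mem_image.mp hpm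
      exact hFz z hz) hFx
  have hF'0 : F' ≠ 0 := by
    rintro rfl; apply hF'x; simp [ev]
  set f : AbsoluteValue K ℝ → ℝ := fun v =>
    Real.log (cst v (CL k)) + n * (Real.log (bet W₁ v) + Real.log (bet W₂ v)) +
      2 * Real.log (cmax k F' v) +
      2 * k * (Real.posLog (v (xc x.1)) + Real.posLog (v (xc x.2))) -
      2 * Real.log (v (ev F' (kap x))) with hf
  have g1 : FS (fun v : AbsoluteValue K ℝ => Real.log (cst v (CL k))) := FS_log_cst _
  have g2 : FS (fun v : AbsoluteValue K ℝ =>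
      (n : ℝ) * (Real.log (bet W₁ v) + Real.log (bet W₂ v))) :=
    ((FS_log_bet W₁).add (FS_log_bet W₂)).const_mul _
  have g3 : FS (fun v : AbsoluteValue K ℝ => 2 * Real.log (cmax k F' v)) :=
    (FS_log_cmax hF' hF'0).const_mul _
  have g4 : FS (fun v : AbsoluteValue K ℝ =>
      2 * k * (Real.posLog (v (xc x.1)) + Real.posLog (v (xc x.2)))) :=
    ((FS_posLog _).add (FS_posLog _)).const_mul (2 * (k : ℝ))
  have g5 : FS (fun v : AbsoluteValue K ℝ => 2 * Real.log (v (ev F' (kap x)))) :=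
    (FS_log hF'x).const_mul _
  have hfFS : FS f := (((g1.add g2).add g3).add g4).sub g5
  have hPf : PS f ≤ totalWeight K * Real.log (CL k) + n * B + 2 * hp k F' + 2 * k * hh x := by
    simp only [hf]
    rw [PS_sub (((g1.add g2).add g3).add g4) g5, PS_add ((g1.add g2).add g3) g4,
      PS_add (g1.add g2) g3, PS_add g1 g2, PS_const_mul (n : ℝ), PS_const_mul 2,
      PS_const_mul (2 * (k : ℝ)), PS_const_mul 2, PS_log hF'x, PS_log_cmax hF' hF'0,
      PS_add (FS_posLog _) (FS_posLog _), PS_posLog, PS_posLog,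
      PS_add (FS_log_bet W₁) (FS_log_bet W₂)]
    have h1 := PS_log_cst (K := K) (hCL k)
    have h2 : hh x = logHeight₁ (xc x.1) + logHeight₁ (xc x.2) := rfl
    rw [h2, hB]
    linarith
  have hle : ∀ v, ∀ z ∈ S, lam v z ≤ f v := by
    intro v z hz
    obtain ⟨hz1, hz2, -, -⟩ := hS z hz
    have hne1 : x.1 ≠ z.1 := fun h => hz2.1 (by
      change x.1 - z.1 = 0; rw [h, sub_self])
    have hne2 : x.2 ≠ z.2 := fun h => hz2.2 (by
      change x.2 - z.2 = 0; rw [h, sub_self])
    have h0 : ev F' (kap (x - z)) = 0 := hF'z _ (Finset.mem_image.mpr ⟨z, hz, rfl⟩)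
    have h := hloc K v W₁ W₂ k F' x z hF' hx hz1 hne1 hne2 h0
    have p1 : 0 < v (ev F' (kap x)) := v.pos hF'x
    have p2 : 0 < min (Mv v (xc z.1)) (Mv v (xc z.2)) := lt_min (Mv_pos _ _) (Mv_pos _ _)
    have p3 := cst_pos v (hCL k)
    have p4 := bet_pos W₁ v
    have p5 := bet_pos W₂ v
    have p6 := cmax_pos hF' hF'0 v
    have p7 := Mv_pos v (xc x.1)
    have p8 := Mv_pos v (xc x.2)
    have hl := Real.log_le_log (by positivity) h
    rw [Real.log_mul (by positivity) p2.ne', Real.log_pow, log_min_Mv,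
      Real.log_mul (by positivity) (by positivity), Real.log_mul (by positivity) (by positivity),
      Real.log_mul (by positivity) (by positivity), Real.log_pow, Real.log_pow, Real.log_pow,
      Real.log_mul (by positivity) (by positivity), Real.log_mul (by positivity) (by positivity),
      log_Mv, log_Mv] at hl
    simp only [hf]
    have h9 : lam v z = min (Real.posLog (v (xc z.1))) (Real.posLog (v (xc z.2))) := rfl
    rw [h9]
    push_cast at hl
    linarith
  have hmain := sum_bound hmm hpair hC0 S hne (e := 1 / E * T) (G := d * T) (by positivity)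
    (fun z hz => (hS z hz).1) (fun z hz => (hS z hz).2.2.2) hdiam f hfFS hle
  have hs : (S.card : ℝ) ≤ smax := by exact_mod_cast hcard
  have hs0 : (0 : ℝ) ≤ S.card := Nat.cast_nonneg _
  have hs2 : (S.card : ℝ) ^ 2 ≤ (smax : ℝ) ^ 2 := pow_le_pow_left₀ hs0 hs 2
  have hε0 : 0 ≤ 1 / E * T := by positivity
  have hF'h2 : hp k F' ≤ D * (1 + 1 / E * T) :=
    hF'h.trans (mul_le_mul_of_nonneg_right (hDle k hk) (by positivity))
  have h3 : (S.card : ℝ) ^ 2 * (1 / E * T + C) ≤ (smax : ℝ) ^ 2 * (1 / E * T + C) :=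
    mul_le_mul_of_nonneg_right hs2 (by positivity)
  have h4 : ((smax : ℝ) ^ 2 + 2 * D) * (1 / E * T) ≤ T := by
    have : ((smax : ℝ) ^ 2 + 2 * D) * (1 / E * T) = ((smax : ℝ) ^ 2 + 2 * D) / E * T := by ring
    rw [this]
    refine mul_le_of_le_one_left hT0.le ?_
    rw [div_le_one hE1, hE]; linarith
  have h5 := hAle k hk
  have h6 : 2 * (k : ℝ) * hh x ≤ 2 * k * (5 * T) := by gcongr
  have h7 : (S.card : ℝ) * (d * T) ≤ 2 * T + 10 * k * T := by nlinarith
  have h8 : ((S.card : ℝ) * d) * T ≤ (12 * (k + 1)) * T := by nlinarith [mul_nonneg hk0 hT0.le]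
  exact le_of_mul_le_mul_right h8 hT0

end Pool.Agent.Helper29.BL
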