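import Pool.Agent.Helper29.BL.GoalsA
import Pool.Agent.Helper29.BL.GoalsD
namespace Pool.Agent.Helper29.BL
open WeierstrassCurve Height Height.AdmissibleAbsValues Polynomial
open scoped Polynomial.Bivariate

theorem mm : MM := by
  intro ι _ s a M hs h0 hM
  obtain ⟨i₀, hi₀, hmax⟩ := s.exists_max_image a hs
  -- Σ a_i = a_{i₀} + Σ_{i ≠ i₀} a_i and a_i = min(a_i, a_{i₀})
  have h1 : ∑ i ∈ s, a i = a i₀ + ∑ i ∈ s.erase i₀, a i := (Finset.add_sum_erase s a hi₀).symm
  have h2 : ∑ i ∈ s.erase i₀, a i ≤ ∑ p ∈ s.offDiag, min (a p.1) (a p.2) := by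
    have e : ∑ i ∈ s.erase i₀, a i = ∑ p ∈ (s.erase i₀).image (fun i => (i, i₀)),
        min (a p.1) (a p.2) := by
      rw [Finset.sum_image]
      · refine Finset.sum_congr rfl fun i hi => ?_
        exact (min_eq_left (hmax i (Finset.mem_of_mem_erase hi))).symm
      · intro i _ j _ h; exact (Prod.mk.inj h).1
    rw [e]
    refine Finset.sum_le_sum_of_subset_of_nonneg ?_ ?_
    · intro p hp
      obtain ⟨i, hi, rfl⟩ := Finset.mem_image.mp hp
      rw [Finset.mem_offDiag]
      exact ⟨Finset.mem_of_mem_erase hi, hi₀, Finset.ne_of_mem_erase hi⟩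
    · intro p hp _
      rw [Finset.mem_offDiag] at hp
      exact le_min (h0 _ hp.1) (h0 _ hp.2.1)
  have := hM i₀ hi₀
  linarith

theorem grd : GRD := by
  classical
  intro α r hr hsym T D R hdeg hT hD
  suffices h : ∀ R : ℕ, R * D ≤ T.card → ∃ S ⊆ T, S.card = R ∧ ∀ a ∈ S, ∀ b ∈ S, a ≠ b → ¬ r a b by
    exact h R hT
  intro R
  induction R with
  | zero => intro _; exact ⟨∅, by simp, by simp, by simp⟩
  | succ R ih =>
    intro hR
    obtain ⟨S, hST, hSc, hS⟩ := ih ((Nat.mul_le_mul_right D (Nat.le_succ R)).trans hR)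
    -- points related to S
    have hcard : (S.biUnion fun a => T.filter (fun b => r a b)).card ≤ R * D := by
      refine (Finset.card_biUnion_le).trans ?_
      calc ∑ a ∈ S, (T.filter (fun b => r a b)).card ≤ ∑ a ∈ S, D :=
            Finset.sum_le_sum fun a ha => hdeg a (hST ha)
        _ = R * D := by rw [Finset.sum_const, hSc, smul_eq_mul]
    have hlt : (S.biUnion fun a => T.filter (fun b => r a b)).card < T.card := by
      refine lt_of_le_of_lt hcard ?_
      rw [Nat.succ_mul] at hR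
      omega
    obtain ⟨b, hbT, hb⟩ := Finset.exists_mem_notMem_of_card_lt_card hlt
    have hb' : ∀ a ∈ S, ¬ r a b := by
      intro a ha hab
      exact hb (Finset.mem_biUnion.mpr ⟨a, ha, Finset.mem_filter.mpr ⟨hbT, hab⟩⟩)
    have hbS : b ∉ S := fun h => hb' b h (hr b)
    refine ⟨insert b S, Finset.insert_subset hbT hST, by rw [Finset.card_insert_of_notMem hbS, hSc],
      ?_⟩
    intro x hx y hy hxy hxy'
    rw [Finset.mem_insert] at hx hy
    rcases hx with rfl | hx <;> rcases hy with rfl | hy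
    · exact hxy rfl
    · exact hb' y hy (hsym _ _ hxy')
    · exact hb' x hx hxy'
    · exact hS x hx y hy hxy hxy'

end Pool.Agent.Helper29.BL
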