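import Pool.Agent.Helper29.BL.GoalsA
import Pool.Agent.Helper29.BL.GoalsC
namespace Pool.Agent.Helper29.BL
open WeierstrassCurve Height Height.AdmissibleAbsValues Polynomial
open scoped Polynomial.Bivariate

theorem mul_of : ADD → DBL → MUL := by
  intro ha hd K _ _ W n hn
  obtain ⟨n, rfl⟩ : ∃ k, n = k + 1 := ⟨n - 1, by omega⟩
  clear hn
  have key : ∀ n : ℕ, (∃ A B : K[X], ∀ P : W.Point, (∀ k : ℕ, 0 < k → k • P ≠ 0) →
      B.eval (xc P) ≠ 0 ∧ xc ((n + 1) • P) * B.eval (xc P) = A.eval (xc P)) ∧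
      (∃ A B : K[X], ∀ P : W.Point, (∀ k : ℕ, 0 < k → k • P ≠ 0) →
      B.eval (xc P) ≠ 0 ∧ xc ((n + 2) • P) * B.eval (xc P) = A.eval (xc P)) := by
    intro n
    induction n with
    | zero =>
      refine ⟨⟨X, 1, fun P hP => ⟨by simp, by simp⟩⟩,
        ⟨X ^ 4 - C W.b₄ * X ^ 2 - 2 * C W.b₆ * X - C W.b₈,
          4 * X ^ 3 + C W.b₂ * X ^ 2 + 2 * C W.b₄ * X + C W.b₆, fun P hP => ?_⟩⟩
      have h1 : P ≠ 0 := by simpa using hP 1 one_pos
      have h2 : P + P ≠ 0 := by simpa [two_nsmul] using hP 2 two_pos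
      obtain ⟨h3, h4⟩ := (hd K W P h1).2 h2
      have e1 : (4 * X ^ 3 + C W.b₂ * X ^ 2 + 2 * C W.b₄ * X + C W.b₆ : K[X]).eval (xc P) =
          Bf W (xc P) := by simp [Bf]
      have e2 : (X ^ 4 - C W.b₄ * X ^ 2 - 2 * C W.b₆ * X - C W.b₈ : K[X]).eval (xc P) =
          Af W (xc P) := by simp [Af]
      rw [e1, e2]
      refine ⟨h3, ?_⟩
      rw [← h4, zero_add, two_nsmul, mul_comm]
    | succ n ih =>
      obtain ⟨⟨A₀, B₀, h₀⟩, ⟨A₁, B₁, h₁⟩⟩ := ih
      refine ⟨⟨A₁, B₁, h₁⟩, ⟨(2 * (A₁ + X * B₁) * A₁ * X + C W.b₂ * A₁ * B₁ * X +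
        C W.b₄ * (A₁ + X * B₁) * B₁ + C W.b₆ * B₁ ^ 2) * B₀ - A₀ * (A₁ - X * B₁) ^ 2,
        (A₁ - X * B₁) ^ 2 * B₀, fun P hP => ?_⟩⟩
      obtain ⟨hB₀, e₀⟩ := h₀ P hP
      obtain ⟨hB₁, e₁⟩ := h₁ P hP
      have hP1 : P ≠ 0 := by simpa using hP 1 one_pos
      have hn2 : (n + 2) • P ≠ 0 := hP _ (by omega)
      have hne : (n + 2) • P ≠ P := by
        intro h
        apply hP (n + 1) (by omega)
        have : (n + 2) • P = (n + 1) • P + P := by rw [← succ_nsmul]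
        rw [this] at h
        exact add_eq_right.mp h
      have hne' : (n + 2) • P ≠ -P := by
        intro h
        apply hP (n + 3) (by omega)
        rw [show n + 3 = (n + 2) + 1 from rfl, succ_nsmul, h]; simp
      obtain ⟨hx, hsum, -⟩ := ha K W ((n + 2) • P) P hn2 hP1 hne hne'
      have e3 : (n + 2) • P + P = (n + 1 + 2) • P := (succ_nsmul P (n + 2)).symm
      have e4 : (n + 2) • P - P = (n + 1) • P := by
        rw [show n + 2 = (n + 1) + 1 from rfl, succ_nsmul]; simp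
      rw [e3, e4] at hsum
      simp only [Uf, Tf] at hsum
      simp only [eval_sub, eval_add, eval_mul, eval_pow, eval_X, eval_C, eval_ofNat]
      rw [← e₀, ← e₁]
      set c := xc P
      set t := xc ((n + 2) • P)
      set b := B₁.eval c
      set b₀ := B₀.eval c
      have h5 : t * b - c * b ≠ 0 := by
        rw [← sub_mul]
        exact mul_ne_zero (sub_ne_zero.mpr hx) hB₁
      refine ⟨mul_ne_zero (pow_ne_zero 2 h5) hB₀, ?_⟩
      linear_combination (b ^ 2 * b₀) * hsum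
  exact (key n).1

end Pool.Agent.Helper29.BL
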