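import Pool.Agent.Helper29.BL.GoalsA
import Pool.Agent.Helper29.BL.PS
namespace Pool.Agent.Helper29.BL
open WeierstrassCurve Height Height.AdmissibleAbsValues Polynomial
open scoped Polynomial.Bivariate

theorem nor_of : QSN → XEQ → NOR := by
  intro hq hxeq K _ _ _ W
  have hfin : ∀ B : ℝ, {P : W.Point | hx P ≤ B}.Finite := by
    intro B
    have h1 : {x : K | logHeight₁ x ≤ B}.Finite := NumberField.finite_setOfPred_logHeight₁_le K B
    have h2 : {P : W.Point | hx P ≤ B} ⊆ ⋃ x ∈ {x : K | logHeight₁ x ≤ B},
        {P : W.Point | xc P = x} := by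
      intro P hP
      simp only [Set.mem_iUnion]
      exact ⟨xc P, hP, rfl⟩
    refine (h1.biUnion fun x _ => ?_).subset h2
    -- each fibre is finite
    by_cases hex : ∃ P₀ : W.Point, P₀ ≠ 0 ∧ xc P₀ = x
    · obtain ⟨P₀, hP₀, hxP₀⟩ := hex
      refine (Set.toFinite ({0, P₀, -P₀} : Set W.Point)).subset ?_
      intro P hP
      by_cases h0 : P = 0
      · simp [h0]
      · have := ((hxeq K W).1 P P₀ h0 hP₀).mp (hP.trans hxP₀.symm)
        rcases this with h | h <;> simp [h]
    · refine (Set.toFinite ({0} : Set W.Point)).subset ?_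
      intro P hP
      by_contra h0
      exact hex ⟨P, h0, hP⟩
  refine ⟨hfin, fun H c₀ hH => ?_⟩
  obtain ⟨z0, -, zs, -⟩ := hq W.Point H hH.quad
  have hfin' : ∀ B : ℝ, {P : W.Point | H P ≤ B}.Finite := by
    intro B
    refine (hfin (B + c₀)).subset fun P hP => ?_
    have h1 := abs_le.mp (hH.near P)
    have h2 : H P ≤ B := hP
    change hx P ≤ B + c₀
    linarith [h1.1]
  refine ⟨hfin', ?_, ?_⟩
  · intro P hP
    by_contra hcon
    push Not at hcon
    have hinj : Function.Injective fun n : ℕ => n • P := by
      intro m n hmn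
      by_contra hne
      rcases lt_or_gt_of_ne hne with h | h
      · refine hcon (n - m) (by omega) ?_
        have : n • P = (n - m) • P + m • P := by rw [← add_smul]; congr 1; omega
        have hmn' : m • P = n • P := hmn
        rw [← hmn'] at this
        exact (add_eq_right.mp this.symm)
      · refine hcon (m - n) (by omega) ?_
        have : m • P = (m - n) • P + n • P := by rw [← add_smul]; congr 1; omega
        have hmn' : m • P = n • P := hmn
        rw [hmn'] at this
        exact (add_eq_right.mp this.symm)
    have hsub : Set.range (fun n : ℕ => n • P) ⊆ {P : W.Point | H P ≤ 0} := by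
      rintro _ ⟨n, rfl⟩
      have := zs n P
      simp only [natCast_zsmul] at this
      change H (n • P) ≤ 0
      rw [this, hP, mul_zero]
    exact Set.infinite_range_of_injective hinj ((hfin' 0).subset hsub)
  · intro P n hn hnP
    have := zs n P
    simp only [natCast_zsmul] at this
    rw [hnP, z0] at this
    have h2 : ((n : ℤ) : ℝ) ^ 2 ≠ 0 := by
      have : (n : ℝ) ≠ 0 := by exact_mod_cast hn.ne'
      push_cast; exact pow_ne_zero 2 this
    rcases mul_eq_zero.mp this.symm with h | h
    · exact absurd h h2
    · exact h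

end Pool.Agent.Helper29.BL
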