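import Pool.Agent.Helper29.BL.GoalsF
import Pool.Agent.Helper29.BL.NOR
namespace Pool.Agent.Helper29.BL
open WeierstrassCurve Height Height.AdmissibleAbsValues Polynomial
open scoped Polynomial.Bivariate

theorem norg_of : NOR → NORg := by
  intro hnor K _ _ _ W H c₀ e hH
  obtain ⟨hfin, -⟩ := hnor K W
  have hfin' : ∀ B : ℝ, {P : W.Point | H P ≤ B}.Finite := by
    intro B
    refine (hfin (B + c₀)).subset fun P hP => ?_
    have h1 := abs_le.mp (hH.near P)
    have h2 : H P ≤ B := hP
    change hx P ≤ B + c₀
    linarith [h1.1]
  refine ⟨hfin', fun P => ⟨?_, ?_⟩⟩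
  · intro hP
    by_contra hcon
    have hcon' : ∀ n : ℕ, 0 < n → n • P ≠ 0 := fun n hn h => hcon ⟨n, hn, h⟩
    have hinj : Function.Injective fun n : ℕ => n • P := by
      intro m n hmn
      by_contra hne
      rcases lt_or_gt_of_ne hne with h | h
      · refine hcon' (n - m) (by omega) ?_
        have : n • P = (n - m) • P + m • P := by rw [← add_smul]; congr 1; omega
        have hmn' : m • P = n • P := hmn
        rw [← hmn'] at this
        exact (add_eq_right.mp this.symm)
      · refine hcon' (m - n) (by omega) ?_
        have : m • P = (m - n) • P + n • P := by rw [← add_smul]; congr 1; omega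
        have hmn' : m • P = n • P := hmn
        rw [hmn'] at this
        exact (add_eq_right.mp this.symm)
    have hsub : Set.range (fun n : ℕ => n • P) ⊆ {P : W.Point | H P ≤ 0} := by
      rintro _ ⟨n, rfl⟩
      change H (n • P) ≤ 0
      rw [hH.mul, hP, mul_zero]
    exact Set.infinite_range_of_injective hinj ((hfin' 0).subset hsub)
  · rintro ⟨n, hn, hnP⟩
    have h0 : H 0 = 0 := by
      have := hH.mul 0 P
      rw [zero_smul] at this
      rw [this]
      have he := hH.exp_pos
      simp only [Nat.cast_zero]
      rw [zero_pow (by omega), zero_mul]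
    have := hH.mul n P
    rw [hnP, h0] at this
    have h2 : (n : ℝ) ^ e ≠ 0 := by
      have : (n : ℝ) ≠ 0 := by exact_mod_cast hn.ne'
      exact pow_ne_zero e this
    rcases mul_eq_zero.mp this.symm with h | h
    · exact absurd h h2
    · exact h

end Pool.Agent.Helper29.BL
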