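import Pool.Agent.Helper29.BL.TDEG
import Pool.Agent.Helper29.BL.GoalsC
namespace Pool.Agent.Helper29.BL
open WeierstrassCurve Height Height.AdmissibleAbsValues Polynomial
open scoped Polynomial.Bivariate

lemma evalEval_C' {K : Type} [CommRing K] (A : K[X]) (x y : K) : (C A : K[X][Y]).evalEval x y = A.eval x :=
  evalEval_C x y A

lemma BDs_C {K : Type} [CommRing K] {A : K[X]} {a : ℕ} (h : A.natDegree ≤ a) :
    BDs a 0 (C A : K[X][Y]) := by
  refine ⟨by simp, fun j => ?_⟩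
  rw [coeff_C]; split_ifs
  · exact h
  · simp

lemma BDs_mapC {K : Type} [CommRing K] {A : K[X]} {a : ℕ} (h : A.natDegree ≤ a) :
    BDs 0 a (A.map C : K[X][Y]) := by
  refine ⟨natDegree_map_le.trans h, fun j => ?_⟩
  rw [coeff_map]; simp

theorem sub_of : MUL → SUB := by
  intro hm K _ _ W₁ W₂ n hn
  obtain ⟨A₁, B₁, h₁⟩ := hm K W₁ n hn
  obtain ⟨A₂, B₂, h₂⟩ := hm K W₂ n hn
  set D := max (max A₁.natDegree B₁.natDegree) (max A₂.natDegree B₂.natDegree) with hD
  have dA₁ : A₁.natDegree ≤ D := (le_max_left _ _).trans (le_max_left _ _)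
  have dB₁ : B₁.natDegree ≤ D := (le_max_right _ _).trans (le_max_left _ _)
  have dA₂ : A₂.natDegree ≤ D := (le_max_left _ _).trans (le_max_right _ _)
  have dB₂ : B₂.natDegree ≤ D := (le_max_right _ _).trans (le_max_right _ _)
  refine ⟨D, fun d F hF => ⟨∑ i ∈ Finset.range (d + 1), ∑ j ∈ Finset.range (d + 1),
    cc K ((F.coeff j).coeff i) * ((C A₁) ^ i * (C B₁) ^ (d - i)) *
      ((A₂.map C) ^ j * (B₂.map C) ^ (d - j)), ?_, ?_⟩⟩
  · refine BDs.toBD (BDs.sum _ fun i hi => BDs.sum _ fun j hj => ?_)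
    have hi' : i + (d - i) = d := Nat.add_sub_cancel' (Nat.le_of_lt_succ (Finset.mem_range.mp hi))
    have hj' : j + (d - j) = d := Nat.add_sub_cancel' (Nat.le_of_lt_succ (Finset.mem_range.mp hj))
    have h := ((BDs.cc ((F.coeff j).coeff i)).mul (((BDs_C dA₁).pow i).mul
      ((BDs_C dB₁).pow (d - i)))).mul (((BDs_mapC dA₂).pow j).mul ((BDs_mapC dB₂).pow (d - j)))
    refine h.mono ?_ ?_
    · simp only [mul_zero, add_zero, zero_add, ← add_mul, hi', le_refl]
    · simp only [mul_zero, add_zero, zero_add, ← add_mul, hj', le_refl]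
  · intro y hy
    obtain ⟨hB₁, e₁⟩ := h₁ y.1 hy.1
    obtain ⟨hB₂, e₂⟩ := h₂ y.2 hy.2
    refine ⟨B₁.eval (xc y.1) ^ d * B₂.eval (xc y.2) ^ d,
      mul_ne_zero (pow_ne_zero _ hB₁) (pow_ne_zero _ hB₂), ?_⟩
    have hk : kap (n • y) = (xc (n • y.1), xc (n • y.2)) := rfl
    rw [hk, hF.eq_sum, Finset.mul_sum]
    simp only [ev, kap, evalEval_finsetSum, evalEval_mul, evalEval_pow, evalEval_C', evalEval_map_C]
    refine Finset.sum_congr rfl fun i hi => ?_
    rw [Finset.mul_sum]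
    refine Finset.sum_congr rfl fun j hj => ?_
    have hi' : i + (d - i) = d := Nat.add_sub_cancel' (Nat.le_of_lt_succ (Finset.mem_range.mp hi))
    have hj' : j + (d - j) = d := Nat.add_sub_cancel' (Nat.le_of_lt_succ (Finset.mem_range.mp hj))
    have p1 : B₁.eval (xc y.1) ^ d = B₁.eval (xc y.1) ^ i * B₁.eval (xc y.1) ^ (d - i) := by
      rw [← pow_add, hi']
    have p2 : B₂.eval (xc y.2) ^ d = B₂.eval (xc y.2) ^ j * B₂.eval (xc y.2) ^ (d - j) := by
      rw [← pow_add, hj']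
    have hcc : (cc K ((F.coeff j).coeff i)).evalEval (xc y.1) (xc y.2) = (F.coeff j).coeff i := by
      simp [cc]
    rw [hcc, p1, p2, ← e₁, ← e₂, mul_pow, mul_pow]
    ring

end Pool.Agent.Helper29.BL
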