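import Pool.Agent.Helper29.BL.EIG
namespace Pool.Agent.Helper29.BL
open WeierstrassCurve Height Height.AdmissibleAbsValues Polynomial
open scoped Polynomial.Bivariate

lemma prod_signs {M : Type} [CommMonoid M] (f : ℤˣ → M) : ∏ s : ℤˣ, f s = f 1 * f (-1) := by
  have : (Finset.univ : Finset ℤˣ) = {1, -1} := by decide
  rw [this, Finset.prod_pair (by decide)]

lemma prod_signs2 {M : Type} [CommMonoid M] (f : ℤˣ × ℤˣ → M) :
    ∏ s : ℤˣ × ℤˣ, f s = f (1, 1) * f (1, -1) * (f (-1, 1) * f (-1, -1)) := by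
  rw [Fintype.prod_prod_type, prod_signs, prod_signs, prod_signs]

theorem t2_of : ADD → XEQ → QUADR → EIG → T2 := by
  intro ha hx hq he F _ _ W₁ W₂ m P y v hP hy hv hyy hvv hyv hyv'
  have key : ∀ (W : Affine F) (p q : W.Point), p ≠ 0 → q ≠ 0 → p + p ≠ 0 → q + q ≠ 0 → p + q ≠ 0 →
      p - q ≠ 0 → Uf (xc q) (xc p) ≠ 0 ∧ xc (p + q) - xc (p - q) ≠ 0 ∧
      (Uf (xc q) (xc p) * xc (p + q) ^ 2 - Tf W (xc q) (xc p) * xc (p + q) +
        Sf W (xc q) (xc p) = 0) ∧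
      (Uf (xc q) (xc p) * xc (p - q) ^ 2 - Tf W (xc q) (xc p) * xc (p - q) +
        Sf W (xc q) (xc p) = 0) := by
    intro W p q hp hq' hpp hqq hpq hpq'
    have h1 : p ≠ q := fun h => hpq' (by rw [h]; simp)
    have h2 : p ≠ -q := fun h => hpq (by rw [h]; simp)
    obtain ⟨h3, h4, h5⟩ := ha F W p q hp hq' h1 h2
    refine ⟨?_, ?_, ?_, ?_⟩
    · simp only [Uf]; exact pow_ne_zero 2 (sub_ne_zero.mpr h3)
    · rw [sub_ne_zero]
      intro h6
      rcases ((hx F W).1 _ _ hpq hpq').mp h6 with h7 | h7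
      · apply hqq
        have : q + q = (p + q) - (p - q) := by abel
        rw [this, h7]; simp
      · apply hpp
        have : p + p = (p + q) + (p - q) := by abel
        rw [this, h7]; simp
    · linear_combination xc (p + q) * h4 - h5
    · linear_combination xc (p - q) * h4 - h5
  obtain ⟨u1, d1, a1, b1⟩ := key W₁ y.1 v.1 hy.1 hv.1 hyy.1 hvv.1 hyv.1 hyv'.1
  obtain ⟨u2, d2, a2, b2⟩ := key W₂ y.2 v.2 hy.2 hv.2 hyy.2 hvv.2 hyv.2 hyv'.2
  refine ⟨u1, u2, ?_⟩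
  set U₁ := Uf (xc v.1) (xc y.1)
  set U₂ := Uf (xc v.2) (xc y.2)
  set z₁ : Fin 2 → F := ![xc (y.1 + v.1), xc (y.1 - v.1)] with hz₁
  set z₂ : Fin 2 → F := ![xc (y.2 + v.2), xc (y.2 - v.2)] with hz₂
  have hroot1 : ∀ i, U₁ * z₁ i ^ 2 - Tf W₁ (xc v.1) (xc y.1) * z₁ i +
      Sf W₁ (xc v.1) (xc y.1) = 0 := by
    intro i; fin_cases i
    · exact a1
    · exact b1
  have hroot2 : ∀ i, U₂ * z₂ i ^ 2 - Tf W₂ (xc v.2) (xc y.2) * z₂ i +
      Sf W₂ (xc v.2) (xc y.2) = 0 := by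
    intro i; fin_cases i
    · exact a2
    · exact b2
  set A₁ : Matrix (Fin 2) (Fin 2) F := Matrix.of fun i j => ![z₁ j, 1] i with hA₁
  set A₂ : Matrix (Fin 2) (Fin 2) F := Matrix.of fun i j => ![z₂ j, 1] i with hA₂
  set V : Matrix (Fin 2 × Fin 2) (Fin 2 × Fin 2) F :=
    Matrix.kroneckerMap (fun a b => a * b) A₁ A₂ with hV
  set B := BM W₁ W₂ m P (xc v.1) (xc v.2) (xc y.1) (xc y.2) with hB
  set ei : Fin 2 × Fin 2 → F := fun q => U₁ ^ m * U₂ ^ m * ev P (z₁ q.1, z₂ q.2) with hei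
  have hBV : B * V = V * Matrix.diagonal ei := by
    ext p q
    have h := congrFun (he F W₁ W₂ m P (xc v.1) (xc v.2) (xc y.1) (xc y.2) (z₁ q.1) (z₂ q.2) hP
      (hroot1 q.1) (hroot2 q.2)) p
    rw [Matrix.mul_diagonal]
    simp only [Matrix.mulVec, dotProduct, Pi.smul_apply, smul_eq_mul] at h
    rw [Matrix.mul_apply]
    simp only [hV, hA₁, hA₂, Matrix.kroneckerMap_apply, Matrix.of_apply]
    rw [h]
    ring
  have hdetV : V.det ≠ 0 := by
    have e := Matrix.det_kronecker A₁ A₂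
    have hd1 : A₁.det ≠ 0 := by
      rw [Matrix.det_fin_two]
      simpa [hA₁, hz₁] using d1
    have hd2 : A₂.det ≠ 0 := by
      rw [Matrix.det_fin_two]
      simpa [hA₂, hz₂] using d2
    have : V.det = _ := e
    rw [this]
    exact mul_ne_zero (pow_ne_zero _ hd1) (pow_ne_zero _ hd2)
  have hdet := congrArg Matrix.det hBV
  rw [Matrix.det_mul, Matrix.det_mul, Matrix.det_diagonal, mul_comm] at hdet
  have hmain : B.det = ∏ q, ei q := mul_left_cancel₀ hdetV hdet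
  rw [TT, ← hB, hmain, prod_signs2, Fintype.prod_prod_type, Fin.prod_univ_two, Fin.prod_univ_two,
    Fin.prod_univ_two]
  have hs : ∀ s : ℤˣ × ℤˣ, kap (y + sg s v) = (xc (y.1 + (s.1 : ℤ) • v.1),
    xc (y.2 + (s.2 : ℤ) • v.2)) := fun s => rfl
  simp only [hs, hei, hz₁, hz₂]
  simp [sub_eq_add_neg]
  ring

end Pool.Agent.Helper29.BL
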