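import Pool.Agent.Helper29.BL.TMAP
namespace Pool.Agent.Helper29.BL
open WeierstrassCurve Height Height.AdmissibleAbsValues Polynomial
open scoped Polynomial.Bivariate

section
variable {R : Type} [CommRing R]

/-- `deg_X F ≤ a`, `deg_Y F ≤ b` -/
def BDs (a b : ℕ) (F : R[X][Y]) : Prop := F.natDegree ≤ b ∧ ∀ j, (F.coeff j).natDegree ≤ a

lemma BDs.toBD {k : ℕ} {F : R[X][Y]} (h : BDs k k F) : BD k F := h

lemma BD.toBDs {k : ℕ} {F : R[X][Y]} (h : BD k F) : BDs k k F := h

lemma BDs.mono {a b a' b' : ℕ} (ha : a ≤ a') (hb : b ≤ b') {F : R[X][Y]} (hF : BDs a b F) :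
    BDs a' b' F :=
  ⟨hF.1.trans hb, fun j => (hF.2 j).trans ha⟩

lemma BDs.zero (a b : ℕ) : BDs a b (0 : R[X][Y]) := ⟨by simp, fun j => by simp⟩

lemma BDs.add {a b : ℕ} {F G : R[X][Y]} (hF : BDs a b F) (hG : BDs a b G) : BDs a b (F + G) :=
  ⟨(natDegree_add_le _ _).trans (max_le hF.1 hG.1), fun j => by
    rw [coeff_add]; exact (natDegree_add_le _ _).trans (max_le (hF.2 j) (hG.2 j))⟩

lemma BDs.neg {a b : ℕ} {F : R[X][Y]} (hF : BDs a b F) : BDs a b (-F) :=
  ⟨by rw [natDegree_neg]; exact hF.1, fun j => by rw [coeff_neg, natDegree_neg]; exact hF.2 j⟩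

lemma BDs.sub {a b : ℕ} {F G : R[X][Y]} (hF : BDs a b F) (hG : BDs a b G) : BDs a b (F - G) := by
  rw [sub_eq_add_neg]; exact hF.add hG.neg

lemma BDs.mul {a b a' b' : ℕ} {F G : R[X][Y]} (hF : BDs a b F) (hG : BDs a' b' G) :
    BDs (a + a') (b + b') (F * G) :=
  ⟨natDegree_mul_le.trans (Nat.add_le_add hF.1 hG.1), fun j => by
    rw [coeff_mul]
    refine natDegree_sum_le_of_forall_le _ _ fun p _ => ?_
    exact natDegree_mul_le.trans (Nat.add_le_add (hF.2 _) (hG.2 _))⟩

lemma BDs.sum {ι : Type*} (s : Finset ι) {a b : ℕ} {F : ι → R[X][Y]}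
    (h : ∀ i ∈ s, BDs a b (F i)) : BDs a b (∑ i ∈ s, F i) := by
  classical
  induction s using Finset.induction_on with
  | empty => simpa using BDs.zero a b
  | insert i s hi ih =>
    rw [Finset.sum_insert hi]
    exact (h i (Finset.mem_insert_self i s)).add
      (ih fun j hj => h j (Finset.mem_insert_of_mem hj))

lemma BDs.one : BDs 0 0 (1 : R[X][Y]) := by
  refine ⟨by simp, fun j => ?_⟩
  rw [coeff_one]; split_ifs <;> simp

lemma BDs.prod {ι : Type*} (s : Finset ι) {a b : ι → ℕ} {F : ι → R[X][Y]}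
    (h : ∀ i ∈ s, BDs (a i) (b i) (F i)) : BDs (∑ i ∈ s, a i) (∑ i ∈ s, b i) (∏ i ∈ s, F i) := by
  classical
  induction s using Finset.induction_on with
  | empty => simpa using BDs.one
  | insert i s hi ih =>
    rw [Finset.sum_insert hi, Finset.sum_insert hi, Finset.prod_insert hi]
    exact (h i (Finset.mem_insert_self i s)).mul
      (ih fun j hj => h j (Finset.mem_insert_of_mem hj))

lemma BDs.pow {a b : ℕ} {F : R[X][Y]} (hF : BDs a b F) (n : ℕ) : BDs (n * a) (n * b) (F ^ n) := by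
  induction n with
  | zero => simpa using BDs.one
  | succ n ih => rw [pow_succ, Nat.succ_mul, Nat.succ_mul]; exact ih.mul hF

lemma BDs.cc (r : R) : BDs 0 0 (cc R r) := by
  refine ⟨by simp [BL.cc], fun j => ?_⟩
  simp only [BL.cc, RingHom.coe_comp, Function.comp_apply, coeff_C]
  split_ifs <;> simp

lemma BDs.X : BDs 1 0 (C X : R[X][Y]) := by
  refine ⟨by simp, fun j => ?_⟩
  rw [coeff_C]; split_ifs
  · exact natDegree_X_le
  · simp

lemma BDs.Y : BDs 0 1 (Y : R[X][Y]) := by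
  refine ⟨natDegree_X_le, fun j => ?_⟩
  rw [Polynomial.coeff_X]; split_ifs <;> simp

lemma BDs.sign {a b : ℕ} {F : R[X][Y]} (hF : BDs a b F) (s : ℤˣ) : BDs a b (s • F) := by
  rcases Int.units_eq_one_or s with rfl | rfl
  · simpa using hF
  · simpa using hF.neg

lemma BDs.det {n : Type*} [Fintype n] [DecidableEq n] {a b : ℕ} {M : Matrix n n R[X][Y]}
    (h : ∀ i j, BDs a b (M i j)) : BDs (Fintype.card n * a) (Fintype.card n * b) M.det := by
  rw [Matrix.det_apply]
  refine BDs.sum _ fun σ _ => ?_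
  refine BDs.sign ?_ _
  have := BDs.prod (Finset.univ : Finset n) (a := fun _ => a) (b := fun _ => b)
    (F := fun i => M (σ i) i) (fun i _ => h _ _)
  simpa using this

/-- the entries of a matrix have degrees `≤ a`, `≤ b` -/
def BDM {n : Type*} (a b : ℕ) (M : Matrix n n R[X][Y]) : Prop := ∀ i j, BDs a b (M i j)

lemma BDM.mul {n : Type*} [Fintype n] {a b a' b' : ℕ} {M N : Matrix n n R[X][Y]} (hM : BDM a b M)
    (hN : BDM a' b' N) : BDM (a + a') (b + b') (M * N) := by
  intro i j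
  rw [Matrix.mul_apply]
  exact BDs.sum _ fun x _ => (hM i x).mul (hN x j)

lemma BDM.pow {n : Type*} [Fintype n] [DecidableEq n] {a b : ℕ} {M : Matrix n n R[X][Y]}
    (hM : BDM a b M) (e : ℕ) : BDM (e * a) (e * b) (M ^ e) := by
  induction e with
  | zero =>
    intro i j
    rw [pow_zero, Matrix.one_apply]
    split_ifs
    · simpa using BDs.one
    · exact BDs.zero _ _
  | succ e ih => rw [pow_succ, Nat.succ_mul, Nat.succ_mul]; exact ih.mul hM

/-- degrees of `U` and of the matrix `M` -/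
lemma BDs_Mm (W : WeierstrassCurve R) (c : R) (t : R[X][Y]) {a b : ℕ} (ht : BDs a b t) :
    BDs (2 * a) (2 * b) (Uf (cc R c) t) ∧ BDM (2 * a) (2 * b) (Mm (W.map (cc R)) (cc R c) t) := by
  have hc : ∀ (r : R) (a b : ℕ), BDs a b (cc R r) := fun r a b =>
    (BDs.cc r).mono (Nat.zero_le a) (Nat.zero_le b)
  have hU : BDs (2 * a) (2 * b) (Uf (cc R c) t) := by
    have := (ht.sub (hc c a b)).pow 2
    simpa [Uf] using this
  have htc : BDs a b (t + cc R c) := ht.add (hc c a b)
  have htc' : BDs a b (t * cc R c) := by simpa using ht.mul (hc c 0 0)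
  have hT : BDs (2 * a) (2 * b) (Tf (W.map (cc R)) (cc R c) t) := by
    have e : Tf (W.map (cc R)) (cc R c) t = (t + cc R c) * (t * cc R c) +
        (t + cc R c) * (t * cc R c) + cc R W.b₂ * (t * cc R c) + cc R W.b₄ * (t + cc R c) +
        cc R W.b₆ := by
      simp only [Tf, WeierstrassCurve.map_b₂, WeierstrassCurve.map_b₄, WeierstrassCurve.map_b₆]
      ring
    rw [e, two_mul, two_mul]
    refine ((((htc.mul htc').add (htc.mul htc')).add ?_).add ?_).add (hc _ _ _)
    · exact (hc _ a b).mul htc'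
    · exact (hc _ a b).mul htc
  have hS : BDs (2 * a) (2 * b) (Sf (W.map (cc R)) (cc R c) t) := by
    simp only [Sf, WeierstrassCurve.map_b₈, WeierstrassCurve.map_b₄, WeierstrassCurve.map_b₆]
    refine ((BDs.sub ?_ ?_).sub ?_).sub (hc _ _ _)
    · exact htc'.pow 2
    · rw [two_mul, two_mul]; exact (hc _ a b).mul htc'
    · rw [two_mul, two_mul]; exact (hc _ a b).mul htc
  refine ⟨hU, ?_⟩
  intro i j
  fin_cases i <;> fin_cases j
  · exact hT
  · exact hS.neg
  · exact hU
  · exact BDs.zero _ _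

end

theorem tdeg : TDEG := by
  intro R _ W₁ W₂ m F c₁ c₂ hF
  obtain ⟨hU₁, hM₁⟩ := BDs_Mm W₁ c₁ (C X) BDs.X
  obtain ⟨hU₂, hM₂⟩ := BDs_Mm W₂ c₂ Y BDs.Y
  have hent : ∀ p q, BDs (2 * m) (2 * m) (BM (W₁.map (cc R)) (W₂.map (cc R)) m
      (F.map (mapRingHom (cc R))) (cc R c₁) (cc R c₂) (C X) Y p q) := by
    intro p q
    simp only [BM, Matrix.sum_apply, Matrix.smul_apply, Matrix.kroneckerMap_apply, smul_eq_mul]
    refine BDs.sum _ fun i hi => BDs.sum _ fun j hj => ?_
    have hi' : m - i + i = m := Nat.sub_add_cancel (Nat.le_of_lt_succ (Finset.mem_range.mp hi))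
    have hj' : m - j + j = m := Nat.sub_add_cancel (Nat.le_of_lt_succ (Finset.mem_range.mp hj))
    rw [coeff_mapF]
    have h := (((BDs.cc ((F.coeff j).coeff i)).mul (hU₁.pow (m - i))).mul (hU₂.pow (m - j))).mul
      ((hM₁.pow i p.1 q.1).mul (hM₂.pow j p.2 q.2))
    refine h.mono ?_ ?_
    · simp only [mul_one, mul_zero, add_zero, zero_add]
      omega
    · simp only [mul_one, mul_zero, add_zero, zero_add]
      omega
  have := BDs.det hent
  simp only [Fintype.card_prod, Fintype.card_fin] at this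
  rw [Tr, TT]
  exact this.mono (by omega) (by omega)

end Pool.Agent.Helper29.BL
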