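import Pool.Agent.Helper29.BL.EIG
namespace Pool.Agent.Helper29.BL
open WeierstrassCurve Height Height.AdmissibleAbsValues Polynomial
open scoped Polynomial.Bivariate

section
variable {R R' : Type} [CommRing R] [CommRing R']

lemma map_Uf (f : R →+* R') (c t : R) : Uf (f c) (f t) = f (Uf c t) := by simp [Uf]

lemma map_Tf (f : R →+* R') (W : WeierstrassCurve R) (c t : R) :
    Tf (W.map f) (f c) (f t) = f (Tf W c t) := by
  have h2 : f 2 = 2 := map_ofNat f 2
  simp [Tf, WeierstrassCurve.map_b₂, WeierstrassCurve.map_b₄, WeierstrassCurve.map_b₆, h2]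

lemma map_Sf (f : R →+* R') (W : WeierstrassCurve R) (c t : R) :
    Sf (W.map f) (f c) (f t) = f (Sf W c t) := by
  simp [Sf, WeierstrassCurve.map_b₈, WeierstrassCurve.map_b₄, WeierstrassCurve.map_b₆]

lemma map_Mm (f : R →+* R') (W : WeierstrassCurve R) (c t : R) :
    Mm (W.map f) (f c) (f t) = (Mm W c t).map f := by
  ext i j
  fin_cases i <;> fin_cases j <;> simp [Mm, map_Tf, map_Sf, map_Uf]

lemma coeff_mapF (f : R →+* R') (F : R[X][Y]) (i j : ℕ) :
    ((F.map (mapRingHom f)).coeff j).coeff i = f ((F.coeff j).coeff i) := by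
  rw [Polynomial.coeff_map, coe_mapRingHom, Polynomial.coeff_map]

lemma map_pow_mat (f : R →+* R') (M : Matrix (Fin 2) (Fin 2) R) (i : ℕ) :
    (M.map f) ^ i = (M ^ i).map f := by
  have := map_pow (f.mapMatrix (m := Fin 2)) M i
  simpa [RingHom.mapMatrix_apply] using this.symm

lemma map_BM (f : R →+* R') (W₁ W₂ : WeierstrassCurve R) (m : ℕ)
    (F : R[X][Y]) (c₁ c₂ t₁ t₂ : R) : BM (W₁.map f) (W₂.map f) m (F.map (mapRingHom f)) (f c₁) (f c₂)
      (f t₁) (f t₂) = (BM W₁ W₂ m F c₁ c₂ t₁ t₂).map f := by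
  ext p q
  simp only [BM, Matrix.sum_apply, Matrix.smul_apply, Matrix.map_apply, Matrix.kroneckerMap_apply,
    smul_eq_mul, map_Mm, map_pow_mat, map_Uf, coeff_mapF, map_sum, map_mul, map_pow]

lemma map_TT (f : R →+* R') (W₁ W₂ : WeierstrassCurve R) (m : ℕ)
    (F : R[X][Y]) (c₁ c₂ t₁ t₂ : R) : TT (W₁.map f) (W₂.map f) m (F.map (mapRingHom f)) (f c₁) (f c₂)
      (f t₁) (f t₂) = f (TT W₁ W₂ m F c₁ c₂ t₁ t₂) := by
  rw [TT, TT, map_BM, RingHom.map_det]
  rfl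

lemma TT_symm (W₁ W₂ : WeierstrassCurve R) (m : ℕ) (F : R[X][Y])
    (c₁ c₂ t₁ t₂ : R) : TT W₁ W₂ m F c₁ c₂ t₁ t₂ = TT W₁ W₂ m F t₁ t₂ c₁ c₂ := by
  have hU : ∀ c t : R, Uf c t = Uf t c := fun c t => by simp only [Uf]; ring
  have hT : ∀ (W : WeierstrassCurve R) (c t : R), Tf W c t = Tf W t c := fun W c t => by
    simp only [Tf]; ring
  have hS : ∀ (W : WeierstrassCurve R) (c t : R), Sf W c t = Sf W t c := fun W c t => by
    simp only [Sf]; ring
  have hM : ∀ (W : WeierstrassCurve R) (c t : R), Mm W c t = Mm W t c := fun W c t => by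
    rw [Mm, Mm, hU, hT, hS]
  rw [TT, TT, BM, BM, hM W₁, hM W₂, hU c₁, hU c₂]

/-- evaluation at `(a,b)` after base change, as a ring homomorphism -/
noncomputable def evH (f : R →+* R') (a b : R') : R[X][Y] →+* R' :=
  (evalEvalRingHom a b).comp (mapRingHom (mapRingHom f))

lemma evH_apply (f : R →+* R') (a b : R') (F : R[X][Y]) :
    evH f a b F = ev (F.map (mapRingHom f)) (a, b) := rfl

lemma ev_Tr_map (f : R →+* R') (W₁ W₂ : WeierstrassCurve R) (m : ℕ)
    (F : R[X][Y]) (c₁ c₂ : R) (a b : R') : ev ((Tr W₁ W₂ m F c₁ c₂).map (mapRingHom f)) (a, b) =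
      TT (W₁.map f) (W₂.map f) m (F.map (mapRingHom f)) (f c₁) (f c₂) a b := by
  rw [← evH_apply, Tr, ← map_TT]
  have hc : (evH f a b).comp (cc R) = f := by
    ext r
    simp [evH, cc]
  have hc' : ∀ r, evH f a b (cc R r) = f r := fun r => by
    rw [← RingHom.comp_apply, hc]
  have hX : evH f a b (C X) = a := by simp [evH]
  have hY : evH f a b Y = b := by simp [evH]
  rw [WeierstrassCurve.map_map, WeierstrassCurve.map_map, hc, hc', hc', hX, hY, Polynomial.map_map,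
    Polynomial.mapRingHom_comp, hc]

end

theorem tmap : TMAP := by
  refine ⟨?_, ?_, ?_, ?_⟩
  · intro R R' _ _ f W₁ W₂ m F c₁ c₂ t₁ t₂
    exact map_TT f W₁ W₂ m F c₁ c₂ t₁ t₂
  · intro R _ W₁ W₂ m F c₁ c₂ t₁ t₂
    exact TT_symm W₁ W₂ m F c₁ c₂ t₁ t₂
  · intro R R' _ _ f W₁ W₂ m F c₁ c₂ a b
    exact ev_Tr_map f W₁ W₂ m F c₁ c₂ a b
  · intro R _ W₁ W₂ m F c₁ c₂ a b
    have h := ev_Tr_map (RingHom.id R) W₁ W₂ m F c₁ c₂ a b
    simpa [Polynomial.mapRingHom_id, WeierstrassCurve.map_id] using h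

end Pool.Agent.Helper29.BL
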