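import Pool.Agent.Helper29.BL.GoalsA
import Pool.Agent.Helper29.BL.PS
namespace Pool.Agent.Helper29.BL
open WeierstrassCurve Height Height.AdmissibleAbsValues Polynomial
open scoped Polynomial.Bivariate

theorem trig_of : TRI → TRIG := by
  rintro ⟨C, n, hC, hT⟩ K _ _ _ W
  refine ⟨totalWeight K * Real.log C + n * PS (fun v => Real.log (bet W v)), fun P Q hP hQ hPQ => ?_⟩
  have hloc : ∀ v : AbsoluteValue K ℝ,
      min (Real.posLog (v (xc P))) (Real.posLog (v (xc Q))) ≤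
        Real.log (cst v C) + n * Real.log (bet W v) + Real.posLog (v (xc (P - Q))) := by
    intro v
    have h := hT K v W P Q hP hQ hPQ
    have h1 : 0 < min (Mv v (xc P)) (Mv v (xc Q)) := lt_min (Mv_pos _ _) (Mv_pos _ _)
    have h2 := Real.log_le_log h1 h
    rw [log_min_Mv, Real.log_mul (mul_pos (cst_pos v hC) (pow_pos (bet_pos W v) n)).ne'
      (Mv_pos _ _).ne', Real.log_mul (cst_pos v hC).ne' (pow_pos (bet_pos W v) n).ne',
      Real.log_pow, log_Mv] at h2
    exact h2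
  have hF1 : FS (fun v : AbsoluteValue K ℝ => Real.log (cst v C)) := FS_log_cst C
  have hF2 : FS (fun v : AbsoluteValue K ℝ => (n : ℝ) * Real.log (bet W v)) :=
    (FS_log_bet W).const_mul _
  have hF3 := FS_posLog (K := K) (xc (P - Q))
  have h := PS_mono ((FS_posLog (xc P)).min (FS_posLog (xc Q))) ((hF1.add hF2).add hF3) hloc
  rw [PS_add (hF1.add hF2) hF3, PS_add hF1 hF2, PS_const_mul, PS_posLog] at h
  have h4 := PS_log_cst (K := K) hC
  change _ ≤ hx (P - Q) + _
  simp only [hx]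
  linarith

/-- pairwise bound of the common part -/
lemma pair_bound {K : Type} [Field K] [NumberField K] [DecidableEq K] {W₁ W₂ : Affine K}
    {C₁ C₂ : ℝ}
    (h₁ : ∀ P Q : W₁.Point, P ≠ 0 → Q ≠ 0 → P ≠ Q →
      PS (fun v => min (Real.posLog (v (xc P))) (Real.posLog (v (xc Q)))) ≤ hx (P - Q) + C₁)
    (h₂ : ∀ P Q : W₂.Point, P ≠ 0 → Q ≠ 0 → P ≠ Q →
      PS (fun v => min (Real.posLog (v (xc P))) (Real.posLog (v (xc Q)))) ≤ hx (P - Q) + C₂)
    (z z' : W₁.Point × W₂.Point) (hz : Aff z) (hz' : Aff z') (hne : z ≠ z') :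
    PS (fun v => min (lam v z) (lam v z')) ≤ hh (z - z') + max C₁ C₂ := by
  have hF := (FS_lam z).min (FS_lam z')
  by_cases h : z.1 = z'.1
  · have h' : z.2 ≠ z'.2 := fun h' => hne (Prod.ext h h')
    have h3 := h₂ z.2 z'.2 hz.2 hz'.2 h'
    have h4 : PS (fun v => min (lam v z) (lam v z')) ≤
        PS (fun v => min (Real.posLog (v (xc z.2))) (Real.posLog (v (xc z'.2)))) :=
      PS_mono hF ((FS_posLog _).min (FS_posLog _)) fun v =>
        min_le_min (min_le_right _ _) (min_le_right _ _)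
    have h5 : hh (z - z') = hx (z.1 - z'.1) + hx (z.2 - z'.2) := rfl
    have h6 := hx_nonneg (z.1 - z'.1)
    have h7 := le_max_right C₁ C₂
    linarith
  · have h3 := h₁ z.1 z'.1 hz.1 hz'.1 h
    have h4 : PS (fun v => min (lam v z) (lam v z')) ≤
        PS (fun v => min (Real.posLog (v (xc z.1))) (Real.posLog (v (xc z'.1)))) :=
      PS_mono hF ((FS_posLog _).min (FS_posLog _)) fun v =>
        min_le_min (min_le_left _ _) (min_le_left _ _)
    have h5 : hh (z - z') = hx (z.1 - z'.1) + hx (z.2 - z'.2) := rfl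
    have h6 := hx_nonneg (z.2 - z'.2)
    have h7 := le_max_left C₁ C₂
    linarith

/-- the lower bound for the sum of the maxima: if `lam v z ≤ f v` for all `z ∈ S` -/
lemma sum_bound (hmm : MM) {K : Type} [Field K] [NumberField K] [DecidableEq K]
    {W₁ W₂ : Affine K} {C : ℝ}
    (hp : ∀ z z' : W₁.Point × W₂.Point, Aff z → Aff z' → z ≠ z' →
      PS (fun v => min (lam v z) (lam v z')) ≤ hh (z - z') + C) (hC : 0 ≤ C)
    (S : Finset (W₁.Point × W₂.Point)) (hS : S.Nonempty) {e G : ℝ} (he : 0 ≤ e)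
    (hA : ∀ z ∈ S, Aff z) (hG : ∀ z ∈ S, G ≤ gg z) (hd : ∀ z ∈ S, ∀ z' ∈ S, hh (z - z') ≤ e)
    (f : AbsoluteValue K ℝ → ℝ) (hf : FS f) (hle : ∀ v, ∀ z ∈ S, lam v z ≤ f v) :
    (S.card : ℝ) * G - (S.card : ℝ) ^ 2 * (e + C) ≤ PS f := by
  have h1 : ∀ v : AbsoluteValue K ℝ, ∑ z ∈ S, lam v z - ∑ p ∈ S.offDiag,
      min (lam v p.1) (lam v p.2) ≤ f v := fun v =>
    hmm _ S (fun z => lam v z) (f v) hS (fun z _ => lam_nonneg v z) (hle v)
  have F1 : FS (fun v : AbsoluteValue K ℝ => ∑ z ∈ S, lam v z) := FS.sum S fun z _ => FS_lam z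
  have F2 : FS (fun v : AbsoluteValue K ℝ => ∑ p ∈ S.offDiag, min (lam v p.1) (lam v p.2)) :=
    FS.sum S.offDiag fun p _ => (FS_lam p.1).min (FS_lam p.2)
  have h2 := PS_mono (F1.sub F2) hf h1
  rw [PS_sub F1 F2, PS_sum S fun z _ => FS_lam z,
    PS_sum S.offDiag (f := fun p v => min (lam v p.1) (lam v p.2))
      fun p _ => (FS_lam p.1).min (FS_lam p.2)] at h2
  have h3 : (S.card : ℝ) * G ≤ ∑ z ∈ S, PS (fun v => lam v z) := by
    rw [← nsmul_eq_mul]
    exact Finset.card_nsmul_le_sum S _ G hG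
  have h4 : ∑ p ∈ S.offDiag, PS (fun v => min (lam v p.1) (lam v p.2)) ≤
      (S.card : ℝ) ^ 2 * (e + C) := by
    have h5 : ∑ p ∈ S.offDiag, PS (fun v => min (lam v p.1) (lam v p.2)) ≤
        S.offDiag.card • (e + C) := by
      refine Finset.sum_le_card_nsmul _ _ _ fun p hp' => ?_
      rw [Finset.mem_offDiag] at hp'
      have := hp p.1 p.2 (hA _ hp'.1) (hA _ hp'.2.1) hp'.2.2
      have := hd p.1 hp'.1 p.2 hp'.2.1
      linarith
    refine h5.trans ?_
    rw [nsmul_eq_mul]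
    refine mul_le_mul_of_nonneg_right ?_ (by linarith)
    rw [Finset.offDiag_card, pow_two]
    have : S.card * S.card - S.card ≤ S.card * S.card := Nat.sub_le _ _
    exact_mod_cast this
  linarith

end Pool.Agent.Helper29.BL
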