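import Pool.Agent.Helper29.BL.TRIG
namespace Pool.Agent.Helper29.BL
open WeierstrassCurve Height Height.AdmissibleAbsValues Polynomial
open scoped Polynomial.Bivariate

theorem vf_of : TRIG → MM → VF := by
  intro ht hmm K _ _ _ W₁ W₂ d hd
  obtain ⟨C₁, h₁⟩ := ht K W₁
  obtain ⟨C₂, h₂⟩ := ht K W₂
  set C := max (max C₁ C₂) 0 with hC
  have hC0 : 0 ≤ C := le_max_right _ _
  have hp : ∀ z z' : W₁.Point × W₂.Point, Aff z → Aff z' → z ≠ z' →
      PS (fun v => min (lam v z) (lam v z')) ≤ hh (z - z') + C := fun z z' hz hz' hne =>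
    (pair_bound h₁ h₂ z z' hz hz' hne).trans (by linarith [le_max_left (max C₁ C₂) (0 : ℝ)])
  set s₀ : ℕ := ⌈7 / d⌉₊ + 1 with hs₀
  have hs1 : (1 : ℝ) ≤ s₀ := by rw [hs₀]; push_cast; linarith [Nat.cast_nonneg (α := ℝ) ⌈7 / d⌉₊]
  have hs7 : 7 ≤ (s₀ : ℝ) * d := by
    have h1 : 7 / d ≤ (⌈7 / d⌉₊ : ℝ) := Nat.le_ceil _
    have h2 : (⌈7 / d⌉₊ : ℝ) ≤ s₀ := by rw [hs₀]; push_cast; linarith
    have h3 : 7 / d ≤ s₀ := h1.trans h2
    rwa [div_le_iff₀ hd] at h3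
  refine ⟨1 / (s₀ : ℝ) ^ 2, by positivity, (s₀ : ℝ) ^ 2 * C + 1, s₀, ?_⟩
  intro T hT S hS hdiam hcase
  by_contra hcon
  push Not at hcon
  obtain ⟨S', hS'S, hS'c⟩ := Finset.exists_subset_card_eq hcon.le
  have hne : S'.Nonempty := by
    rw [← Finset.card_pos, hS'c]; omega
  have hTpos : 0 < T := by
    have : 0 ≤ (s₀ : ℝ) ^ 2 * C := by positivity
    linarith
  obtain ⟨z₀, hz₀⟩ := hne
  have key : ∀ f : AbsoluteValue K ℝ → ℝ, FS f → (∀ v, ∀ z ∈ S', lam v z ≤ f v) → PS f ≤ 5 * T →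
      False := by
    intro f hf hle hPf
    have h := sum_bound hmm hp hC0 S' ⟨z₀, hz₀⟩ (e := 1 / (s₀ : ℝ) ^ 2 * T) (G := d * T)
      (by positivity) (fun z hz => (hS z (hS'S hz)).1) (fun z hz => (hS z (hS'S hz)).2.2)
      (fun z hz z' hz' => hdiam z (hS'S hz) z' (hS'S hz')) f hf hle
    rw [hS'c] at h
    have e1 : (s₀ : ℝ) ^ 2 * (1 / (s₀ : ℝ) ^ 2 * T + C) = T + (s₀ : ℝ) ^ 2 * C := by
      field_simp
    rw [e1] at h
    have h2 : 7 * T ≤ (s₀ : ℝ) * (d * T) := by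
      rw [← mul_assoc]; exact mul_le_mul_of_nonneg_right hs7 hTpos.le
    linarith
  rcases hcase with hc | hc
  · refine key (fun v => Real.posLog (v (xc z₀.1))) (FS_posLog _) ?_ ?_
    · intro v z hz
      have := hc z (hS'S hz) z₀ (hS'S hz₀)
      rw [← this]; exact min_le_left _ _
    · rw [PS_posLog]
      have h1 := (hS z₀ (hS'S hz₀)).2.1
      have h2 : hh z₀ = hx z₀.1 + hx z₀.2 := rfl
      have h3 := hx_nonneg z₀.2
      have h4 : hx z₀.1 = logHeight₁ (xc z₀.1) := rfl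
      linarith
  · refine key (fun v => Real.posLog (v (xc z₀.2))) (FS_posLog _) ?_ ?_
    · intro v z hz
      have := hc z (hS'S hz) z₀ (hS'S hz₀)
      rw [← this]; exact min_le_right _ _
    · rw [PS_posLog]
      have h1 := (hS z₀ (hS'S hz₀)).2.1
      have h2 : hh z₀ = hx z₀.1 + hx z₀.2 := rfl
      have h3 := hx_nonneg z₀.1
      have h4 : hx z₀.2 = logHeight₁ (xc z₀.2) := rfl
      linarith

end Pool.Agent.Helper29.BL
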