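import Pool.Agent.Helper29.BL.Defs

/-!
# Project BL, goals A: formulas on elliptic curves, canonical heights, local estimates

Every `def NAME : Prop` is a packet; the docstring contains the proof.  Absolute constants are
existentially quantified: any value will do.
-/

namespace Pool.Agent.Helper29.BL

open WeierstrassCurve Height Height.AdmissibleAbsValues Polynomial
open scoped Polynomial.Bivariate

noncomputable section

/-! ## Formulas -/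

/-- ADD. `x(P+Q)+x(P-Q) = T/U`, `x(P+Q)x(P-Q) = S/U` for `P, Q ≠ 0`, `P ≠ ±Q`
(any Weierstrass curve over a field). Direct computation with the slopes: `P = (x₁,y₁)`,
`Q = (x₂,y₂)`, `-Q = (x₂, -y₂-a₁x₂-a₃)`, `x₁ ≠ x₂` (`Affine.Point.X_eq_iff`). -/
def ADD : Prop := ∀ (F : Type) [Field F] [DecidableEq F] (W : Affine F) (P Q : W.Point),
  P ≠ 0 → Q ≠ 0 → P ≠ Q → P ≠ -Q →
  xc P ≠ xc Q ∧ Uf (xc Q) (xc P) * (xc (P + Q) + xc (P - Q)) = Tf W (xc Q) (xc P) ∧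
    Uf (xc Q) (xc P) * (xc (P + Q) * xc (P - Q)) = Sf W (xc Q) (xc P)

/-- DBL. Duplication: `2P ≠ 0` iff `B(x(P)) ≠ 0` and then `x(2P) = A(x(P))/B(x(P))`. -/
def DBL : Prop := ∀ (F : Type) [Field F] [DecidableEq F] (W : Affine F) (P : W.Point), P ≠ 0 →
  (P + P = 0 → Bf W (xc P) = 0) ∧
  (P + P ≠ 0 → Bf W (xc P) ≠ 0 ∧ Bf W (xc P) * xc (P + P) = Af W (xc P))

/-- QUADR. `z = x(P+Q)` satisfies `U z² - T z + S = 0` (at `(x(Q), x(P))`) whenever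
`P, Q, P+Q ≠ 0`; and `U, T` are not both zero there. (From ADD if `P ≠ Q`; from DBL if `P = Q`:
then `U = 0`, `T = B`, `S = A`.) -/
def QUADR : Prop := ∀ (F : Type) [Field F] [DecidableEq F] (W : Affine F) (P Q : W.Point),
  P ≠ 0 → Q ≠ 0 → P + Q ≠ 0 →
  Uf (xc Q) (xc P) * xc (P + Q) ^ 2 - Tf W (xc Q) (xc P) * xc (P + Q) + Sf W (xc Q) (xc P) = 0 ∧
    (Uf (xc Q) (xc P) = 0 → Tf W (xc Q) (xc P) ≠ 0)

/-- XEQ. Equality of `x`-coordinates, and finiteness of the fibres of `x`. -/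
def XEQ : Prop := ∀ (F : Type) [Field F] [DecidableEq F] (W : Affine F),
  (∀ P Q : W.Point, P ≠ 0 → Q ≠ 0 → (xc P = xc Q ↔ P = Q ∨ P = -Q)) ∧
  (∀ P : W.Point, xc (-P) = xc P)

/-- PAR. The approximate parallelogram law for the naive height. Mathlib:
`WeierstrassCurve.abs_logHeight_addSubMap_sub_two_mul_logHeight_le`,
`Height.abs_logHeight_sym2_sub_le`, `Affine.Point.sym2x`. Show that `sym2x (P+Q) (P-Q)` is a nonzero
scalar multiple of the value of `addSubMap` at `sym2x P Q` in all cases (`P` or `Q` zero, `P = ±Q`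
from DBL, otherwise ADD), and `hx P = logHeight P.xRep`. -/
def PAR : Prop := ∀ (K : Type) [Field K] [NumberField K] [DecidableEq K] (W : Affine K)
  [W.IsElliptic], ∃ C : ℝ, ∀ P Q : W.Point,
    |hx (P + Q) + hx (P - Q) - 2 * hx P - 2 * hx Q| ≤ C

/-- CAN. Canonical heights exist (Tate's limit `lim hx(2^n P)/4^n`; the parallelogram law passes to
the limit; `|hx(2P) - 4 hx(P)| ≤ C` from PAR with `P = Q`). Assume PAR. -/
def CAN : Prop := ∀ (K : Type) [Field K] [NumberField K] [DecidableEq K] (W : Affine K)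
  [W.IsElliptic], ∃ (H : W.Point → ℝ) (c₀ : ℝ), CanH W H c₀

/-- QSN. A nonnegative function with the parallelogram law on an abelian group is a quadratic form
and its square root is a seminorm. (`B(x,y) = (H(x+y)-H(x)-H(y))/2` is biadditive by the
Jordan-von Neumann argument; `H(mx+ny) ≥ 0` for all integers `m,n` gives Cauchy-Schwarz.) -/
def QSN : Prop := ∀ (G : Type) [AddCommGroup G] (H : G → ℝ), IsQuad H →
  H 0 = 0 ∧ (∀ x, H (-x) = H x) ∧ (∀ (n : ℤ) (x : G), H (n • x) = (n : ℝ) ^ 2 * H x) ∧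
    ∀ x y, √(H (x + y)) ≤ √(H x) + √(H y)

/-- NOR. Northcott: finitely many points of bounded canonical height; `H P = 0` only for torsion
points. (`Northcott` instance for `mulHeight₁` in `Mathlib/NumberTheory/Height/NumberField.lean`,
`finite_setOfPred_logHeight₁_le`; at most two points for each value of `xc`, plus the point at
infinity. If `H P = 0` then all `n • P` have `H = 0`.) You may assume QSN and XEQ. -/
def NOR : Prop := ∀ (K : Type) [Field K] [NumberField K] [DecidableEq K] (W : Affine K),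
  (∀ B : ℝ, {P : W.Point | hx P ≤ B}.Finite) ∧
  ∀ (H : W.Point → ℝ) (c₀ : ℝ), CanH W H c₀ →
    (∀ B : ℝ, {P : W.Point | H P ≤ B}.Finite) ∧ (∀ P, H P = 0 → ∃ n : ℕ, 0 < n ∧ n • P = 0) ∧
    (∀ P (n : ℕ), 0 < n → n • P = 0 → H P = 0)

/-- PACK. A packing bound in finitely generated groups with a quadratic form. Proof: let
`γ₁..γ_r` generate `Γ`, `B(x,y) = (H(x+y)-H(x)-H(y))/2` biadditive (QSN argument),
`Q = (B(γ_i,γ_j))` is a real positive semidefinite matrix (nonnegative on integer vectors by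
`H ≥ 0`, hence on rational ones, hence on real ones by continuity), so `Q = Lᵀ L`, and
`φ(Σ n_i γ_i) := L n` has `|φ(n)|² = H(Σ n_i γ_i)`. For a base point `b₀ ∈ B` put into the same
class the points `z` for which the integers `⌊(r+1) (φ(z - b₀))_i / ρ⌋` agree (choose for every
`z ∈ Γ` one integer vector): `(2κ(r+1)+3)^r` classes. -/
def PACK : Prop := ∀ (G : Type) [AddCommGroup G] (Γ : AddSubgroup G), Γ.FG →
  ∀ (H : G → ℝ), IsQuad H → ∀ κ : ℝ, 1 ≤ κ → ∃ N : ℕ, ∀ (B : Finset G), (∀ z ∈ B, z ∈ Γ) →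
    ∀ ρ : ℝ, 0 < ρ → (∀ z ∈ B, ∀ z' ∈ B, √(H (z - z')) ≤ κ * ρ) →
    ∃ f : G → Fin N, ∀ z ∈ B, ∀ z' ∈ B, f z = f z' → √(H (z - z')) ≤ ρ

/-! ## Local estimates: `v` is any absolute value; if it is nonarchimedean all absolute constants
are `1` (`cst v C`). -/

/-- TRI. `min(M(x(P)),M(x(Q))) ≤ C β^n M(x(P-Q))` for `P, Q ≠ 0`, `P ≠ Q`.
Proof (`β = bet W v`, constants only if `v` is archimedean). `a=x(P)`, `c=x(Q)`, `m=min(|a|,|c|)`,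
`mx=max(|a|,|c|)`. We may assume `m > 19 β`. Then `|S| ≥ ½|ac|²`, `|T| ≤ 8β|ac| mx`,
`|U| ≤ 4 mx²`. If `P ≠ -Q` then by ADD `U ≠ 0`, `S ≠ 0` so `x(P+Q), x(P-Q) ≠ 0`, and
`w=1/x(P-Q)`, `w'=1/x(P+Q)` satisfy `w+w'=T/S`, `ww'=U/S`, `|w+w'| ≤ 16β/m`, `|ww'| ≤ 8/m²`, so
`|w|² ≤ (16β/m)|w| + 8/m²`, `|w| ≤ 19β/m`. If `P = -Q` then `U = 0`, `x(P-Q) = x(2P) = S/T` (DBL),
`|x(P-Q)| ≥ |a|/(16β)`. Nonarchimedean: the same with all numerical constants `1`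
(`|S| = |ac|²`, `|T| ≤ β|ac|mx`, `|U| ≤ mx²`, `|w| ≤ β/m`). Assume ADD, DBL. -/
def TRI : Prop := ∃ (C : ℝ) (n : ℕ), 1 ≤ C ∧ ∀ (K : Type) [Field K] [DecidableEq K]
  (v : AbsoluteValue K ℝ) (W : Affine K) (P Q : W.Point), P ≠ 0 → Q ≠ 0 → P ≠ Q →
  min (Mv v (xc P)) (Mv v (xc Q)) ≤ cst v C * bet W v ^ n * Mv v (xc (P - Q))

/-- CL. If `R` is close to `0` (`|c|` large, `c=x(R)`) then `x(P-R)` is close to `x(P)`:
`|a-e|² M(c) ≤ C β^n M(a)² M(e)²`, `a=x(P)`, `e=x(P-R)`, `P, R ≠ 0`, `P ≠ R`.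
Proof. `θ=6400β²` (`β²` if nonarchimedean). Case `M(c) > θ M(a)`: `|c|=M(c)`, `P ≠ ±R`,
`|a-c| ≥ ½|c|`. `e'=x(P+R)`. By ADD `(a-e)(a-e') = (a²U-aT+S)/U = (A(a)-cB(a))/(a-c)²`, of absolute
value `≤ 52β M(a)³/|c|`, and `(e-e')² = (T²-4US)/U² = B(a)B(c)/(a-c)⁴`, `≤ 1024β² M(a)³/|c|`
(the two polynomial identities need `W.b_relation`: `4b₈=b₂b₆-b₄²`). With `p=a-e`:
`|p|² ≤ |p||e-e'| + |(a-e)(a-e')|`, so `|p| ≤ 40β M(a)^{3/2}|c|^{-1/2} ≤ M(a)/2`, so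
`M(e) ≥ M(a)/2` and `|p|² M(c) ≤ 1600β² M(a)³ ≤ 3200β² M(a)²M(e)²`.
(nonarchimedean: `|p| ≤ max(|e-e'|, √|pq|) ≤ β M(a)^{3/2}|c|^{-1/2} < M(a)`, so `M(e) ≥ M(a)`.)
Case `M(c) ≤ θ M(a)`: by TRI `min(M(a),M(c)) ≤ c_T M(e)`, so `M(e) ≥ M(c)/(c_T θ)`,
`M(a) ≥ M(c)/θ`, `|a-e| ≤ 2 max(M(a),M(e)) = 2M(a)M(e)/min(M(a),M(e)) ≤ 2 c_T θ M(a)M(e)/M(c)`.
It may be convenient to square the estimates to avoid square roots. Assume ADD, DBL, TRI. -/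
def CL : Prop := ∃ (C : ℝ) (n : ℕ), 1 ≤ C ∧ ∀ (K : Type) [Field K] [DecidableEq K]
  (v : AbsoluteValue K ℝ) (W : Affine K) (P R : W.Point), P ≠ 0 → R ≠ 0 → P ≠ R →
  v (xc P - xc (P - R)) ^ 2 * Mv v (xc R) ≤
    cst v C * bet W v ^ n * (Mv v (xc P) ^ 2 * Mv v (xc (P - R)) ^ 2)

/-- EV. `F ∈ BD(k)`, `F(a',b')=0`, `|a-a'| ≤ D M(a)M(a')`, `|b-b'| ≤ D M(b)M(b')`:
`|F(a,b)| ≤ C_k |F| M(a)^k M(b)^k D`.
Proof. For `a` put `r(a)=(a,1)` if `|a| ≤ 1`, `(1,1/a)` otherwise. `F^h(x₀,x₁;y₀,y₁) =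
Σ f_ij x₀^i x₁^{k-i} y₀^j y₁^{k-j}`; `|F(a,b)| = M(a)^k M(b)^k |F^h(r(a),r(b))|`. The determinant
`r(a)∧r(a')` has absolute value `|a-a'|/(M(a)M(a')) ≤ D` (four cases). One component of `r(a')` is
`1`: there is `s`, `|s| ≤ 1` (a component of `r(a)`), such that `r(a) - s r(a')` has one component `0`
and the other `± r(a)∧r(a')`. Same for `b` with `s'`.
`F^h(s r(a'), s' r(b')) = s^k s'^k F^h(r(a'),r(b')) = 0` and two products of `2k` factors of absolute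
value `≤ 1`, which differ factorwise by `≤ D`, differ by `≤ 2kD` (by `≤ D` if `v` is
nonarchimedean). `C_k = 2k(k+1)²+1` is fine. -/
def EV : Prop := ∃ C : ℕ → ℝ, (∀ k, 1 ≤ C k) ∧ ∀ (K : Type) [Field K]
  (v : AbsoluteValue K ℝ) (k : ℕ) (F : K[X][Y]) (a b a' b' : K) (D : ℝ), BD k F →
  ev F (a', b') = 0 → 0 ≤ D → v (a - a') ≤ D * (Mv v a * Mv v a') →
  v (b - b') ≤ D * (Mv v b * Mv v b') →
  v (ev F (a, b)) ≤ cst v (C k) * cmax k F v * (Mv v a ^ k * Mv v b ^ k) * D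

/-- LOC. Combination of CL and EV (`D² = C β^n / min(M(x(z₁)),M(x(z₂)))`). Assume CL, EV. -/
def LOC : Prop := ∃ (C : ℕ → ℝ) (n : ℕ), (∀ k, 1 ≤ C k) ∧ ∀ (K : Type) [Field K] [DecidableEq K]
  (v : AbsoluteValue K ℝ) (W₁ W₂ : Affine K) (k : ℕ) (F : K[X][Y]) (x z : W₁.Point × W₂.Point),
  BD k F → Aff x → Aff z → x.1 ≠ z.1 → x.2 ≠ z.2 → ev F (kap (x - z)) = 0 →
  v (ev F (kap x)) ^ 2 * min (Mv v (xc z.1)) (Mv v (xc z.2)) ≤
    cst v (C k) * (bet W₁ v * bet W₂ v) ^ n * cmax k F v ^ 2 *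
      (Mv v (xc x.1) * Mv v (xc x.2)) ^ (2 * k)

/-- MM. `max a_i ≥ Σ a_i - Σ_{i≠j} min(a_i,a_j)` for nonnegative reals (nonempty index set).
(Sum over ordered pairs is fine.) -/
def MM : Prop := ∀ (ι : Type) [DecidableEq ι] (s : Finset ι) (a : ι → ℝ) (M : ℝ), s.Nonempty →
  (∀ i ∈ s, 0 ≤ a i) → (∀ i ∈ s, a i ≤ M) →
  ∑ i ∈ s, a i - ∑ p ∈ s.offDiag, min (a p.1) (a p.2) ≤ M

/-! ## Sums over places -/

/-- TRIG. Global form of TRI: `Σ_v min(log⁺|x(P)|, log⁺|x(Q)|) ≤ hx(P-Q) + C`.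
(`log` of TRI: `min(log⁺ |x(P)|, log⁺ |x(Q)|) ≤ log(cst v C) + n log(bet W v) + log⁺ |x(P-Q)|`;
sum over the places: `PS (log cst) ≤ totalWeight * log C`, `PS (log bet)` is a constant depending on
`W` only (finite support), `PS (log⁺|x(P-Q)|) = hx (P-Q)` by `logHeight₁_eq`.) Assume TRI.
The calculus of `PS` is in `PS.lean`. -/
def TRIG : Prop := ∀ (K : Type) [Field K] [NumberField K] [DecidableEq K] (W : Affine K),
  ∃ C : ℝ, ∀ P Q : W.Point, P ≠ 0 → Q ≠ 0 → P ≠ Q →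
    PS (fun v => min (Real.posLog (v (xc P))) (Real.posLog (v (xc Q)))) ≤ hx (P - Q) + C

/-- CR. Small solutions of linear systems by minors. `V = span(e_i) ⊂ K^J`, `w ∉ V` because of `f₀`.
Choose a basis `e_1..e_r` of `V` among the `e_i`, and `r+1` columns for which the determinant
of the rows `w, e_1, .., e_r` is not zero; `f(y) = det(y; e_1; ..; e_r)` restricted to these columns.
The coefficients of `f` are `± r × r` minors of `(e_1..e_r)`: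
`logHeight f ≤ Σ logHeight(e_i) + log(r!) totalWeight`. -/
def CR : Prop := ∀ (K : Type) [Field K] [NumberField K] (J : Type) [Fintype J], ∃ C : ℝ, 0 ≤ C ∧
  ∀ (ι : Type) (e : ι → J → K) (H : ℝ), 0 ≤ H → (∀ i, logHeight (e i) ≤ H) →
  ∀ (w f₀ : J → K), (∀ i, ∑ j, f₀ j * e i j = 0) → ∑ j, f₀ j * w j ≠ 0 →
  ∃ f : J → K, (∀ i, ∑ j, f j * e i j = 0) ∧ ∑ j, f j * w j ≠ 0 ∧ logHeight f ≤ C * (1 + H)

/-- DET. Interpolation with small height: from CR with the monomial vectors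
`(p₁^i p₂^j)_{i,j≤k}` (`logHeight ≤ k h(p₁) + k h(p₂)`, e.g. `logHeight_fun_mul_eq`, `logHeight` of
`(1,a,..,a^k)` is `k h(a)`). Assume CR. -/
def DET : Prop := ∀ (K : Type) [Field K] [NumberField K] (k : ℕ), ∃ C : ℝ, 0 ≤ C ∧
  ∀ (S : Finset (K × K)) (H : ℝ), 0 ≤ H → (∀ p ∈ S, logHeight₁ p.1 + logHeight₁ p.2 ≤ H) →
  ∀ (w : K × K) (F : K[X][Y]), BD k F → (∀ p ∈ S, ev F p = 0) → ev F w ≠ 0 →
  ∃ F' : K[X][Y], BD k F' ∧ (∀ p ∈ S, ev F' p = 0) ∧ ev F' w ≠ 0 ∧ hp k F' ≤ C * (1 + H)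

/-- MI. The main inequality.
Proof. `S` empty: trivial. Otherwise take `F'` of DET for the points `κ(x-z)`, `z ∈ S`:
`hp k F' ≤ C_k(1+εT)`. By LOC (for every `z ∈ S`), for all `v`, taking logarithms,
`log|F'(κ(x))|_v ≤ c_v + log|F'|_v + k(log⁺|a|+log⁺|b|) - ½ max_z λ_v(z)`, where
`Σ_v c_v ≤ C'_k`. Sum over `v` (product formula for `F'(κ(x)) ≠ 0`; `PS(log|F'|_v) = hp k F'`):
`½ PS(max_z λ_v(z)) ≤ hp k F' + k hh x + C'_k`. By MM `max_z λ_v(z) ≥ Σ λ_v(z) - Σ_{z≠z'}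
min(λ_v(z),λ_v(z'))`; for `z ≠ z'`, say `z.1 ≠ z'.1`, `PS(min(λ_v(z),λ_v(z'))) ≤
PS(min(log⁺|x(z.1)|, log⁺|x(z'.1)|)) ≤ hx(z.1-z'.1)+C ≤ εT+C` (TRIG). So
`½(s d T - s²(εT+C)) ≤ C_k(1+εT) + 5kT + C'_k`. Take `ε` small and `T₀` large (depending on `kmax`,
`smax`, `d`, `W₁`, `W₂`). Assume LOC, TRIG, DET, MM. -/
def MI : Prop := ∀ (K : Type) [Field K] [NumberField K] [DecidableEq K] (W₁ W₂ : Affine K)
  (kmax smax : ℕ) (d : ℝ), 0 < d →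
  ∃ ε : ℝ, 0 < ε ∧ ∃ T₀ : ℝ, ∀ T : ℝ, T₀ ≤ T → ∀ (x : W₁.Point × W₂.Point)
    (S : Finset (W₁.Point × W₂.Point)), Aff x → hh x ≤ 5 * T → S.card ≤ smax →
    (∀ z ∈ S, Aff z ∧ Aff (x - z) ∧ hh (x - z) ≤ ε * T ∧ d * T ≤ gg z) →
    (∀ z ∈ S, ∀ z' ∈ S, hh (z - z') ≤ ε * T) →
    ∀ k : ℕ, k ≤ kmax → ∀ F : K[X][Y], BD k F → (∀ z ∈ S, ev F (kap (x - z)) = 0) →
    ev F (kap x) ≠ 0 → (S.card : ℝ) * d ≤ 12 * (k + 1)

/-- VF. Few bad points with the same first (or second) coordinate in a small ball.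
Proof for the first coordinate `P₀` (`S` nonempty), for a subset `S'` of `s ≤ s₀ = ⌈7/d⌉+1` elements
(`N = s₀`): by MM and TRIG (`z.2 ≠ z'.2` if `z ≠ z'`), and `λ_v(z) ≤ log⁺|x(P₀)|`:
`s d T - s²(εT+C) ≤ PS(max_z λ_v(z)) ≤ hx P₀ ≤ 5T`. Contradiction for `s = s₀`, `ε` small, `T` large.
Assume TRIG, MM. -/
def VF : Prop := ∀ (K : Type) [Field K] [NumberField K] [DecidableEq K] (W₁ W₂ : Affine K)
  (d : ℝ), 0 < d → ∃ ε : ℝ, 0 < ε ∧ ∃ (T₀ : ℝ) (N : ℕ), ∀ T : ℝ, T₀ ≤ T →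
    ∀ S : Finset (W₁.Point × W₂.Point), (∀ z ∈ S, Aff z ∧ hh z ≤ 5 * T ∧ d * T ≤ gg z) →
    (∀ z ∈ S, ∀ z' ∈ S, hh (z - z') ≤ ε * T) →
    ((∀ z ∈ S, ∀ z' ∈ S, z.1 = z'.1) ∨ (∀ z ∈ S, ∀ z' ∈ S, z.2 = z'.2)) → S.card ≤ N

/-- RH. Height of a root: `hx(η) ≤ height of the coefficients + C_d`.
Proof: let `n` be the degree of `p` (`n ≥ 1`). For every `v`:
`|p_n| M(η) ≤ cst v (d+1) · max_j |p_j|` (if `|η| > 1`: `|p_n η^n| = |Σ_{j<n} p_j η^j| ≤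
cst v d · max|p_j| |η|^{n-1}`). Take logarithms, sum over `v`, product formula for `p_n`. -/
def RH : Prop := ∀ (K : Type) [Field K] [NumberField K] (d : ℕ), ∃ C : ℝ, ∀ (p : K[X]) (η : K),
  p ≠ 0 → p.natDegree ≤ d → p.eval η = 0 →
  logHeight₁ η ≤ logHeight (fun j : Fin (d + 1) => p.coeff j) + C

end

end Pool.Agent.Helper29.BL
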