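import Pool.Agent.Helper29.BL.ADD
import Pool.Agent.Helper29.BL.ALG
import Pool.Agent.Helper29.BL.ALGg
import Pool.Agent.Helper29.BL.CAN
import Pool.Agent.Helper29.BL.CR
import Pool.Agent.Helper29.BL.DET
import Pool.Agent.Helper29.BL.EIG
import Pool.Agent.Helper29.BL.EMB
import Pool.Agent.Helper29.BL.EV
import Pool.Agent.Helper29.BL.LOC
import Pool.Agent.Helper29.BL.MI
import Pool.Agent.Helper29.BL.MM
import Pool.Agent.Helper29.BL.MUL
import Pool.Agent.Helper29.BL.NOR
import Pool.Agent.Helper29.BL.NORg
import Pool.Agent.Helper29.BL.PAR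
import Pool.Agent.Helper29.BL.PEX
import Pool.Agent.Helper29.BL.QSN
import Pool.Agent.Helper29.BL.RH
import Pool.Agent.Helper29.BL.SUB
import Pool.Agent.Helper29.BL.T2
import Pool.Agent.Helper29.BL.TDEG
import Pool.Agent.Helper29.BL.TMAP
import Pool.Agent.Helper29.BL.TRIG
import Pool.Agent.Helper29.BL.VF
import Pool.Agent.Helper20.BL.PACK
import Pool.Agent.Helper22.BL.AUT
import Pool.Agent.Helper49.BL.GEN
import Pool.Agent.Helper55.BL.TRI
import Pool.Agent.Helper74.BL.CL
import Pool.Agent.Helper85.BL.BZ
import Pool.Agent.Helper85.BL.LS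
import Pool.Agent.Helper85.BL.SL
import Pool.Agent.Helper85.BL.ST
import Pool.Agent.Helper85.BL.EL
import Pool.Agent.Helper85.BL.HDX
import Pool.Agent.Helper85.BL.GP
import Pool.Agent.Helper93.BL.HT
import Pool.Agent.Helper56.BL.PEXg

/-!
# Project BL: the statements shared by both rounds
-/

namespace Pool.Agent.Helper29.BL

theorem th_tri : TRI := Pool.Agent.Helper55.BL.tri_of add dbl

theorem th_cl : CL := Pool.Agent.Helper74.BL.cl_of add dbl th_tri

theorem th_trig : TRIG := trig_of th_tri

theorem th_vf : VF := vf_of th_trig mm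

theorem th_det : DET := det_of cr

theorem th_loc : LOC := loc_of th_cl ev_bound

theorem th_mi : MI := mi_of th_loc th_trig th_det mm

theorem th_t1 : T1 := t1_of quadr eig

theorem th_t2 : T2 := t2_of add xeq quadr eig

theorem th_mul : MUL := mul_of add dbl

theorem th_sub : SUB := sub_of th_mul

theorem th_par : PAR := par_of add dbl xeq

theorem th_can : CAN := can_of th_par

theorem th_nor : NOR := nor_of qsn xeq

theorem th_norg : NORg := norg_of th_nor

theorem th_alg : ALG := alg_of quadr dbl

theorem th_algg : ALGg := algg_of quadr dbl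

theorem th_pack : PACK := pack

theorem th_bz : BZ := Pool.Agent.Helper85.BL.bz

theorem th_sl : SL := Pool.Agent.Helper85.BL.sl (Pool.Agent.Helper85.BL.ls th_bz)

theorem th_st : ST := Pool.Agent.Helper85.BL.st th_bz th_sl

theorem th_el : EL := Pool.Agent.Helper85.BL.el

theorem th_hdx : HDX := Pool.Agent.Helper85.BL.hdx cr

theorem th_ht : HT := Pool.Agent.Helper93.BL.ht

theorem th_gp : GP := Pool.Agent.Helper85.BL.gp th_t1 tmap tdeg th_ht th_el th_hdx

theorem th_aut : AUT := Pool.Agent.Helper22.BL.aut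

theorem th_gen : GEN := Pool.Agent.Helper49.BL.gen

theorem th_pexg : PEXg := Pool.Agent.Helper56.BL.pexg

end Pool.Agent.Helper29.BL
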