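import Pool.Agent.Helper25.BL.CHAIN
import Pool.Agent.Helper29.BL.GoalsF

/-! # Project BL: CHAINg -/

namespace Pool.Agent.Helper29.BL

/-- **CHAINg**. -/
theorem chaing : CHAINg := by
  intro G _ _ Γ H h0 hneg htri hfin hP t Kc K0 R1 hKc hK0 hR1
  have hsymm : ∀ x y, (fun z => √(H z)) (x - y) = (fun z => √(H z)) (y - x) := by
    intro x y
    have : H (x - y) = H (y - x) := by rw [← hneg (x - y), neg_sub]
    simp only [this]
  have htr : ∀ x y z, (fun z => √(H z)) (x - z) ≤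
      (fun z => √(H z)) (x - y) + (fun z => √(H z)) (y - z) := by
    intro x y z
    have := htri (x - y) (y - z)
    rwa [sub_add_sub_cancel] at this
  have hK : (1 : ℝ) ≤ 16 * Kc ^ 2 := by nlinarith
  obtain ⟨N, hN⟩ := hP (16 * Kc ^ 2) hK
  have hf := hfin ((16 * Kc * K0) ^ 2)
  have hN₁ : ∀ (B : Finset G), (∀ z ∈ B, ∀ z' ∈ B, (fun z => √(H z)) (z - z') ≤ 16 * Kc * K0) →
      B.card ≤ hf.toFinset.card := by
    intro B hB
    rcases Finset.eq_empty_or_nonempty B with rfl | ⟨b, hb⟩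
    · simp
    · refine Finset.card_le_card_of_injOn (fun z => z - b) ?_ ?_
      · intro z hz
        have h1 := hB z hz b hb
        simp only [Set.Finite.coe_toFinset, Set.mem_ofPred_eq]
        have h2 : (0 : ℝ) ≤ 16 * Kc * K0 := by positivity
        exact (Real.sqrt_le_left h2).mp h1
      · intro z _ z' _ h
        exact sub_left_injective h
  obtain ⟨C, hC0, hC⟩ := Pool.Agent.Helper25.BL.key (nrm := fun z => √(H z)) hsymm htr (Γ : Set G)
    Kc K0 R1 hKc hK0 N hN _ hN₁ t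
  refine ⟨2 * C, by positivity, fun B hBΓ hch ρ hρ hd => ?_⟩
  have hρ0 : 0 < ρ := by linarith
  obtain ⟨n, hn⟩ : ∃ n : ℕ, n = ⌈Real.logb 2 ρ⌉₊ := ⟨_, rfl⟩
  have hlb0 : 0 ≤ Real.logb 2 ρ := Real.logb_nonneg (by norm_num) hρ
  have hn1 : (n : ℝ) ≤ Real.logb 2 ρ + 1 := by
    rw [hn]; exact (Nat.ceil_lt_add_one hlb0).le
  have hn2 : ρ ≤ 2 ^ n := by
    have h1 : Real.logb 2 ρ ≤ n := by rw [hn]; exact Nat.le_ceil _
    rw [Real.logb_le_iff_le_rpow (by norm_num) hρ0] at h1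
    rwa [Real.rpow_natCast] at h1
  have h1 := hC n B hBΓ hch fun z hz z' hz' => (hd z hz z' hz').trans hn2
  refine h1.trans ?_
  have hlog2 : (1 : ℝ) / 2 < Real.log 2 := by
    have := Real.log_two_gt_d9; linarith
  have hlρ : 0 ≤ Real.log ρ := Real.log_nonneg hρ
  have h2 : Real.logb 2 ρ ≤ 2 * Real.log ρ := by
    rw [Real.logb, div_le_iff₀ (by linarith)]
    nlinarith
  nlinarith

end Pool.Agent.Helper29.BL
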