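import Pool.Agent.Helper29.BL.GoalsA
import Pool.Agent.Helper29.BL.GoalsF

/-! # Project BL: GHE -/

namespace Pool.Agent.Helper29.BL

/-- **GHE**. -/
theorem ghe_of' : CAN → QSN → PACK → GHE := by
  intro hC hQ hP K _ _ _ W _ Γ hΓ
  obtain ⟨H, c₀, hH⟩ := hC K W
  obtain ⟨h0, hneg, hmul, htri⟩ := hQ _ H hH.quad
  refine ⟨H, c₀, ⟨by norm_num, hH.quad.nonneg, hneg, htri, fun n P => ?_, hH.near⟩,
    fun κ hκ => hP _ Γ hΓ H hH.quad κ hκ⟩
  have := hmul n P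
  rw [natCast_zsmul] at this
  simpa using this

end Pool.Agent.Helper29.BL
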