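import Pool.Agent.Helper29.BL.PS
import Pool.Agent.Helper29.BL.GoalsA
import Pool.Agent.Helper29.BL.GoalsD
import Pool.Agent.Helper29.BL.GoalsF
import Pool.Agent.Helper36.BL.BALLg
import Pool.Agent.Helper62.BL.MAIN

/-!
# Project BL (MP_a41896_nt), packet MAIN.
-/

set_option autoImplicit false

namespace Pool.Agent.Helper29.BL

open Pool.Agent.Helper62.BL Pool.Agent.Helper36.BL WeierstrassCurve Height Height.AdmissibleAbsValues Polynomial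
open scoped Polynomial.Bivariate

noncomputable section

theorem maing_of' : NORg → NOR → BALLg → NDg → ZPg → MAINg := by
  intro hNORg hNOR hBALL hND hZPP K _ _ _ W₁ W₂ H₁ H₂ c₀ e₁ e₂ hC1 hC2 Γ₁ Γ₂ hΓ₁ hΓ₂ δ hδ
  classical
  have hc₀ : 0 ≤ c₀ := (abs_nonneg _).trans (hC1.near 0)
  have hl2 : 0 < Real.log 2 := Real.log_pos (by norm_num)
  have hfin : ∀ A : ℝ, {z : W₁.Point × W₂.Point | hx z.1 ≤ A ∧ hx z.2 ≤ A}.Finite := by
    intro A
    have h := ((hNOR K W₁).1 A).prod ((hNOR K W₂).1 A)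
    exact h.subset fun z hz => ⟨hz.1, hz.2⟩
  have htor : ∀ c : ℝ, (∀ z : W₁.Point × W₂.Point, gg z ≤ c) → ∃ (Z : K[X][Y]) (C : ℝ), Z ≠ 0 ∧
      ∀ T : ℝ, 2 ≤ T → ∀ B : Finset (W₁.Point × W₂.Point),
      (∀ z ∈ B, z.1 ∈ Γ₁ ∧ z.2 ∈ Γ₂ ∧ Aff z ∧ ev Z (kap z) ≠ 0 ∧ hx z.1 ≤ T ∧ hx z.2 ≤ T ∧
        δ * max (hx z.1) (hx z.2) ≤ gg z) → (B.card : ℝ) ≤ C * Real.log T ^ 2 := by
    intro c hc
    obtain ⟨N, hN⟩ := card_le_of_finite (hfin (c / δ))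
    refine ⟨1, N / Real.log 2 ^ 2, one_ne_zero, fun T hT B hB => ?_⟩
    have h1 : B.card ≤ N := by
      refine hN B fun z hz => ?_
      obtain ⟨-, -, -, -, -, -, h⟩ := hB z hz
      have h2 : max (hx z.1) (hx z.2) ≤ c / δ := by
        rw [le_div_iff₀ hδ, mul_comm]
        exact h.trans (hc z)
      exact ⟨(le_max_left _ _).trans h2, (le_max_right _ _).trans h2⟩
    have h2 : Real.log 2 ≤ Real.log T := Real.log_le_log (by norm_num) hT
    have h3 : Real.log 2 ^ 2 ≤ Real.log T ^ 2 := pow_le_pow_left₀ hl2.le h2 2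
    have h4 : (0 : ℝ) ≤ N / Real.log 2 ^ 2 := by positivity
    calc (B.card : ℝ) ≤ N := by exact_mod_cast h1
      _ = N / Real.log 2 ^ 2 * Real.log 2 ^ 2 := by field_simp
      _ ≤ N / Real.log 2 ^ 2 * Real.log T ^ 2 := mul_le_mul_of_nonneg_left h3 h4
  by_cases h1 : ∃ P : W₁.Point, ∀ n : ℕ, 0 < n → n • P ≠ 0
  swap
  · push Not at h1
    refine htor c₀ fun z => (gg_le_left z).trans ?_
    obtain ⟨n, hn, hn0⟩ := h1 z.1
    have h2 := ((hNORg K W₁ H₁ c₀ e₁ hC1).2 z.1).2 ⟨n, hn, hn0⟩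
    have h3 := hC1.near z.1
    rw [h2, zero_sub, abs_neg] at h3
    exact (le_abs_self _).trans h3
  by_cases h2 : ∃ Q : W₂.Point, ∀ n : ℕ, 0 < n → n • Q ≠ 0
  swap
  · push Not at h2
    refine htor c₀ fun z => (gg_le_right z).trans ?_
    obtain ⟨n, hn, hn0⟩ := h2 z.2
    have h3 := ((hNORg K W₂ H₂ c₀ e₂ hC2).2 z.2).2 ⟨n, hn, hn0⟩
    have h4 := hC2.near z.2
    rw [h3, zero_sub, abs_neg] at h4
    exact (le_abs_self _).trans h4
  obtain ⟨P, hP⟩ := h1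
  obtain ⟨Q, hQ⟩ := h2
  obtain ⟨D, ε, hε, T₀, Cb, hCb, hT₀, hball⟩ :=
    hBALL K W₁ W₂ H₁ H₂ c₀ e₁ e₂ hC1 hC2 Γ₁ Γ₂ hΓ₁ hΓ₂ (δ / 2) (by positivity)
  obtain ⟨b, hb, hndeg⟩ := hND K W₁ W₂ H₁ H₂ c₀ e₁ e₂ hC1 hC2 D (P, Q) ⟨hP, hQ⟩
  have hNT : NT ((P, b • Q) : W₁.Point × W₂.Point) := by
    refine ⟨hP, fun n hn => ?_⟩
    show n • (b • Q) ≠ 0
    rw [smul_smul]
    exact hQ (n * b) (Nat.mul_pos hn hb)
  obtain ⟨Z, hZ, hZP⟩ := hZPP K W₁ W₂ H₁ H₂ c₀ e₁ e₂ hC1 hC2 D (P, b • Q) hNT hndeg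
  obtain ⟨N, hN⟩ := pk_prod hC1.nonneg hC2.nonneg hΓ₁ hΓ₂
    (max 1 (2 * √(3 / ε))) (le_max_left _ _)
  have hHneg : ∀ z : W₁.Point × W₂.Point, H₁ (-z).1 + H₂ (-z).2 = H₁ z.1 + H₂ z.2 := fun z => by
    rw [Prod.fst_neg, Prod.snd_neg, hC1.neg, hC2.neg]
  have hHtri := tri_prod hC1.nonneg hC2.nonneg hC1.tri hC2.tri
  obtain ⟨T₁, hT₁, hT₀₁, hcT₁⟩ : ∃ T₁ : ℝ, 1 ≤ T₁ ∧ T₀ ≤ T₁ ∧ 2 * c₀ ≤ T₁ :=
    ⟨max T₀ (2 * c₀), hT₀.trans (le_max_left _ _), le_max_left _ _, le_max_right _ _⟩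
  obtain ⟨N₀, hN₀⟩ := card_le_of_finite (hfin T₁)
  have hlT₁ : 0 ≤ Real.log T₁ := Real.log_nonneg hT₁
  -- one dyadic shell
  have shell : ∀ T' : ℝ, T₁ ≤ T' → ∀ B : Finset (W₁.Point × W₂.Point),
      (∀ z ∈ B, (z.1 ∈ Γ₁ ∧ z.2 ∈ Γ₂ ∧ Aff z ∧ ev Z (kap z) ≠ 0 ∧ hx z.1 ≤ T' ∧ hx z.2 ≤ T' ∧
        δ * max (hx z.1) (hx z.2) ≤ gg z) ∧ T' / 2 ≤ max (hx z.1) (hx z.2)) →
      (B.card : ℝ) ≤ N * (Cb * (1 + Real.log T')) := by
    intro T' hT' B hB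
    have hT'0 : 0 < T' := by linarith
    have hsize : ∀ z ∈ B, H₁ z.1 + H₂ z.2 ≤ 3 * T' := by
      intro z hz
      obtain ⟨⟨-, -, -, -, ha, hb, -⟩, -⟩ := hB z hz
      have h3 := (abs_le.1 (hC1.near z.1)).2
      have h4 := (abs_le.1 (hC2.near z.2)).2
      linarith
    have hdiam : ∀ z ∈ B, ∀ z' ∈ B, √(H₁ (z - z').1 + H₂ (z - z').2) ≤
        max 1 (2 * √(3 / ε)) * √(ε * T') := by
      intro z hz z' hz'
      have h3 := hHtri z (-z')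
      rw [← sub_eq_add_neg, hHneg z'] at h3
      have h4 : √(H₁ z.1 + H₂ z.2) ≤ √(3 * T') := Real.sqrt_le_sqrt (hsize z hz)
      have h5 : √(H₁ z'.1 + H₂ z'.2) ≤ √(3 * T') := Real.sqrt_le_sqrt (hsize z' hz')
      have h6 : √(3 * T') = √(3 / ε) * √(ε * T') := by
        rw [← Real.sqrt_mul (by positivity)]
        congr 1
        field_simp
      calc √(H₁ (z - z').1 + H₂ (z - z').2) ≤ √(H₁ z.1 + H₂ z.2) + √(H₁ z'.1 + H₂ z'.2) := h3
        _ ≤ 2 * √(3 / ε) * √(ε * T') := by rw [h6] at h4 h5; linarith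
        _ ≤ max 1 (2 * √(3 / ε)) * √(ε * T') :=
          mul_le_mul_of_nonneg_right (le_max_right _ _) (Real.sqrt_nonneg _)
    obtain ⟨f, hf⟩ := hN B (fun z hz => ⟨(hB z hz).1.1, (hB z hz).1.2.1⟩) (√(ε * T'))
      (Real.sqrt_pos.2 (by positivity)) hdiam
    have hfib : ∀ i : Fin N, (((B.filter fun z => f z = i).card : ℕ) : ℝ) ≤
        Cb * (1 + Real.log T') := by
      intro i
      refine hball T' (hT₀₁.trans hT') _ (fun z hz => ?_) ⟨fun z hz => ?_, fun z hz => ?_,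
        fun z hz => hsize z (Finset.mem_filter.1 hz).1, fun z hz z' hz' => ?_⟩ (fun z hz => ?_)
      · obtain ⟨hz, -⟩ := Finset.mem_filter.1 hz
        exact ⟨(hB z hz).1.1, (hB z hz).1.2.1⟩
      · obtain ⟨hz, -⟩ := Finset.mem_filter.1 hz
        exact (hZP z (hB z hz).1.2.2.1 (hB z hz).1.2.2.2.1).1
      · obtain ⟨hz, -⟩ := Finset.mem_filter.1 hz
        obtain ⟨⟨-, -, -, -, -, -, h3⟩, h4⟩ := hB z hz
        have h5 := mul_le_mul_of_nonneg_left h4 hδ.le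
        linarith
      · obtain ⟨hz, hzi⟩ := Finset.mem_filter.1 hz
        obtain ⟨hz', hzi'⟩ := Finset.mem_filter.1 hz'
        have h3 := hf z hz z' hz' (hzi.trans hzi'.symm)
        exact (Real.sqrt_le_sqrt_iff (by positivity)).1 h3
      · obtain ⟨hz, -⟩ := Finset.mem_filter.1 hz
        exact (hZP z (hB z hz).1.2.2.1 (hB z hz).1.2.2.2.1).2
    have hcard : B.card = ∑ i : Fin N, (B.filter fun z => f z = i).card :=
      Finset.card_eq_sum_card_fiberwise fun z _ => Finset.mem_coe.2 (Finset.mem_univ _)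
    rw [hcard]
    push_cast
    calc ∑ i : Fin N, (((B.filter fun z => f z = i).card : ℕ) : ℝ)
        ≤ ∑ _i : Fin N, Cb * (1 + Real.log T') := Finset.sum_le_sum fun i _ => hfib i
      _ = N * (Cb * (1 + Real.log T')) := by
        rw [Finset.sum_const, Finset.card_univ, Fintype.card_fin, nsmul_eq_mul]
  have ind : ∀ n : ℕ, ∀ B : Finset (W₁.Point × W₂.Point),
      (∀ z ∈ B, z.1 ∈ Γ₁ ∧ z.2 ∈ Γ₂ ∧ Aff z ∧ ev Z (kap z) ≠ 0 ∧ hx z.1 ≤ T₁ * 2 ^ n ∧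
        hx z.2 ≤ T₁ * 2 ^ n ∧ δ * max (hx z.1) (hx z.2) ≤ gg z) →
      (B.card : ℝ) ≤ N₀ + n * (N * (Cb * (1 + Real.log T₁ + n * Real.log 2))) := by
    intro n
    induction n with
    | zero =>
      intro B hB
      have h3 : B.card ≤ N₀ := hN₀ B fun z hz => by
        obtain ⟨-, -, -, -, h4, h5, -⟩ := hB z hz
        rw [pow_zero, mul_one] at h4 h5
        exact ⟨h4, h5⟩
      have h4 : (B.card : ℝ) ≤ N₀ := by exact_mod_cast h3
      simpa using h4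
    | succ n ih =>
      intro B hB
      have h3 := ih (B.filter fun z => max (hx z.1) (hx z.2) ≤ T₁ * 2 ^ n) (fun z hz => by
        obtain ⟨hz, hzm⟩ := Finset.mem_filter.1 hz
        obtain ⟨a1, a2, a3, a4, -, -, a7⟩ := hB z hz
        exact ⟨a1, a2, a3, a4, (le_max_left _ _).trans hzm, (le_max_right _ _).trans hzm, a7⟩)
      have h2n : (1 : ℝ) ≤ 2 ^ (n + 1) := one_le_pow₀ (by norm_num)
      have h4 := shell (T₁ * 2 ^ (n + 1)) (by nlinarith)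
        (B.filter fun z => ¬ max (hx z.1) (hx z.2) ≤ T₁ * 2 ^ n) (fun z hz => by
          obtain ⟨hz, hzm⟩ := Finset.mem_filter.1 hz
          refine ⟨hB z hz, ?_⟩
          push Not at hzm
          have : T₁ * 2 ^ (n + 1) / 2 = T₁ * 2 ^ n := by rw [pow_succ]; ring
          rw [this]
          exact hzm.le)
      have h5 : B.card = (B.filter fun z => max (hx z.1) (hx z.2) ≤ T₁ * 2 ^ n).card +
          (B.filter fun z => ¬ max (hx z.1) (hx z.2) ≤ T₁ * 2 ^ n).card :=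
        (Finset.card_filter_add_card_filter_not _).symm
      have h6 : Real.log (T₁ * 2 ^ (n + 1)) = Real.log T₁ + (n + 1 : ℕ) * Real.log 2 := by
        rw [Real.log_mul (by linarith) (by positivity), Real.log_pow]
      rw [h6] at h4
      have h7 : (0 : ℝ) ≤ n * (N * (Cb * Real.log 2)) := by positivity
      rw [h5]
      push_cast at h3 h4 ⊢
      nlinarith [h3, h4, h7]
  refine ⟨Z, N₀ / Real.log 2 ^ 2 + (2 / Real.log 2) * (N * Cb) *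
    ((1 + Real.log T₁) / Real.log 2 + 2), hZ, fun T hT B hB => ?_⟩
  have hT0 : 0 < T := by linarith
  have hL : Real.log 2 ≤ Real.log T := Real.log_le_log (by norm_num) hT
  obtain ⟨n, hn1, hn2⟩ : ∃ n : ℕ, T ≤ 2 ^ n ∧ (n : ℝ) ≤ 2 * (Real.log T / Real.log 2) := by
    refine ⟨⌈Real.logb 2 T⌉₊, ?_, ?_⟩
    · have h3 : Real.logb 2 T ≤ (⌈Real.logb 2 T⌉₊ : ℝ) := Nat.le_ceil _
      rw [← Real.rpow_natCast, ← Real.logb_le_iff_le_rpow (by norm_num) hT0]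
      exact h3
    · have h3 : (1 : ℝ) ≤ Real.logb 2 T := by
        rw [Real.logb, le_div_iff₀ hl2, one_mul]
        exact hL
      have h4 := Nat.ceil_lt_add_one (show 0 ≤ Real.logb 2 T by linarith)
      rw [← Real.log_div_log] at h3 h4 ⊢
      linarith
  have h3 := ind n B (fun z hz => by
    obtain ⟨a1, a2, a3, a4, a5, a6, a7⟩ := hB z hz
    have h2n : (0 : ℝ) < 2 ^ n := by positivity
    have hTn : T ≤ T₁ * 2 ^ n := by nlinarith
    exact ⟨a1, a2, a3, a4, a5.trans hTn, a6.trans hTn, a7⟩)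
  refine h3.trans ?_
  obtain ⟨r, hr⟩ : ∃ r, r = Real.log T / Real.log 2 := ⟨_, rfl⟩
  have hr1 : 1 ≤ r := by rw [hr, le_div_iff₀ hl2, one_mul]; exact hL
  have hlogT : Real.log T = r * Real.log 2 := by rw [hr]; field_simp
  rw [← hr] at hn2
  have e1 : (N₀ / Real.log 2 ^ 2 + (2 / Real.log 2) * (N * Cb) *
      ((1 + Real.log T₁) / Real.log 2 + 2)) * Real.log T ^ 2 =
      N₀ * r ^ 2 + 2 * r * (N * Cb) * ((1 + Real.log T₁) * r + 2 * r * Real.log 2) := by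
    rw [hlogT]
    field_simp
  rw [e1]
  have hr2 : (1 : ℝ) ≤ r ^ 2 := one_le_pow₀ hr1
  have f1 : (N₀ : ℝ) ≤ N₀ * r ^ 2 := le_mul_of_one_le_right (Nat.cast_nonneg _) hr2
  have f2 : 1 + Real.log T₁ + n * Real.log 2 ≤ (1 + Real.log T₁) * r + 2 * r * Real.log 2 := by
    have g1 : 1 + Real.log T₁ ≤ (1 + Real.log T₁) * r := le_mul_of_one_le_right (by linarith) hr1
    have g2 : (n : ℝ) * Real.log 2 ≤ 2 * r * Real.log 2 := mul_le_mul_of_nonneg_right hn2 hl2.le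
    linarith
  have f3 : (0 : ℝ) ≤ N * Cb := mul_nonneg (Nat.cast_nonneg _) hCb
  have f4 : (0 : ℝ) ≤ 1 + Real.log T₁ + n * Real.log 2 := by positivity
  have f5 : (n : ℝ) * (N * (Cb * (1 + Real.log T₁ + n * Real.log 2))) ≤
      2 * r * (N * Cb) * ((1 + Real.log T₁) * r + 2 * r * Real.log 2) := by
    calc (n : ℝ) * (N * (Cb * (1 + Real.log T₁ + n * Real.log 2)))
        = n * ((N * Cb) * (1 + Real.log T₁ + n * Real.log 2)) := by ring
      _ ≤ (2 * r) * ((N * Cb) * (1 + Real.log T₁ + n * Real.log 2)) :=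
        mul_le_mul_of_nonneg_right hn2 (mul_nonneg f3 f4)
      _ ≤ (2 * r) * ((N * Cb) * ((1 + Real.log T₁) * r + 2 * r * Real.log 2)) :=
        mul_le_mul_of_nonneg_left (mul_le_mul_of_nonneg_left f2 f3) (by linarith)
      _ = _ := by ring
  linarith

end

end Pool.Agent.Helper29.BL
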