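import Pool.Agent.Helper29.BL.Asm
import Pool.Agent.Helper29.BL.GoalsF
import Pool.Agent.Helper29.BL.GHE
import Pool.Agent.Helper29.BL.CHAINg
import Pool.Agent.Helper36.BL.BALLg
import Pool.Agent.Helper39.BL.KPg
import Pool.Agent.Helper5.BL.NDg
import Pool.Agent.Helper54.BL.NISO
import Pool.Agent.Helper54.BL.SPECg
import Pool.Agent.Helper59.BL.CRVg
import Pool.Agent.Helper29.BL.MAINg
import Pool.Agent.Helper83.BL.THINg
import Pool.Agent.Helper85.BL.STBg
import Pool.Agent.Helper86.BL.GHN
import Pool.Agent.Helper29.BL.FINh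
import Pool.Agent.Helper88.BL.ZPg

/-!
# Project BL: the second round (elliptic curves and multiplicative groups)
-/

namespace Pool.Agent.Helper29.BL

theorem th_ghe : GHE := ghe_of' th_can qsn th_pack

theorem th_niso : NISO := Pool.Agent.Helper54.BL.niso

theorem th_ghn : GHN := Pool.Agent.Helper86.BL.ghn_of th_niso

theorem th_specg : SPECg :=
  Pool.Agent.Helper54.BL.specg_of th_gen th_aut th_pexg emb th_algg th_t2 tmap xeq

theorem th_kpg : KPg := Pool.Agent.Helper39.BL.kpg_of th_gen th_pexg th_algg th_t2 tmap tdeg xeq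

theorem th_ndg : NDg := Pool.Agent.Helper5.BL.ndg_of th_norg rh xeq

theorem th_zpg : ZPg := Pool.Agent.Helper88.BL.zpg_of th_mul th_norg

theorem th_chaing : CHAINg := chaing

theorem th_thing : THINg := Pool.Agent.Helper83.BL.thing_of th_vf th_norg grd xeq

theorem th_crvg : CRVg := Pool.Agent.Helper59.BL.crvg_of th_mi th_st th_thing th_gp xeq

theorem th_stbg : STBg := Pool.Agent.Helper85.BL.stbg_of th_specg th_kpg th_sub th_mi

theorem th_ballg : BALLg := Pool.Agent.Helper36.BL.ballg_of th_crvg th_stbg th_chaing th_norg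

theorem th_maing : MAINg :=
  maing_of' th_norg th_nor th_ballg th_ndg th_zpg

theorem th_fc : FC := fc_of th_vf th_nor

theorem th_ndimh : NDIMh := ndimh_of th_maing th_fc th_nor

theorem th_finh : FINh := finh_of th_ndimh th_ghe th_ghn

end Pool.Agent.Helper29.BL
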