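import Mathlib

/-!
# Project BL (MP_a41896_nt): definitions

Vojta's inequality on blow-ups of `E₁ × E₂`.  The paper proof is in `PAPER.md` of this folder.
-/

namespace Pool.Agent.Helper29.BL

open WeierstrassCurve Height Height.AdmissibleAbsValues Polynomial
open scoped Polynomial.Bivariate

noncomputable section

/-! ## Points -/

section points

variable {F : Type} [Field F]

/-- The `x`-coordinate of a point of a Weierstrass curve; `0` at the point at infinity. -/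
def xc {W : Affine F} : W.Point → F
  | .zero => 0
  | .some x _ _ => x

@[simp] lemma xc_zero {W : Affine F} : xc (0 : W.Point) = 0 := rfl

@[simp] lemma xc_some {W : Affine F} {x y : F} (h : W.Nonsingular x y) :
    xc (Affine.Point.some x y h) = x := rfl

variable {W₁ W₂ : Affine F}

/-- The pair of `x`-coordinates of a point of `W₁ × W₂`. -/
def kap (z : W₁.Point × W₂.Point) : F × F := (xc z.1, xc z.2)

/-- Both components of `z` are different from the point at infinity. -/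
def Aff (z : W₁.Point × W₂.Point) : Prop := z.1 ≠ 0 ∧ z.2 ≠ 0

/-- Both components of `z` have infinite order. -/
def NT [DecidableEq F] (z : W₁.Point × W₂.Point) : Prop :=
  (∀ n : ℕ, 0 < n → n • z.1 ≠ 0) ∧ (∀ n : ℕ, 0 < n → n • z.2 ≠ 0)

/-- The sign change `(±P, ±Q)`: `sg (s, s') (P, Q) = (s P, s' Q)`. -/
def sg (s : ℤˣ × ℤˣ) [DecidableEq F] (z : W₁.Point × W₂.Point) : W₁.Point × W₂.Point :=
  ((s.1 : ℤ) • z.1, (s.2 : ℤ) • z.2)

end points

/-! ## Polynomials in `X` (inner variable) and `Y` (outer variable) -/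

section polys

variable {R : Type} [CommRing R]

/-- `deg_X ≤ k` and `deg_Y ≤ k`. -/
def BD (k : ℕ) (F : R[X][Y]) : Prop := F.natDegree ≤ k ∧ ∀ j, (F.coeff j).natDegree ≤ k

/-- The value of `F` at a pair. -/
def ev (F : R[X][Y]) (p : R × R) : R := F.evalEval p.1 p.2

/-- `(t - c)²` -/
def Uf (c t : R) : R := (t - c) ^ 2

/-- the numerator of `x(P+R)+x(P-R)` -/
def Tf (W : WeierstrassCurve R) (c t : R) : R :=
  2 * (t + c) * (t * c) + W.b₂ * (t * c) + W.b₄ * (t + c) + W.b₆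

/-- the numerator of `x(P+R)*x(P-R)` -/
def Sf (W : WeierstrassCurve R) (c t : R) : R :=
  (t * c) ^ 2 - W.b₄ * (t * c) - W.b₆ * (t + c) - W.b₈

/-- numerator of the duplication formula -/
def Af (W : WeierstrassCurve R) (t : R) : R := t ^ 4 - W.b₄ * t ^ 2 - 2 * W.b₆ * t - W.b₈

/-- denominator of the duplication formula -/
def Bf (W : WeierstrassCurve R) (t : R) : R := 4 * t ^ 3 + W.b₂ * t ^ 2 + 2 * W.b₄ * t + W.b₆

/-- The matrix `[[T, -S], [U, 0]]`. -/
def Mm (W : WeierstrassCurve R) (c t : R) : Matrix (Fin 2) (Fin 2) R :=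
  !![Tf W c t, -Sf W c t; Uf c t, 0]

/-- The big `4 × 4` matrix `Σ f_ij U₁^{m-i} U₂^{m-j} M₁^i ⊗ M₂^j`. -/
def BM (W₁ W₂ : WeierstrassCurve R) (m : ℕ) (F : R[X][Y]) (c₁ c₂ t₁ t₂ : R) :
    Matrix (Fin 2 × Fin 2) (Fin 2 × Fin 2) R :=
  ∑ i ∈ Finset.range (m + 1), ∑ j ∈ Finset.range (m + 1),
    ((F.coeff j).coeff i * Uf c₁ t₁ ^ (m - i) * Uf c₂ t₂ ^ (m - j)) •
      (Matrix.kroneckerMap (fun a b => a * b) (Mm W₁ c₁ t₁ ^ i) (Mm W₂ c₂ t₂ ^ j))

/-- The translate form `TT_m F (c₁, c₂, t₁, t₂)`. -/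
def TT (W₁ W₂ : WeierstrassCurve R) (m : ℕ) (F : R[X][Y]) (c₁ c₂ t₁ t₂ : R) : R :=
  (BM W₁ W₂ m F c₁ c₂ t₁ t₂).det

/-- The constants in `R[X][Y]`. -/
def cc (R : Type) [CommRing R] : R →+* R[X][Y] := (C : R[X] →+* R[X][Y]).comp C

/-- The polynomial `TT_m F (c₁, c₂, X, Y)`. -/
def Tr (W₁ W₂ : WeierstrassCurve R) (m : ℕ) (F : R[X][Y]) (c₁ c₂ : R) : R[X][Y] :=
  TT (W₁.map (cc R)) (W₂.map (cc R)) m (F.map (mapRingHom (cc R))) (cc R c₁) (cc R c₂) (C X) Y

end polys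

/-! ## Heights and local functions -/

section heights

variable {K : Type} [Field K]

/-- `max(1,|a|)` -/
def Mv (v : AbsoluteValue K ℝ) (a : K) : ℝ := max 1 (v a)

open Classical in
/-- `1` if `v` is nonarchimedean and `c` otherwise -/
def cst (v : AbsoluteValue K ℝ) (c : ℝ) : ℝ := if IsNonarchimedean v then 1 else c

/-- `max(1,|b₂|,|b₄|,|b₆|,|b₈|)` -/
def bet (W : Affine K) (v : AbsoluteValue K ℝ) : ℝ :=
  max 1 (max (v W.b₂) (max (v W.b₄) (max (v W.b₆) (v W.b₈))))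

/-- The maximum of the absolute values of the coefficients with indices `≤ k`. -/
def cmax (k : ℕ) (F : K[X][Y]) (v : AbsoluteValue K ℝ) : ℝ :=
  ⨆ ij : Fin (k + 1) × Fin (k + 1), v ((F.coeff ij.2).coeff ij.1)

variable {W W₁ W₂ : Affine K}

/-- `min(log⁺|x(P)|, log⁺|x(Q)|)` -/
def lam (v : AbsoluteValue K ℝ) (z : W₁.Point × W₂.Point) : ℝ :=
  min (Real.posLog (v (xc z.1))) (Real.posLog (v (xc z.2)))

variable [AdmissibleAbsValues K]

/-- Sum over the places of `K` (the archimedean ones with their multiplicities). -/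
def PS (f : AbsoluteValue K ℝ → ℝ) : ℝ :=
  ((archAbsVal (K := K)).map f).sum + ∑ᶠ v : nonarchAbsVal (K := K), f v.val

/-- `f` vanishes at almost all nonarchimedean places. -/
def FS (f : AbsoluteValue K ℝ → ℝ) : Prop :=
  (Function.support fun v : nonarchAbsVal (K := K) => f v.val).Finite

/-- The height of the `x`-coordinate (`0` at infinity). -/
def hx (P : W.Point) : ℝ := logHeight₁ (xc P)

/-- `h(x(P)) + h(x(Q))` -/
def hh (z : W₁.Point × W₂.Point) : ℝ := hx z.1 + hx z.2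

/-- `Σ_v min(log⁺|x(P)|_v, log⁺|x(Q)|_v)` -/
def gg (z : W₁.Point × W₂.Point) : ℝ := PS (fun v => lam v z)

/-- The height of the vector of coefficients with indices `≤ k`. -/
def hp (k : ℕ) (F : K[X][Y]) : ℝ :=
  logHeight (fun ij : Fin (k + 1) × Fin (k + 1) => (F.coeff ij.2).coeff ij.1)

end heights

/-! ## Quadratic functions on abelian groups, chains -/

/-- A nonnegative function with the parallelogram law. -/
structure IsQuad {G : Type} [AddCommGroup G] (H : G → ℝ) : Prop where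
  nonneg : ∀ x, 0 ≤ H x
  par : ∀ x y, H (x + y) + H (x - y) = 2 * H x + 2 * H y

/-- `H` is a canonical height on `W`, with distance `≤ c₀` to the naive height. -/
structure CanH {K : Type} [Field K] [AdmissibleAbsValues K] [DecidableEq K] (W : Affine K)
    (H : W.Point → ℝ) (c₀ : ℝ) : Prop where
  quad : IsQuad H
  near : ∀ P, |H P - hx P| ≤ c₀

/-- A `t`-chain in `B`. -/
structure Chain {G : Type} [AddCommGroup G] (nrm : G → ℝ) (B : Finset G) (t : ℕ) (Kc K0 : ℝ)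
    (R1 : ℕ) (x : G) (T : Fin t → Finset G) : Prop where
  x_mem : x ∈ B
  sub : ∀ j, T j ⊆ B
  card : ∀ j, (T j).card = R1
  far : ∀ j, ∀ z ∈ T j, K0 ≤ nrm (x - z)
  sep : ∀ i j, i < j → ∀ z ∈ T i, ∀ z' ∈ T j, Kc * nrm (x - z) ≤ nrm (x - z')
  clust : ∀ j, ∀ z ∈ T j, ∀ z' ∈ T j, ∀ w ∈ T j, Kc * nrm (z - z') ≤ nrm (x - w)

/-- The interpolation property of a finite set `Ξ` relative to the point `w`. -/
def IP {k : Type} [Field k] (τ : ℝ) (w : k × k) (Ξ : Finset (k × k)) : Prop :=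
  ∀ Ξ' ⊆ Ξ, ∀ (d : ℕ) (F : k[X][Y]), BD d F → (∀ p ∈ Ξ', ev F p = 0) → ev F w ≠ 0 →
    τ * (Ξ'.card : ℝ) ≤ d + 1

/-- `z` lies on few curves: there are `1 ≤ k ≤ 16` and `F ≠ 0` in `BD d` which vanishes at all
`κ(n k z)`, `n ≥ 1`. -/
def Deg {K : Type} [Field K] [DecidableEq K] {W₁ W₂ : Affine K} (d : ℕ)
    (z : W₁.Point × W₂.Point) : Prop :=
  ∃ k : ℕ, 1 ≤ k ∧ k ≤ 16 ∧ ∃ F : K[X][Y], F ≠ 0 ∧ BD d F ∧
    ∀ n : ℕ, 1 ≤ n → ev F (kap ((n * k) • z)) = 0

end

end Pool.Agent.Helper29.BL
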