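import Pool.Agent.Helper29.BL.GoalsA
import Pool.Agent.Helper29.BL.GoalsF
import Pool.Agent.Helper29.BL.PS

/-!
# Project BL: FC, the points with a given first coordinate
-/

namespace Pool.Agent.Helper29.BL

open WeierstrassCurve Height Height.AdmissibleAbsValues

noncomputable section

/-- FC. For every point `P ≠ 0` of `W₁` there are at most `N` points `Q` of `Γ₂` such that `(P, Q)` is
bad. -/
def FC : Prop := ∀ (K : Type) [Field K] [NumberField K] [DecidableEq K] (W₁ W₂ : Affine K)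
  (H₂ : W₂.Point → ℝ) (c₀ : ℝ) (e₂ : ℕ), GH W₂ H₂ c₀ e₂ →
  ∀ (Γ₂ : AddSubgroup W₂.Point), Pk Γ₂ H₂ → ∀ δ : ℝ, 0 < δ → ∃ N : ℕ, ∀ P : W₁.Point, P ≠ 0 →
    ∀ B : Finset W₂.Point, (∀ Q ∈ B, Q ∈ Γ₂ ∧ Q ≠ 0 ∧ δ * max (hx P) (hx Q) ≤ gg (P, Q)) →
    B.card ≤ N

theorem fc_of : VF → NOR → FC := by
  classical
  intro hVF hNOR K _ _ _ W₁ W₂ H₂ c₀ e₂ hC2 Γ₂ hP₂ δ₀ hδ₀
  -- we may assume `δ ≤ 1`
  obtain ⟨δ, hδ, hδ1, hδ0⟩ : ∃ δ : ℝ, 0 < δ ∧ δ ≤ 1 ∧ δ ≤ δ₀ :=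
    ⟨min 1 δ₀, lt_min one_pos hδ₀, min_le_left _ _, min_le_right _ _⟩
  have hc₀ : 0 ≤ c₀ := (abs_nonneg _).trans (hC2.near 0)
  obtain ⟨ε, hε, T₀, NV, hV⟩ := hVF K W₁ W₂ (δ ^ 2) (by positivity)
  obtain ⟨T₁, hT₁, hT₀₁, hcT₁, hcε⟩ : ∃ T₁ : ℝ, 1 ≤ T₁ ∧ T₀ ≤ T₁ ∧ c₀ ≤ T₁ ∧ c₀ ≤ ε * T₁ / 2 := by
    refine ⟨max (max 1 T₀) (max c₀ (2 * c₀ / ε)), (le_max_left _ _).trans (le_max_left _ _),
      (le_max_right _ _).trans (le_max_left _ _), (le_max_left _ _).trans (le_max_right _ _), ?_⟩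
    have h1 : 2 * c₀ / ε ≤ max (max 1 T₀) (max c₀ (2 * c₀ / ε)) :=
      (le_max_right _ _).trans (le_max_right _ _)
    rw [div_le_iff₀ hε] at h1
    linarith
  obtain ⟨NP, hNP⟩ := hP₂ (max 1 (4 / √ε)) (le_max_left _ _)
  have hfin : {Q : W₂.Point | hx Q ≤ T₁}.Finite := (hNOR K W₂).1 T₁
  refine ⟨hfin.toFinset.card + NP * NV, fun P hP B hB => ?_⟩
  have hM0 : 0 ≤ hx P := hx_nonneg P
  obtain ⟨T, hTd⟩ : ∃ T : ℝ, T = hx P / δ := ⟨_, rfl⟩
  have hMT : hx P = δ * T := by rw [hTd]; field_simp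
  have hT0 : 0 ≤ T := by rw [hTd]; positivity
  have hQT : ∀ Q ∈ B, hx Q ≤ T := by
    intro Q hQ
    obtain ⟨-, -, h⟩ := hB Q hQ
    have h1 : gg ((P, Q) : W₁.Point × W₂.Point) ≤ hx P := gg_le_left (P, Q)
    have h2 : δ * hx Q ≤ δ₀ * max (hx P) (hx Q) :=
      mul_le_mul hδ0 (le_max_right _ _) (hx_nonneg Q) hδ₀.le
    rw [hTd, le_div_iff₀ hδ]
    linarith
  rcases lt_or_ge T T₁ with hT | hT
  · have h1 : B ⊆ hfin.toFinset := fun Q hQ => hfin.mem_toFinset.2 ((hQT Q hQ).trans hT.le)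
    have h2 := Finset.card_le_card h1
    omega
  -- large `T`
  have hTpos : 0 < T := by linarith
  have hHQ : ∀ Q ∈ B, H₂ Q ≤ 2 * T := by
    intro Q hQ
    have h1 := (abs_le.1 (hC2.near Q)).2
    have h2 := hQT Q hQ
    linarith
  have hdiam : ∀ Q ∈ B, ∀ Q' ∈ B, √(H₂ (Q - Q')) ≤ max 1 (4 / √ε) * √(ε * T / 2) := by
    intro Q hQ Q' hQ'
    have h3 := hC2.tri Q (-Q')
    rw [← sub_eq_add_neg, hC2.neg Q'] at h3
    have h4 : √(H₂ Q) ≤ √(2 * T) := Real.sqrt_le_sqrt (hHQ Q hQ)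
    have h5 : √(H₂ Q') ≤ √(2 * T) := Real.sqrt_le_sqrt (hHQ Q' hQ')
    have h6 : 2 * √(2 * T) = 4 / √ε * √(ε * T / 2) := by
      have e1 : √(ε * T / 2) = √ε * √(T / 2) := by
        rw [← Real.sqrt_mul hε.le]; congr 1; ring
      have e2 : √(2 * T) = 2 * √(T / 2) := by
        have : (2 : ℝ) * T = 2 ^ 2 * (T / 2) := by ring
        rw [this, Real.sqrt_mul (by norm_num), Real.sqrt_sq (by norm_num)]
      have e3 : √ε ≠ 0 := (Real.sqrt_pos.2 hε).ne'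
      rw [e1, e2]
      field_simp
      norm_num
    calc √(H₂ (Q - Q')) ≤ √(H₂ Q) + √(H₂ Q') := h3
      _ ≤ 4 / √ε * √(ε * T / 2) := by rw [← h6]; linarith
      _ ≤ max 1 (4 / √ε) * √(ε * T / 2) :=
        mul_le_mul_of_nonneg_right (le_max_right _ _) (Real.sqrt_nonneg _)
  obtain ⟨f, hf⟩ := hNP B (fun Q hQ => (hB Q hQ).1) (√(ε * T / 2))
    (Real.sqrt_pos.2 (by positivity)) hdiam
  have hfib : ∀ i : Fin NP, (B.filter fun Q => f Q = i).card ≤ NV := by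
    intro i
    have h1 := hV T (hT₀₁.trans hT) ((B.filter fun Q => f Q = i).image fun Q => (P, Q)) ?_ ?_ ?_
    · rwa [Finset.card_image_of_injective _ (Prod.mk_right_injective P)] at h1
    · intro z hz
      obtain ⟨Q, hQ, rfl⟩ := Finset.mem_image.1 hz
      obtain ⟨hQB, -⟩ := Finset.mem_filter.1 hQ
      obtain ⟨-, hQ0, h⟩ := hB Q hQB
      refine ⟨⟨hP, hQ0⟩, ?_, ?_⟩
      · show hx P + hx Q ≤ 5 * T
        have h2 := hQT Q hQB
        have h3 : hx P ≤ T := by rw [hMT]; nlinarith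
        linarith
      · have h2 : δ * hx P ≤ δ₀ * max (hx P) (hx Q) :=
          mul_le_mul hδ0 (le_max_left _ _) hM0 hδ₀.le
        have h3 : δ ^ 2 * T = δ * hx P := by rw [hMT]; ring
        rw [h3]
        linarith
    · intro z hz z' hz'
      obtain ⟨Q, hQ, rfl⟩ := Finset.mem_image.1 hz
      obtain ⟨Q', hQ', rfl⟩ := Finset.mem_image.1 hz'
      obtain ⟨hQB, hQi⟩ := Finset.mem_filter.1 hQ
      obtain ⟨hQB', hQi'⟩ := Finset.mem_filter.1 hQ'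
      have h1 := hf Q hQB Q' hQB' (hQi.trans hQi'.symm)
      have h2 : H₂ (Q - Q') ≤ ε * T / 2 := (Real.sqrt_le_sqrt_iff (by positivity)).1 h1
      have h3 := (abs_le.1 (hC2.near (Q - Q'))).1
      show hx (P - P) + hx (Q - Q') ≤ ε * T
      have h4 : hx (P - P) = 0 := by
        rw [sub_self]
        show logHeight₁ (xc (0 : W₁.Point)) = 0
        rw [xc_zero, logHeight₁_zero]
      have h5 : ε * T₁ / 2 ≤ ε * T / 2 := by nlinarith
      rw [h4]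
      linarith
    · left
      intro z hz z' hz'
      obtain ⟨Q, hQ, rfl⟩ := Finset.mem_image.1 hz
      obtain ⟨Q', hQ', rfl⟩ := Finset.mem_image.1 hz'
      rfl
  have hcard : B.card = ∑ i : Fin NP, (B.filter fun Q => f Q = i).card :=
    Finset.card_eq_sum_card_fiberwise fun z _ => Finset.mem_coe.2 (Finset.mem_univ _)
  have h1 : B.card ≤ NP * NV := by
    rw [hcard]
    calc ∑ i : Fin NP, (B.filter fun Q => f Q = i).card ≤ ∑ _i : Fin NP, NV :=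
          Finset.sum_le_sum fun i _ => hfib i
      _ = NP * NV := by simp
  omega

end

end Pool.Agent.Helper29.BL
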