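import Pool.Agent.Helper86.BL.NDIM
import Pool.Agent.Helper29.BL.GoalsF
import Pool.Agent.Helper29.BL.FC

/-! # Project BL: NDIMh, the n-dimensional form with exponent 2 -/

namespace Pool.Agent.Helper29.BL

open WeierstrassCurve Height Height.AdmissibleAbsValues Polynomial
open scoped Polynomial.Bivariate
open Pool.Agent.Helper86.BL

noncomputable section

/-- NDIMh. NDIMg with `(log T)²` for all `n`: the pairs `(y_0,y_1)` are `≤ C (log T)²` in number by MAINg, and
for every `y_0` the number of `y_i`, `i ≥ 1`, is bounded by FC. -/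
def NDIMh : Prop := ∀ (K : Type) [Field K] [NumberField K] [DecidableEq K] (n : ℕ), 2 ≤ n →
  ∀ (W : Fin n → Affine K) (Γ : ∀ i, AddSubgroup (W i).Point),
  (∀ i, ∃ (H : (W i).Point → ℝ) (c₀ : ℝ) (e : ℕ), GH (W i) H c₀ e ∧ Pk (Γ i) H) →
  ∀ (S : Finset (∀ i, (W i).Point)), (∀ a ∈ S, ∀ i, a i ∈ Γ i) →
  ∀ μ : (∀ i, (W i).Point) → ℝ, ∀ δ : ℝ, 0 < δ →
  ∃ (Z : MvPolynomial (Fin n) K) (C : ℝ), Z ≠ 0 ∧ ∀ T : ℝ, 2 ≤ T →
    ∀ B : Finset (∀ i, (W i).Point),
    (∀ z ∈ B, (∀ i, z i ∈ Γ i) ∧ hL z ≤ T ∧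
      (∀ a ∈ S, (∀ i, z i ≠ a i) ∧ MvPolynomial.eval (fun i => xc (z i - a i)) Z ≠ 0) ∧
      δ * hL z < ∑ a ∈ S, μ a * hE (z - a)) →
    (B.card : ℝ) ≤ C * Real.log T ^ 2

theorem ndimh_of : MAINg → FC → NOR → NDIMh := by
  classical
  intro hMAIN hFC hNOR K _ _ _ n hn W Γ hyp S hS μ δ hδ
  choose H ch e hGH0 hPk using hyp
  obtain ⟨cc, hcc⟩ : ∃ cc : ℝ, cc = ∑ i, |ch i| := ⟨_, rfl⟩
  have hGH : ∀ i, GH (W i) (H i) cc (e i) := fun i =>
    ⟨(hGH0 i).exp_pos, (hGH0 i).nonneg, (hGH0 i).neg, (hGH0 i).tri, (hGH0 i).mul, fun P => by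
      refine ((hGH0 i).near P).trans ((le_abs_self _).trans ?_)
      rw [hcc]
      exact Finset.single_le_sum (f := fun i => |ch i|) (fun _ _ => abs_nonneg _)
        (Finset.mem_univ i)⟩
  have hsub : ∀ i, ∀ P Q : (W i).Point, hx (P - Q) ≤ 2 * hx P + 2 * hx Q + 5 * cc := by
    intro i P Q
    have h1 := (hGH i).tri P (-Q)
    rw [← sub_eq_add_neg, (hGH i).neg] at h1
    have h2 := Real.sq_sqrt ((hGH i).nonneg (P - Q))
    have h3 := Real.sq_sqrt ((hGH i).nonneg P)
    have h4 := Real.sq_sqrt ((hGH i).nonneg Q)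
    have h5 := Real.sqrt_nonneg (H i (P - Q))
    have h6 := abs_le.1 ((hGH i).near (P - Q))
    have h7 := abs_le.1 ((hGH i).near P)
    have h8 := abs_le.1 ((hGH i).near Q)
    have h9 : H i (P - Q) ≤ 2 * H i P + 2 * H i Q := by
      rw [← h2, ← h3, ← h4]
      nlinarith [sq_nonneg (√(H i P) - √(H i Q))]
    linarith
  have hinf : Infinite K := CharZero.infinite K
  have i₀ : Fin n := ⟨0, by omega⟩
  -- constants
  obtain ⟨Cp, hCpd⟩ : ∃ Cp : Fin n → ℝ, Cp = fun _ => 5 * cc := ⟨_, rfl⟩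
  set c : ℝ := ∑ i, (|Cp i| + ∑ a ∈ S, 2 * hx (a i)) with hc
  have hc0 : 0 ≤ c := Finset.sum_nonneg fun i _ => add_nonneg (abs_nonneg _)
    (Finset.sum_nonneg fun a _ => mul_nonneg zero_le_two (hx_nonneg _))
  have hci : ∀ i, ∀ a ∈ S, Cp i + 2 * hx (a i) ≤ c := by
    intro i a ha
    have h1 : |Cp i| + ∑ a ∈ S, 2 * hx (a i) ≤ c := by
      rw [hc]
      exact Finset.single_le_sum (f := fun i => |Cp i| + ∑ a ∈ S, 2 * hx (a i))
        (fun i _ => add_nonneg (abs_nonneg _)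
          (Finset.sum_nonneg fun a _ => mul_nonneg zero_le_two (hx_nonneg _))) (Finset.mem_univ i)
    have h2 : 2 * hx (a i) ≤ ∑ a ∈ S, 2 * hx (a i) :=
      Finset.single_le_sum (f := fun a : ∀ i, (W i).Point => 2 * hx (a i))
        (fun a _ => mul_nonneg zero_le_two (hx_nonneg _)) ha
    have h3 := le_abs_self (Cp i)
    linarith
  have hdiff : ∀ (z a : ∀ i, (W i).Point), a ∈ S → ∀ i, hx (z i - a i) ≤ 2 * hx (z i) + c := by
    intro z a ha i
    have h1 := hsub i (z i) (a i)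
    have h2 := hci i a ha
    rw [hCpd] at h2
    simp only at h2
    linarith
  set s : ℝ := S.card + 1 with hs
  have hs0 : 0 < s := by positivity
  set m : ℝ := 1 + ∑ a ∈ S, |μ a| with hm
  have hm0 : 0 < m := by
    have : 0 ≤ ∑ a ∈ S, |μ a| := Finset.sum_nonneg fun _ _ => abs_nonneg _
    linarith
  have hmμ : ∀ a ∈ S, μ a ≤ m := by
    intro a ha
    have h1 : |μ a| ≤ ∑ a ∈ S, |μ a| :=
      Finset.single_le_sum (f := fun a => |μ a|) (fun _ _ => abs_nonneg _) ha
    have h2 := le_abs_self (μ a)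
    linarith
  set δ' : ℝ := δ / (2 * s * m) with hδ'
  have hδ'0 : 0 < δ' := by positivity
  obtain ⟨p0, hp0⟩ : ∃ p : Fin n, p.1 = 0 := ⟨⟨0, by omega⟩, rfl⟩
  obtain ⟨p1, hp1⟩ : ∃ p : Fin n, p.1 = 1 := ⟨⟨1, by omega⟩, rfl⟩
  have h01 : p0 ≠ p1 := fun h => by
    have := congrArg Fin.val h
    omega
  obtain ⟨Z, C, hZ, hC⟩ :=
    hMAIN K (W p0) (W p1) (H _) (H _) cc (e _) (e _) (hGH _) (hGH _)
      (Γ p0) (Γ p1) (hPk _) (hPk _) δ' hδ'0
  choose Nf hNf using fun i : Fin n =>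
    hFC K (W p0) (W i) (H i) cc (e i) (hGH i) (Γ i) (hPk i) δ' hδ'0
  set ZZ : MvPolynomial (Fin n) K := PhiZ p0 p1 Z with hZZ
  -- small points
  have hfin : ∀ i, {P : (W i).Point | hx P ≤ c}.Finite := fun i => (hNOR K (W i)).1 c
  set N₀ : ℕ := (Fintype.piFinset fun i => (hfin i).toFinset).card with hN₀
  set κ : ℝ := 1 + Real.log (3 + c) / Real.log 2 with hκ
  have hl2 : 0 < Real.log 2 := Real.log_pos one_lt_two
  obtain ⟨M, hM⟩ : ∃ M : ℕ, M = ∏ i, (Nf i + 1) := ⟨_, rfl⟩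
  refine ⟨ZZ, N₀ / Real.log 2 ^ 2 + S.card * ((M * C) * κ ^ 2), PhiZ_ne_zero h01 hZ, ?_⟩
  intro T hT B hB
  have hlT : Real.log 2 ≤ Real.log T := Real.log_le_log two_pos hT
  set T' : ℝ := 2 * T + c + 2 with hT'
  have hT'2 : 2 ≤ T' := by linarith
  set L' : ℝ := Real.log T' with hL'
  have hL'0 : 0 ≤ L' := Real.log_nonneg (by linarith)
  have hL'κ : L' ≤ κ * Real.log T := log_bound hc0 hT
  -- the sets
  set Bs := B.filter fun z => 2 * hL z < c with hBs
  set Ba : (∀ i, (W i).Point) → Finset (∀ i, (W i).Point) := fun a =>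
    B.filter fun z => c ≤ 2 * hL z ∧ δ / s * hL z < m * hE (z - a) with hBa
  have hcov : B ⊆ Bs ∪ S.biUnion Ba := by
    intro z hz
    rw [Finset.mem_union]
    rcases lt_or_ge (2 * hL z) c with h1 | h1
    · left
      exact Finset.mem_filter.2 ⟨hz, h1⟩
    · right
      obtain ⟨-, -, -, hsum⟩ := hB z hz
      by_contra hcon
      have h2 : ∀ a ∈ S, μ a * hE (z - a) ≤ δ / s * hL z := by
        intro a ha
        by_contra h3
        push Not at h3
        apply hcon
        refine Finset.mem_biUnion.2 ⟨a, ha, Finset.mem_filter.2 ⟨hz, h1, h3.trans_le ?_⟩⟩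
        exact mul_le_mul_of_nonneg_right (hmμ a ha) (hE_nonneg _ i₀)
      have h4 := Finset.sum_le_sum h2
      rw [Finset.sum_const, nsmul_eq_mul] at h4
      have h5 : (S.card : ℝ) * (δ / s * hL z) ≤ δ * hL z := by
        have h6 : (S.card : ℝ) * (δ / s) ≤ δ := by
          rw [mul_div_assoc', div_le_iff₀ hs0, hs]
          nlinarith
        have h7 := mul_le_mul_of_nonneg_right h6 (hL_nonneg z)
        linarith
      linarith
  have hBs_card : (Bs.card : ℝ) ≤ N₀ := by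
    have : Bs ⊆ Fintype.piFinset fun i => (hfin i).toFinset := by
      intro z hz
      rw [Fintype.mem_piFinset]
      intro i
      rw [Set.Finite.mem_toFinset]
      show hx (z i) ≤ c
      have h1 := (Finset.mem_filter.1 hz).2
      have h2 := hx_le_hL z i
      have h3 := hL_nonneg z
      linarith
    exact_mod_cast Finset.card_le_card this
  have hCC : 0 ≤ C := by
    have h1 := hC 2 le_rfl ∅ (by simp)
    rw [Finset.card_empty, Nat.cast_zero] at h1
    have h2 : 0 < Real.log 2 ^ 2 := by positivity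
    by_contra h3
    push Not at h3
    nlinarith
  have hBa_card : ∀ a ∈ S, ((Ba a).card : ℝ) ≤ (M * C) * L' ^ 2 := by
    intro a ha
    -- the properties of `z ∈ Ba a`
    have hz : ∀ z ∈ Ba a, (∀ i, z i - a i ∈ Γ i) ∧ (∀ i, z i - a i ≠ 0) ∧
        ev Z (kap ((z p0 - a p0, z p1 - a p1) : (W p0).Point × (W p1).Point)) ≠ 0 ∧
        (∀ i, hx (z i - a i) ≤ T') ∧
        ∀ i, δ' * max (hx (z p0 - a p0)) (hx (z i - a i)) ≤
          gg ((z p0 - a p0, z i - a i) : (W p0).Point × (W i).Point) := by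
      intro z hz
      obtain ⟨hzB, hz1, hz2⟩ := Finset.mem_filter.1 hz
      obtain ⟨hzΓ, hzT, hza, -⟩ := hB z hzB
      obtain ⟨hza1, hza2⟩ := hza a ha
      have hhx : ∀ i, hx (z i - a i) ≤ 4 * hL z := by
        intro i
        have h3 := hdiff z a ha i
        have h4 := hx_le_hL z i
        linarith
      refine ⟨fun i => sub_mem (hzΓ _) (hS a ha _), fun i => sub_ne_zero.2 (hza1 _), ?_,
        fun i => ?_, fun i => ?_⟩
      · rw [hZZ, eval_PhiZ] at hza2
        exact hza2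
      · have h3 := hdiff z a ha i
        have h4 := hx_le_hL z i
        linarith
      · have h5 : max (hx (z p0 - a p0)) (hx (z i - a i)) ≤ 4 * hL z := max_le (hhx _) (hhx _)
        have h6 : 2 * hE (z - a) ≤
            gg ((z p0 - a p0, z i - a i) : (W p0).Point × (W i).Point) := hE_le_gg (z - a) p0 i
        have h7 : δ' * (4 * hL z) ≤ 2 * hE (z - a) := by
          have h8 : δ' * (4 * hL z) = 2 * ((δ / s * hL z) / m) := by
            rw [hδ']
            field_simp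
            ring
          have h9 : (δ / s * hL z) / m ≤ hE (z - a) := by
            rw [div_le_iff₀ hm0, mul_comm]
            rw [mul_comm m] at hz2
            linarith
          linarith
        have h10 := mul_le_mul_of_nonneg_left h5 hδ'0.le
        linarith
    -- the pairs
    set P2 : Finset ((W p0).Point × (W p1).Point) :=
      (Ba a).image fun z => (z p0 - a p0, z p1 - a p1) with hP2
    have h2 : (P2.card : ℝ) ≤ C * L' ^ 2 := by
      refine hC T' hT'2 _ ?_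
      intro y hy
      obtain ⟨z, hzz, rfl⟩ := Finset.mem_image.1 hy
      obtain ⟨g1, g2, g3, g4, g5⟩ := hz z hzz
      exact ⟨g1 _, g1 _, ⟨g2 _, g2 _⟩, g3, g4 _, g4 _, g5 _⟩
    -- the fibres
    have h3 : ∀ y ∈ P2, ((Ba a).filter fun z => (z p0 - a p0, z p1 - a p1) = y).card ≤ M := by
      intro y hy
      obtain ⟨z₀, hz₀, rfl⟩ := Finset.mem_image.1 hy
      set F := (Ba a).filter fun z =>
        (z p0 - a p0, z p1 - a p1) = (z₀ p0 - a p0, z₀ p1 - a p1) with hF
      have h4 : F ⊆ Fintype.piFinset fun i => F.image fun z => z i := by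
        intro z hzF
        rw [Fintype.mem_piFinset]
        exact fun i => Finset.mem_image_of_mem _ hzF
      have h5 : ∀ i, (F.image fun z => z i).card ≤ Nf i + 1 := by
        intro i
        have h6 : (F.image fun z => z i).card = ((F.image fun z => z i).image
            fun Q => Q - a i).card :=
          (Finset.card_image_of_injective _ (sub_left_injective)).symm
        rw [h6]
        refine (hNf i (z₀ p0 - a p0) ((hz z₀ hz₀).2.1 p0) _ ?_).trans (Nat.le_succ _)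
        intro Q hQ
        obtain ⟨Q', hQ', rfl⟩ := Finset.mem_image.1 hQ
        obtain ⟨z, hzF, rfl⟩ := Finset.mem_image.1 hQ'
        obtain ⟨hzB, hze⟩ := Finset.mem_filter.1 hzF
        have h7 : z p0 - a p0 = z₀ p0 - a p0 := congrArg Prod.fst hze
        obtain ⟨g1, g2, g3, g4, g5⟩ := hz z hzB
        rw [← h7]
        exact ⟨g1 i, g2 i, g5 i⟩
      refine (Finset.card_le_card h4).trans ?_
      rw [Fintype.card_piFinset, hM]
      exact Finset.prod_le_prod' fun i _ => h5 i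
    have h4 : (Ba a).card ≤ P2.card * M := by
      rw [Finset.card_eq_sum_card_fiberwise (f := fun z => (z p0 - a p0, z p1 - a p1)) (t := P2)
        fun z hz => Finset.mem_coe.2 (Finset.mem_image_of_mem _ hz)]
      exact Finset.sum_le_card_nsmul _ _ _ h3
    calc ((Ba a).card : ℝ) ≤ ((P2.card * M : ℕ) : ℝ) := by exact_mod_cast h4
      _ = P2.card * M := by push_cast; rfl
      _ ≤ (C * L' ^ 2) * M := mul_le_mul_of_nonneg_right h2 (Nat.cast_nonneg _)
      _ = (M * C) * L' ^ 2 := by ring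
  have hκ0 : 0 ≤ κ := by
    have : 0 ≤ Real.log (3 + c) / Real.log 2 :=
      div_nonneg (Real.log_nonneg (by linarith)) hl2.le
    linarith
  have h1 : (B.card : ℝ) ≤ Bs.card + ∑ a ∈ S, ((Ba a).card : ℝ) := by
    have h2 : B.card ≤ Bs.card + ∑ a ∈ S, (Ba a).card :=
      (Finset.card_le_card hcov).trans ((Finset.card_union_le _ _).trans
        (Nat.add_le_add_left Finset.card_biUnion_le _))
    exact_mod_cast h2
  have h3 : ∑ a ∈ S, ((Ba a).card : ℝ) ≤ S.card * ((M * C) * L' ^ 2) := by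
    rw [← nsmul_eq_mul]
    exact Finset.sum_le_card_nsmul S _ _ hBa_card
  have h4 : L' ^ 2 ≤ κ ^ 2 * Real.log T ^ 2 := by
    rw [← mul_pow]
    exact pow_le_pow_left₀ hL'0 hL'κ _
  have h5 : (N₀ : ℝ) ≤ N₀ / Real.log 2 ^ 2 * Real.log T ^ 2 := by
    rw [div_mul_eq_mul_div, le_div_iff₀ (by positivity)]
    exact mul_le_mul_of_nonneg_left (pow_le_pow_left₀ hl2.le hlT _) (Nat.cast_nonneg _)
  have h6 : (S.card : ℝ) * ((M * C) * L' ^ 2) ≤
      S.card * ((M * C) * (κ ^ 2 * Real.log T ^ 2)) :=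
    mul_le_mul_of_nonneg_left (mul_le_mul_of_nonneg_left h4
      (mul_nonneg (Nat.cast_nonneg _) hCC)) (Nat.cast_nonneg _)
  calc (B.card : ℝ) ≤ Bs.card + ∑ a ∈ S, ((Ba a).card : ℝ) := h1
    _ ≤ N₀ + S.card * ((M * C) * L' ^ 2) := add_le_add hBs_card h3
    _ ≤ N₀ / Real.log 2 ^ 2 * Real.log T ^ 2 +
        S.card * ((M * C) * (κ ^ 2 * Real.log T ^ 2)) :=
        add_le_add h5 h6
    _ = _ := by ring

end

end Pool.Agent.Helper29.BL
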