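import Pool.Agent.Helper91.BL.FINg
import Pool.Agent.Helper29.BL.NDIMh

/-! # Project BL: FINh, the final form with exponent 2 -/

namespace Pool.Agent.Helper29.BL

open WeierstrassCurve Height Height.AdmissibleAbsValues Pool.Agent.Helper91.BL

/-- FINh. FINg with `(log T)²` for all `n`. -/
def FINh : Prop := ∀ (K : Type) [Field K] [NumberField K] [DecidableEq K] (n : ℕ), 2 ≤ n →
  ∀ (W : Fin n → Affine K), (∀ i, (W i).IsElliptic ∨ W i = nodal K) →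
  ∀ (Γ : ∀ i, AddSubgroup (W i).Point), (∀ i, (Γ i).FG) →
  ∀ (S : Finset (∀ i, (W i).Point)), (∀ a ∈ S, ∀ i, a i ∈ Γ i) →
  ∀ (Z₀ : MvPolynomial (Fin n) K) (hK hN hH : (∀ i, (W i).Point) → ℝ) (c₀ C₀ : ℝ), Z₀ ≠ 0 →
  0 < c₀ → (∀ z, z ∉ S → hK z ≤ C₀ * ∑ a ∈ S, hE (z - a) + C₀) → (∀ z, 0 ≤ hN z) →
  (∀ z, MvPolynomial.eval (fun i => xc (z i)) Z₀ ≠ 0 → c₀ * hL z - C₀ ≤ hH z) →
  ∀ δ : ℝ, 0 < δ →
  ∃ (Z : MvPolynomial (Fin n) K) (C : ℝ), Z ≠ 0 ∧ ∀ T : ℝ, 2 ≤ T →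
    ∀ B : Finset (∀ i, (W i).Point),
    (∀ z ∈ B, (∀ i, z i ∈ Γ i) ∧ hL z ≤ T ∧
      (∀ a, a = 0 ∨ a ∈ S → (∀ i, z i ≠ a i) ∧
        MvPolynomial.eval (fun i => xc (z i - a i)) Z ≠ 0) ∧
      hN z + δ * hH z + C < hK z) →
    (B.card : ℝ) ≤ C * Real.log T ^ 2

theorem finh_of (h : NDIMh) (he : GHE) (hnd : GHN) : FINh := by
  intro K _ _ _ n hn W hW Γ hΓ S hS Z₀ hK hN hH c₀ C₀ hZ₀ hc₀ hup hN0 hlow δ hδ
  obtain ⟨Z₁, C₁, hZ₁, hB₁⟩ := h K n hn W Γ (fun i => gh_any he hnd K (W i) (hW i) (Γ i) (hΓ i))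
    S hS (fun _ => C₀) (δ * c₀) (mul_pos hδ hc₀)
  refine ⟨Z₀ * Z₁, max (C₀ + δ * C₀) C₁, mul_ne_zero hZ₀ hZ₁, fun T hT B hB => ?_⟩
  have hlog : 0 ≤ Real.log T ^ 2 :=
    pow_nonneg (Real.log_nonneg (by linarith)) _
  refine (hB₁ T hT B fun z hz => ?_).trans
    (mul_le_mul_of_nonneg_right (le_max_right _ _) hlog)
  obtain ⟨h1, h2, h3, h4⟩ := hB z hz
  refine ⟨h1, h2, fun a ha => ?_, ?_⟩
  · obtain ⟨h5, h6⟩ := h3 a (Or.inr ha)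
    refine ⟨h5, ?_⟩
    rw [map_mul] at h6
    exact right_ne_zero_of_mul h6
  · have hzS : z ∉ S := by
      intro hz'
      exact (h3 z (Or.inr hz')).1 ⟨0, by omega⟩ rfl
    have h7 := hup z hzS
    have h8 := hN0 z
    have h9 : MvPolynomial.eval (fun i => xc (z i)) Z₀ ≠ 0 := by
      have h10 := (h3 0 (Or.inl rfl)).2
      rw [map_mul] at h10
      have h11 : (fun i => xc (z i - (0 : ∀ i, (W i).Point) i)) = fun i => xc (z i) := by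
        funext i
        rw [Pi.zero_apply, sub_zero]
      rw [h11] at h10
      exact left_ne_zero_of_mul h10
    have h12 := hlow z h9
    have h13 := le_max_left (C₀ + δ * C₀) C₁
    have h14 : δ * (c₀ * hL z - C₀) ≤ δ * hH z := mul_le_mul_of_nonneg_left h12 hδ.le
    rw [← Finset.mul_sum]
    nlinarith

end Pool.Agent.Helper29.BL
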