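import Pool.Agent.Helper86.BL.NDIM
import Pool.Agent.Helper29.BL.GoalsF

/-! # Project BL: NDIMg -/

namespace Pool.Agent.Helper29.BL

open WeierstrassCurve Height Height.AdmissibleAbsValues Polynomial
open scoped Polynomial.Bivariate
open Pool.Agent.Helper86.BL

noncomputable section

theorem ndimg_of' : MAINg → NOR → NDIMg := by
  classical
  intro hMAIN hNOR K _ _ _ n hn W Γ hyp S hS μ δ hδ
  choose H ch e hGH0 hPk using hyp
  obtain ⟨cc, hcc⟩ : ∃ cc : ℝ, cc = ∑ i, |ch i| := ⟨_, rfl⟩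
  have hGH : ∀ i, GH (W i) (H i) cc (e i) := fun i =>
    ⟨(hGH0 i).exp_pos, (hGH0 i).nonneg, (hGH0 i).neg, (hGH0 i).tri, (hGH0 i).mul, fun P => by
      refine ((hGH0 i).near P).trans ((le_abs_self _).trans ?_)
      rw [hcc]
      exact Finset.single_le_sum (f := fun i => |ch i|) (fun _ _ => abs_nonneg _)
        (Finset.mem_univ i)⟩
  have hsub : ∀ i, ∀ P Q : (W i).Point, hx (P - Q) ≤ 2 * hx P + 2 * hx Q + 5 * cc := by
    intro i P Q
    have h1 := (hGH i).tri P (-Q)
    rw [← sub_eq_add_neg, (hGH i).neg] at h1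
    have h2 := Real.sq_sqrt ((hGH i).nonneg (P - Q))
    have h3 := Real.sq_sqrt ((hGH i).nonneg P)
    have h4 := Real.sq_sqrt ((hGH i).nonneg Q)
    have h5 := Real.sqrt_nonneg (H i (P - Q))
    have h6 := abs_le.1 ((hGH i).near (P - Q))
    have h7 := abs_le.1 ((hGH i).near P)
    have h8 := abs_le.1 ((hGH i).near Q)
    have h9 : H i (P - Q) ≤ 2 * H i P + 2 * H i Q := by
      rw [← h2, ← h3, ← h4]
      nlinarith [sq_nonneg (√(H i P) - √(H i Q))]
    linarith
  have hinf : Infinite K := CharZero.infinite K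
  have i₀ : Fin n := ⟨0, by omega⟩
  -- constants
  obtain ⟨Cp, hCpd⟩ : ∃ Cp : Fin n → ℝ, Cp = fun _ => 5 * cc := ⟨_, rfl⟩
  set c : ℝ := ∑ i, (|Cp i| + ∑ a ∈ S, 2 * hx (a i)) with hc
  have hc0 : 0 ≤ c := Finset.sum_nonneg fun i _ => add_nonneg (abs_nonneg _)
    (Finset.sum_nonneg fun a _ => mul_nonneg zero_le_two (hx_nonneg _))
  have hci : ∀ i, ∀ a ∈ S, Cp i + 2 * hx (a i) ≤ c := by
    intro i a ha
    have h1 : |Cp i| + ∑ a ∈ S, 2 * hx (a i) ≤ c := by
      rw [hc]
      exact Finset.single_le_sum (f := fun i => |Cp i| + ∑ a ∈ S, 2 * hx (a i))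
        (fun i _ => add_nonneg (abs_nonneg _)
          (Finset.sum_nonneg fun a _ => mul_nonneg zero_le_two (hx_nonneg _))) (Finset.mem_univ i)
    have h2 : 2 * hx (a i) ≤ ∑ a ∈ S, 2 * hx (a i) :=
      Finset.single_le_sum (f := fun a : ∀ i, (W i).Point => 2 * hx (a i))
        (fun a _ => mul_nonneg zero_le_two (hx_nonneg _)) ha
    have h3 := le_abs_self (Cp i)
    linarith
  have hdiff : ∀ (z a : ∀ i, (W i).Point), a ∈ S → ∀ i, hx (z i - a i) ≤ 2 * hx (z i) + c := by
    intro z a ha i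
    have h1 := hsub i (z i) (a i)
    have h2 := hci i a ha
    rw [hCpd] at h2
    simp only at h2
    linarith
  set s : ℝ := S.card + 1 with hs
  have hs0 : 0 < s := by positivity
  set m : ℝ := 1 + ∑ a ∈ S, |μ a| with hm
  have hm0 : 0 < m := by
    have : 0 ≤ ∑ a ∈ S, |μ a| := Finset.sum_nonneg fun _ _ => abs_nonneg _
    linarith
  have hmμ : ∀ a ∈ S, μ a ≤ m := by
    intro a ha
    have h1 : |μ a| ≤ ∑ a ∈ S, |μ a| :=
      Finset.single_le_sum (f := fun a => |μ a|) (fun _ _ => abs_nonneg _) ha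
    have h2 := le_abs_self (μ a)
    linarith
  set δ' : ℝ := δ / (2 * s * m) with hδ'
  have hδ'0 : 0 < δ' := by positivity
  choose Z C hZ hC using fun k : Fin ((n + 1) / 2) =>
    hMAIN K (W (ia hn k)) (W (ja hn k)) (H _) (H _) cc (e _) (e _) (hGH _) (hGH _)
      (Γ (ia hn k)) (Γ (ja hn k)) (hPk _) (hPk _) δ' hδ'0
  set ZZ : MvPolynomial (Fin n) K := ∏ k, PhiZ (ia hn k) (ja hn k) (Z k) with hZZ
  -- small points
  have hfin : ∀ i, {P : (W i).Point | hx P ≤ c}.Finite := fun i => (hNOR K (W i)).1 c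
  set N₀ : ℕ := (Fintype.piFinset fun i => (hfin i).toFinset).card with hN₀
  set κ : ℝ := 1 + Real.log (3 + c) / Real.log 2 with hκ
  have hl2 : 0 < Real.log 2 := Real.log_pos one_lt_two
  refine ⟨ZZ, N₀ / Real.log 2 ^ (2 * ((n + 1) / 2)) +
    S.card * ((∏ k, C k) * κ ^ (2 * ((n + 1) / 2))), ?_, ?_⟩
  · rw [hZZ, Finset.prod_ne_zero_iff]
    exact fun k _ => PhiZ_ne_zero (ia_ne_ja hn k) (hZ k)
  intro T hT B hB
  have hlT : Real.log 2 ≤ Real.log T := Real.log_le_log two_pos hT
  set T' : ℝ := 2 * T + c + 2 with hT'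
  have hT'2 : 2 ≤ T' := by linarith
  set L' : ℝ := Real.log T' with hL'
  have hL'0 : 0 ≤ L' := Real.log_nonneg (by linarith)
  have hL'κ : L' ≤ κ * Real.log T := log_bound hc0 hT
  -- the sets
  set Bs := B.filter fun z => 2 * hL z < c with hBs
  set Ba : (∀ i, (W i).Point) → Finset (∀ i, (W i).Point) := fun a =>
    B.filter fun z => c ≤ 2 * hL z ∧ δ / s * hL z < m * hE (z - a) with hBa
  have hcov : B ⊆ Bs ∪ S.biUnion Ba := by
    intro z hz
    rw [Finset.mem_union]
    rcases lt_or_ge (2 * hL z) c with h1 | h1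
    · left
      exact Finset.mem_filter.2 ⟨hz, h1⟩
    · right
      obtain ⟨-, -, -, hsum⟩ := hB z hz
      by_contra hcon
      have h2 : ∀ a ∈ S, μ a * hE (z - a) ≤ δ / s * hL z := by
        intro a ha
        by_contra h3
        push Not at h3
        apply hcon
        refine Finset.mem_biUnion.2 ⟨a, ha, Finset.mem_filter.2 ⟨hz, h1, h3.trans_le ?_⟩⟩
        exact mul_le_mul_of_nonneg_right (hmμ a ha) (hE_nonneg _ i₀)
      have h4 := Finset.sum_le_sum h2
      rw [Finset.sum_const, nsmul_eq_mul] at h4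
      have h5 : (S.card : ℝ) * (δ / s * hL z) ≤ δ * hL z := by
        have h6 : (S.card : ℝ) * (δ / s) ≤ δ := by
          rw [mul_div_assoc', div_le_iff₀ hs0, hs]
          nlinarith
        have h7 := mul_le_mul_of_nonneg_right h6 (hL_nonneg z)
        linarith
      linarith
  have hBs_card : (Bs.card : ℝ) ≤ N₀ := by
    have : Bs ⊆ Fintype.piFinset fun i => (hfin i).toFinset := by
      intro z hz
      rw [Fintype.mem_piFinset]
      intro i
      rw [Set.Finite.mem_toFinset]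
      show hx (z i) ≤ c
      have h1 := (Finset.mem_filter.1 hz).2
      have h2 := hx_le_hL z i
      have h3 := hL_nonneg z
      linarith
    exact_mod_cast Finset.card_le_card this
  have hBa_card : ∀ a ∈ S, ((Ba a).card : ℝ) ≤ (∏ k, C k) * L' ^ (2 * ((n + 1) / 2)) := by
    intro a ha
    set Ψ : (∀ i, (W i).Point) → (∀ k : Fin ((n + 1) / 2),
        (W (ia hn k)).Point × (W (ja hn k)).Point) :=
      fun z k => (z (ia hn k) - a (ia hn k), z (ja hn k) - a (ja hn k)) with hΨ
    have hinj : Function.Injective Ψ := by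
      intro z z' h
      funext i
      obtain ⟨k, hk⟩ := cover hn i
      have h1 := congrFun h k
      rcases hk with hk | hk
      · have h2 : z (ia hn k) - a (ia hn k) = z' (ia hn k) - a (ia hn k) := congrArg Prod.fst h1
        have h3 : z (ia hn k) = z' (ia hn k) := sub_left_injective h2
        rw [hk]
        exact h3
      · have h2 : z (ja hn k) - a (ja hn k) = z' (ja hn k) - a (ja hn k) := congrArg Prod.snd h1
        have h3 : z (ja hn k) = z' (ja hn k) := sub_left_injective h2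
        rw [hk]
        exact h3
    have h1 : (Ba a).card ≤ ∏ k, ((Ba a).image fun z => Ψ z k).card := by
      rw [← Finset.card_image_of_injective (Ba a) hinj, ← Fintype.card_piFinset]
      apply Finset.card_le_card
      intro y hy
      obtain ⟨z, hz, rfl⟩ := Finset.mem_image.1 hy
      rw [Fintype.mem_piFinset]
      exact fun k => Finset.mem_image_of_mem _ hz
    have h2 : ∀ k, ((((Ba a).image fun z => Ψ z k).card : ℕ) : ℝ) ≤ C k * L' ^ 2 := by
      intro k
      refine hC k T' hT'2 _ ?_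
      intro y hy
      obtain ⟨z, hz, rfl⟩ := Finset.mem_image.1 hy
      obtain ⟨hzB, hz1, hz2⟩ := Finset.mem_filter.1 hz
      obtain ⟨hzΓ, hzT, hza, -⟩ := hB z hzB
      obtain ⟨hza1, hza2⟩ := hza a ha
      have hev : ev (Z k) (kap (Ψ z k)) ≠ 0 := by
        have h3 : MvPolynomial.eval (fun i => xc (z i - a i))
            (PhiZ (ia hn k) (ja hn k) (Z k)) ≠ 0 := by
          intro h4
          apply hza2
          rw [hZZ, map_prod]
          exact Finset.prod_eq_zero (Finset.mem_univ k) h4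
        rw [eval_PhiZ] at h3
        exact h3
      have hhx : ∀ i, hx (z i - a i) ≤ 4 * hL z := by
        intro i
        have h3 := hdiff z a ha i
        have h4 := hx_le_hL z i
        linarith
      have hhx' : ∀ i, hx (z i - a i) ≤ T' := by
        intro i
        have h3 := hdiff z a ha i
        have h4 := hx_le_hL z i
        linarith
      refine ⟨sub_mem (hzΓ _) (hS a ha _), sub_mem (hzΓ _) (hS a ha _),
        ⟨sub_ne_zero.2 (hza1 _), sub_ne_zero.2 (hza1 _)⟩, hev, hhx' _, hhx' _, ?_⟩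
      have h5 : max (hx (Ψ z k).1) (hx (Ψ z k).2) ≤ 4 * hL z := max_le (hhx _) (hhx _)
      have h6 : 2 * hE (z - a) ≤ gg (Ψ z k) := hE_le_gg (z - a) (ia hn k) (ja hn k)
      have h7 : δ' * (4 * hL z) ≤ 2 * hE (z - a) := by
        have h8 : δ' * (4 * hL z) = 2 * ((δ / s * hL z) / m) := by
          rw [hδ']
          field_simp
          ring
        have h9 : (δ / s * hL z) / m ≤ hE (z - a) := by
          rw [div_le_iff₀ hm0, mul_comm]
          rw [mul_comm m] at hz2
          linarith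
        linarith
      have h10 := mul_le_mul_of_nonneg_left h5 hδ'0.le
      linarith
    calc ((Ba a).card : ℝ) ≤ ((∏ k, ((Ba a).image fun z => Ψ z k).card : ℕ) : ℝ) := by
          exact_mod_cast h1
      _ = ∏ k, ((((Ba a).image fun z => Ψ z k).card : ℕ) : ℝ) := by push_cast; rfl
      _ ≤ ∏ k, (C k * L' ^ 2) := Finset.prod_le_prod (fun k _ => Nat.cast_nonneg _)
          (fun k _ => h2 k)
      _ = (∏ k, C k) * L' ^ (2 * ((n + 1) / 2)) := by
          rw [Finset.prod_mul_distrib, Finset.prod_const, Finset.card_univ, Fintype.card_fin,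
            ← pow_mul]
  have hCC : 0 ≤ ∏ k, C k := by
    refine Finset.prod_nonneg fun k _ => ?_
    have h1 := hC k 2 le_rfl ∅ (by simp)
    rw [Finset.card_empty, Nat.cast_zero] at h1
    have h2 : 0 < Real.log 2 ^ 2 := by positivity
    by_contra h3
    push Not at h3
    nlinarith
  have hκ0 : 0 ≤ κ := by
    have : 0 ≤ Real.log (3 + c) / Real.log 2 :=
      div_nonneg (Real.log_nonneg (by linarith)) hl2.le
    linarith
  have h1 : (B.card : ℝ) ≤ Bs.card + ∑ a ∈ S, ((Ba a).card : ℝ) := by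
    have h2 : B.card ≤ Bs.card + ∑ a ∈ S, (Ba a).card :=
      (Finset.card_le_card hcov).trans ((Finset.card_union_le _ _).trans
        (Nat.add_le_add_left Finset.card_biUnion_le _))
    exact_mod_cast h2
  have h3 : ∑ a ∈ S, ((Ba a).card : ℝ) ≤ S.card * ((∏ k, C k) * L' ^ (2 * ((n + 1) / 2))) := by
    rw [← nsmul_eq_mul]
    exact Finset.sum_le_card_nsmul S _ _ hBa_card
  have h4 : L' ^ (2 * ((n + 1) / 2)) ≤ κ ^ (2 * ((n + 1) / 2)) * Real.log T ^ (2 * ((n + 1) / 2)) := by
    rw [← mul_pow]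
    exact pow_le_pow_left₀ hL'0 hL'κ _
  have h5 : (N₀ : ℝ) ≤ N₀ / Real.log 2 ^ (2 * ((n + 1) / 2)) * Real.log T ^ (2 * ((n + 1) / 2)) := by
    rw [div_mul_eq_mul_div, le_div_iff₀ (by positivity)]
    exact mul_le_mul_of_nonneg_left (pow_le_pow_left₀ hl2.le hlT _) (Nat.cast_nonneg _)
  have h6 : (S.card : ℝ) * ((∏ k, C k) * L' ^ (2 * ((n + 1) / 2))) ≤
      S.card * ((∏ k, C k) * (κ ^ (2 * ((n + 1) / 2)) * Real.log T ^ (2 * ((n + 1) / 2)))) :=
    mul_le_mul_of_nonneg_left (mul_le_mul_of_nonneg_left h4 hCC) (Nat.cast_nonneg _)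
  calc (B.card : ℝ) ≤ Bs.card + ∑ a ∈ S, ((Ba a).card : ℝ) := h1
    _ ≤ N₀ + S.card * ((∏ k, C k) * L' ^ (2 * ((n + 1) / 2))) := add_le_add hBs_card h3
    _ ≤ N₀ / Real.log 2 ^ (2 * ((n + 1) / 2)) * Real.log T ^ (2 * ((n + 1) / 2)) +
        S.card * ((∏ k, C k) * (κ ^ (2 * ((n + 1) / 2)) * Real.log T ^ (2 * ((n + 1) / 2)))) :=
        add_le_add h5 h6
    _ = _ := by ring

end

end Pool.Agent.Helper29.BL
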